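import Pool.Agent.Helper76.BL.Final
import Pool.Agent.Helper18.BL.P1
import Pool.Agent.Helper18.BL.P2
import Pool.Agent.Helper18.BL.P3

/-!
# Planar inequalities for the Barker-Larman theorem (MP_70efd9_gt): from bodies to charts
-/

set_option autoImplicit false

open Set MeasureTheory Filter Topology

namespace Pool.Agent.Helper76.BL

open Pool.Agent.Helper18.BL

lemma Chart.rd_right (v : ℝ → ℝ) (h : Chart v) (a : ℝ) :
    Tendsto (rd v) (𝓝[>] a) (𝓝 (rd v a)) := by
  rw [tendsto_order]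
  constructor
  · intro u hu
    filter_upwards [self_mem_nhdsWithin] with t ht
    exact lt_of_lt_of_le hu (h.mono_rd (le_of_lt ht))
  · intro u hu
    -- a point `b > a` with small slope
    have h1 : Tendsto (slope v a) (𝓝[>] a) (𝓝 (rd v a)) := by
      have := h.hd a
      rw [hasDerivWithinAt_iff_tendsto_slope' (by simp)] at this
      exact this
    obtain ⟨b, hb1, hb2⟩ := ((h1.eventually (gt_mem_nhds hu)).and self_mem_nhdsWithin).exists
    have hb : a < b := hb2
    have h2 : ContinuousAt (fun t => (v b - v t) / (b - t)) a := by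
      apply ContinuousAt.div
      · exact (continuous_const.sub h.cont).continuousAt
      · fun_prop
      · exact (sub_pos.2 hb).ne'
    rw [slope_def_field] at hb1
    have h3 : ∀ᶠ t in 𝓝[>] a, (v b - v t) / (b - t) < u :=
      (h2.eventually (gt_mem_nhds hb1)).filter_mono nhdsWithin_le_nhds
    have h4 : ∀ᶠ t in 𝓝[>] a, t < b := (gt_mem_nhds hb).filter_mono nhdsWithin_le_nhds
    filter_upwards [h3, h4] with t ht1 ht2
    refine lt_of_le_of_lt ?_ ht1
    rw [le_div_iff₀ (sub_pos.2 ht2)]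
    have := h.subgrad t b
    linarith

variable {B : Set (ℝ × ℝ)}

lemma pr_comm (n z : ℝ × ℝ) : pr n z = pr z n := by
  simp [pr]; ring

lemma pr_le (hB : IsBody B) (n z : ℝ × ℝ) : pr n z ≤ gauge (plr B) n * gauge B z := by
  rcases eq_or_ne z 0 with rfl | hz
  · simp [pr]
  · have hg := hB.gauge_pos hz
    have h1 : (gauge B z)⁻¹ • z ∈ B := by
      rw [hB.mem_iff_gauge, hB.gauge_smul, abs_of_pos (inv_pos.2 hg), inv_mul_cancel₀ hg.ne']
    have h2 : pr n ((gauge B z)⁻¹ • z) ≤ gauge (plr B) n :=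
      (hB.gauge_plr n).2 (mem_image_of_mem _ h1)
    have e : pr n ((gauge B z)⁻¹ • z) = pr n z / gauge B z := by
      simp [pr]; field_simp
    rw [e, div_le_iff₀ hg] at h2
    exact h2

lemma fst_le_gauge (hB : IsBody B) (hx : ∀ z ∈ B, |z.1| ≤ 1) (z : ℝ × ℝ) :
    |z.1| ≤ gauge B z := by
  rcases eq_or_ne z 0 with rfl | hz
  · simp
  · have hg := hB.gauge_pos hz
    have h1 : (gauge B z)⁻¹ • z ∈ B := by
      rw [hB.mem_iff_gauge, hB.gauge_smul, abs_of_pos (inv_pos.2 hg), inv_mul_cancel₀ hg.ne']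
    have h2 := hx _ h1
    simp only [Prod.smul_fst, smul_eq_mul, abs_mul, abs_of_pos (inv_pos.2 hg)] at h2
    rwa [inv_mul_le_iff₀ hg, mul_one] at h2

lemma chart_of_body (hB : IsBody B) (h10 : ((1 : ℝ), (0 : ℝ)) ∈ B) (hx : ∀ z ∈ B, |z.1| ≤ 1) :
    Chart (fun a => gauge B (a, 1)) where
  conv := by
    refine ⟨convex_univ, fun a _ b _ s t hs ht hst => ?_⟩
    have e : ((s • a + t • b, (1 : ℝ)) : ℝ × ℝ) = s • (a, 1) + t • (b, 1) := by
      ext <;> simp [hst]
    change gauge B (s • a + t • b, 1) ≤ s • gauge B (a, 1) + t • gauge B (b, 1)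
    rw [e]
    refine (hB.gauge_add _ _).trans ?_
    rw [hB.gauge_smul, hB.gauge_smul, abs_of_nonneg hs, abs_of_nonneg ht]
    simp
  lip := by
    intro a a'
    have e : ((a, (1 : ℝ)) : ℝ × ℝ) = (a', 1) + (a - a') • ((1 : ℝ), (0 : ℝ)) := by
      ext <;> simp
    rw [e]
    refine (hB.gauge_add _ _).trans ?_
    rw [hB.gauge_smul]
    have h1 := (hB.mem_iff_gauge _).1 h10
    have h2 := mul_le_mul_of_nonneg_left h1 (abs_nonneg (a - a'))
    rw [mul_one] at h2
    linarith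
  ge_abs := fun a => fst_le_gauge hB hx (a, 1)
  pos0 := hB.gauge_pos (by simp)

lemma plr_tip (hB : IsBody B) (h10 : ((1 : ℝ), (0 : ℝ)) ∈ B) (hx : ∀ z ∈ B, |z.1| ≤ 1) :
    ((1 : ℝ), (0 : ℝ)) ∈ plr B ∧ ∀ n ∈ plr B, |n.1| ≤ 1 := by
  constructor
  · intro z hz
    have := hx z hz
    simp only [pr, one_mul, zero_mul, add_zero]
    exact (le_abs_self _).trans this
  · intro n hn
    have h1 := hn _ h10
    have h2 := hn _ (hB.symm _ h10)
    simp only [pr, mul_one, mul_zero, add_zero, Prod.neg_mk, neg_zero, mul_neg] at h1 h2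
    rw [abs_le]
    constructor <;> linarith

lemma normal_mem (hB : IsBody B) (h10 : ((1 : ℝ), (0 : ℝ)) ∈ B) (hx : ∀ z ∈ B, |z.1| ≤ 1)
    (a : ℝ) : ((rd (fun a => gauge B (a, 1)) a,
      gauge B (a, 1) - a * rd (fun a => gauge B (a, 1)) a) : ℝ × ℝ) ∈ plr B := by
  have hc := chart_of_body hB h10 hx
  set v : ℝ → ℝ := fun a => gauge B (a, 1) with hv
  intro z hz
  simp only [pr]
  change rd v a * z.1 + (v a - a * rd v a) * z.2 ≤ 1
  have hY := hc.Y_nonneg a
  have hX := hc.abs_rd a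
  have hz1 := hx z hz
  have hXz : rd v a * z.1 ≤ 1 := by
    calc rd v a * z.1 ≤ |rd v a * z.1| := le_abs_self _
      _ = |rd v a| * |z.1| := abs_mul _ _
      _ ≤ 1 * 1 := mul_le_mul hX hz1 (abs_nonneg _) (by norm_num)
      _ = 1 := by norm_num
  rcases le_or_gt z.2 0 with h0 | h0
  · have : (v a - a * rd v a) * z.2 ≤ 0 := mul_nonpos_of_nonneg_of_nonpos hY h0
    linarith
  · have h1 := hc.subgrad a (z.1 / z.2)
    have h2 : z.2 * v (z.1 / z.2) ≤ 1 := by
      have e : z = z.2 • ((z.1 / z.2, (1 : ℝ)) : ℝ × ℝ) := by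
        ext
        · simp; field_simp
        · simp
      have h3 := (hB.mem_iff_gauge z).1 hz
      rw [e, hB.gauge_smul, abs_of_pos (by simpa using h0)] at h3
      simpa [hv] using h3
    have h4 := mul_le_mul_of_nonneg_left h1 h0.le
    have e2 : z.2 * (v a + rd v a * (z.1 / z.2 - a)) =
        rd v a * z.1 + (v a - a * rd v a) * z.2 := by
      field_simp
      ring
    linarith

/-- half of the duality -/
lemma dual_half (hB : IsBody B) (h10 : ((1 : ℝ), (0 : ℝ)) ∈ B) (hx : ∀ z ∈ B, |z.1| ≤ 1)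
    (a : ℝ) (hY : 0 < gauge B (a, 1) - a * rd (fun a => gauge B (a, 1)) a) :
    gauge (plr B) (rd (fun a => gauge B (a, 1)) a /
      (gauge B (a, 1) - a * rd (fun a => gauge B (a, 1)) a), 1) =
      1 / (gauge B (a, 1) - a * rd (fun a => gauge B (a, 1)) a) := by
  have hc := chart_of_body hB h10 hx
  have hn := normal_mem hB h10 hx a
  set v : ℝ → ℝ := fun a => gauge B (a, 1) with hv
  change 0 < v a - a * rd v a at hY
  change ((rd v a, v a - a * rd v a) : ℝ × ℝ) ∈ plr B at hn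
  change gauge (plr B) (rd v a / (v a - a * rd v a), 1) = 1 / (v a - a * rd v a)
  set Y := v a - a * rd v a with hYdef
  have e : ((rd v a / Y, (1 : ℝ)) : ℝ × ℝ) = Y⁻¹ • ((rd v a, Y) : ℝ × ℝ) := by
    ext
    · simp; field_simp
    · simp; field_simp
  rw [e, hB.plr.gauge_smul, abs_of_pos (inv_pos.2 hY)]
  have h1 : gauge (plr B) (rd v a, Y) ≤ 1 := (hB.plr.mem_iff_gauge _).1 hn
  have h2 : 1 ≤ gauge (plr B) (rd v a, Y) := by
    have h3 := pr_le hB (rd v a, Y) (a, 1)
    simp only [pr] at h3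
    have hva : gauge B (a, 1) = v a := rfl
    rw [hva] at h3
    have h4 : rd v a * a + Y * 1 = v a := by rw [hYdef]; ring
    rw [h4] at h3
    have hvp := hc.pos a
    by_contra hcon
    push Not at hcon
    nlinarith
  rw [le_antisymm h1 h2, mul_one, one_div]

lemma vl_of_body (hB : IsBody B) (h10 : ((1 : ℝ), (0 : ℝ)) ∈ B) (hx : ∀ z ∈ B, |z.1| ≤ 1) :
    VL (fun a => gauge B (a, 1)) (fun p => gauge (plr B) (p, 1)) := by
  obtain ⟨q10, qx⟩ := plr_tip hB h10 hx
  refine ⟨chart_of_body hB h10 hx, chart_of_body hB.plr q10 qx, fun a p => ?_,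
    fun a hY => dual_half hB h10 hx a hY, fun p hy => ?_⟩
  · have h := pr_le hB (p, 1) (a, 1)
    simp only [pr] at h
    linarith [mul_comm (gauge (plr B) (p, 1)) (gauge B (a, 1)), mul_comm a p]
  · have h := dual_half hB.plr q10 qx p hy
    rw [hB.plr_plr] at h
    exact h

lemma vlc_of_body (hB : IsBody B) (h10 : ((1 : ℝ), (0 : ℝ)) ∈ B) (hx : ∀ z ∈ B, |z.1| ≤ 1)
    (Cs : ℝ)
    (ha : ∀ᵐ a : ℝ, ∀ n ∈ plr B, pr n (a, 1) = gauge B (a, 1) → n.2 * gauge B (a, 1) ≤ Cs)
    (hα : ∀ᵐ α : ℝ, ∀ w ∈ B, pr (α, 1) w = gauge (plr B) (α, 1) →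
      1 ≤ Cs * w.2 * gauge (plr B) (α, 1)) :
    VLC (fun a => gauge B (a, 1)) (fun p => gauge (plr B) (p, 1)) Cs := by
  obtain ⟨q10, qx⟩ := plr_tip hB h10 hx
  have hvl := vl_of_body hB h10 hx
  have hfreq : ∀ (P : ℝ → Prop), (∀ᵐ a : ℝ, P a) → ∀ a, ∃ᶠ t in 𝓝[>] a, P t := by
    intro P hP a hcon
    have h1 : ∀ᶠ t in 𝓝[>] a, ¬ P t := hcon
    obtain ⟨b, hb, hsub⟩ := (mem_nhdsGT_iff_exists_Ioo_subset).1 h1
    have h2 : volume (Ioo a b) = 0 := by
      refine measure_mono_null ?_ hP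
      exact hsub
    rw [Real.volume_Ioo, ENNReal.ofReal_eq_zero] at h2
    have : a < b := hb
    linarith
  refine ⟨hvl, fun a => ?_, fun p => ?_⟩
  · set v : ℝ → ℝ := fun a => gauge B (a, 1) with hv
    have hc := hvl.cv
    have h1 : Tendsto (fun t => v t * (v t - t * rd v t)) (𝓝[>] a)
        (𝓝 (v a * (v a - a * rd v a))) := by
      have hvt : Tendsto v (𝓝[>] a) (𝓝 (v a)) := (hc.cont.tendsto a).mono_left nhdsWithin_le_nhds
      have ht : Tendsto (fun t : ℝ => t) (𝓝[>] a) (𝓝 a) := tendsto_id.mono_left nhdsWithin_le_nhds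
      exact hvt.mul (hvt.sub (ht.mul (Chart.rd_right v hc a)))
    refine le_of_tendsto_of_frequently h1 ((hfreq _ ha a).mono fun t ht => ?_)
    have h2 := ht _ (normal_mem hB h10 hx t) (by simp only [pr]; ring)
    simp only at h2
    change (v t - t * rd v t) * v t ≤ Cs at h2
    linarith [mul_comm (v t) (v t - t * rd v t)]
  · set l : ℝ → ℝ := fun p => gauge (plr B) (p, 1) with hl
    have hc := hvl.cl
    have h1 : Tendsto (fun t => Cs * (l t * (l t - t * rd l t))) (𝓝[>] p)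
        (𝓝 (Cs * (l p * (l p - p * rd l p)))) := by
      have hvt : Tendsto l (𝓝[>] p) (𝓝 (l p)) := (hc.cont.tendsto p).mono_left nhdsWithin_le_nhds
      have ht : Tendsto (fun t : ℝ => t) (𝓝[>] p) (𝓝 p) := tendsto_id.mono_left nhdsWithin_le_nhds
      exact (hvt.mul (hvt.sub (ht.mul (Chart.rd_right l hc p)))).const_mul Cs
    refine ge_of_tendsto_of_frequently h1 ((hfreq _ hα p).mono fun t ht => ?_)
    have hm := normal_mem hB.plr q10 qx t
    rw [hB.plr_plr] at hm
    have h2 := ht _ hm (by simp only [pr]; ring)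
    simp only at h2
    change 1 ≤ Cs * (l t - t * rd l t) * l t at h2
    linarith [mul_comm (l t) (l t - t * rd l t), mul_assoc Cs (l t - t * rd l t) (l t)]

end Pool.Agent.Helper76.BL
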