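import Pool.Agent.Helper76.BL.Coupling

/-!
# Planar inequalities for the Barker-Larman theorem (MP_70efd9_gt), part A:
the affine Blaschke-Santalo inequality in one dimensional form
-/

set_option autoImplicit false

open Set MeasureTheory Filter Topology

namespace Pool.Agent.Helper76.BL

/-- derivative of the calibration function of the Blaschke-Santalo inequality -/
lemma hasDerivAt_bsPhi {b : ℝ → ℝ} {a b' : ℝ} (ha : a ∈ Ioo (-1 : ℝ) 1) (hb : HasDerivAt b b' a) :
    HasDerivAt (fun a => (b a * √(1 - a ^ 2) + Real.arcsin a) / 2)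
      (((1 - a * b a) / √(1 - a ^ 2) + √(1 - a ^ 2) * b') / 2) a := by
  have h1 : 0 < 1 - a ^ 2 := by nlinarith [ha.1, ha.2]
  have hs : 0 < √(1 - a ^ 2) := Real.sqrt_pos.2 h1
  have hd : HasDerivAt (fun a : ℝ => 1 - a ^ 2) (-(2 * a)) a := by
    simpa using ((hasDerivAt_id a).pow 2).const_sub 1
  have hq := hd.sqrt h1.ne'
  have harc := Real.hasDerivAt_arcsin (x := a) (by linarith [ha.1]) (by linarith [ha.2])
  have h := ((hb.mul hq).add harc).div_const 2
  have e : (b' * √(1 - a ^ 2) + b a * (-(2 * a) / (2 * √(1 - a ^ 2))) + 1 / √(1 - a ^ 2)) / 2 =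
      ((1 - a * b a) / √(1 - a ^ 2) + √(1 - a ^ 2) * b') / 2 := by
    field_simp
    ring
  rw [e] at h
  exact h

/-- pointwise inequality for Blaschke-Santalo -/
lemma bs_pointwise {k Ya yb a b q : ℝ} (hk : 0 < k) (hY : 0 < Ya) (hy : 0 < yb)
    (hq : 0 < q) (h : yb * Ya ≤ 1 - a * b) :
    √k * Ya ≤ ((1 - a * b) / q + q * (k * Ya / yb)) / 2 := by
  have hu : 0 < 1 - a * b := lt_of_lt_of_le (mul_pos hy hY) h
  have h1 : 0 < (1 - a * b) / q + q * (k * Ya / yb) := by positivity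
  have h2 : (√k * Ya) ^ 2 ≤ (((1 - a * b) / q + q * (k * Ya / yb)) / 2) ^ 2 := by
    have e1 : (√k * Ya) ^ 2 = k * Ya ^ 2 := by
      rw [mul_pow, Real.sq_sqrt hk.le]
    have e2 : k * Ya ^ 2 ≤ (1 - a * b) * (k * Ya / yb) := by
      rw [mul_div_assoc', le_div_iff₀ hy]
      have := mul_le_mul_of_nonneg_right h (by positivity : 0 ≤ k * Ya)
      nlinarith
    have e3 : (1 - a * b) * (k * Ya / yb) = ((1 - a * b) / q) * (q * (k * Ya / yb)) := by
      field_simp
    rw [e1]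
    rw [e3] at e2
    nlinarith [sq_nonneg ((1 - a * b) / q - q * (k * Ya / yb))]
  exact le_of_sq_le_sq h2 (by positivity) |> fun h => h

/-- one dimensional calculus facts: primitives of continuous functions on `[-1,1]` -/
lemma hasDerivAt_prim {f : ℝ → ℝ} (hf : ContinuousOn f (Icc (-1) 1)) {x : ℝ}
    (hx : x ∈ Ioo (-1 : ℝ) 1) : HasDerivAt (fun x => ∫ t in (-1 : ℝ)..x, f t) (f x) x := by
  have hnx : Icc (-1 : ℝ) 1 ∈ 𝓝 x := Icc_mem_nhds hx.1 hx.2
  apply intervalIntegral.integral_hasDerivAt_right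
  · exact (hf.mono (uIcc_subset_Icc (by norm_num) ⟨hx.1.le, hx.2.le⟩)).intervalIntegrable
  · refine ContinuousOn.stronglyMeasurableAtFilter_nhdsWithin (s := Icc (-1) 1) hf
      measurableSet_Icc x |>.filter_mono ?_
    rw [nhdsWithin_eq_nhds.2 hnx]
  · exact hf.continuousAt hnx

lemma continuousOn_prim {f : ℝ → ℝ} (hf : IntegrableOn f (Icc (-1) 1)) :
    ContinuousOn (fun x => ∫ t in (-1 : ℝ)..x, f t) (Icc (-1) 1) := by
  have := intervalIntegral.continuousOn_primitive_interval (μ := volume) (f := f)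
    (a := -1) (b := 1) (by rwa [uIcc_of_le (by norm_num)])
  rwa [uIcc_of_le (by norm_num)] at this

/-- equality in the pointwise inequality -/
lemma bs_eq_pointwise {k Ya yb a b q : ℝ} (hk : 0 < k) (hYa : 0 < Ya) (hyb : 0 < yb)
    (hqa : 0 < q) (hq2 : q ^ 2 = 1 - a ^ 2) (hl : yb * Ya ≤ 1 - a * b)
    (e0 : √k * Ya = ((1 - a * b) / q + q * (k * Ya / yb)) / 2) :
    (1 - a ^ 2) * (k * Ya / yb) = 1 - a * b ∧ k * Ya ^ 2 * (1 - a ^ 2) = (1 - a * b) ^ 2 := by
  have hu : 0 < 1 - a * b := lt_of_lt_of_le (mul_pos hyb hYa) hl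
  set b' := k * Ya / yb with hb'
  have hb'pos : 0 < b' := by positivity
  have e1 : (√k * Ya) ^ 2 = k * Ya ^ 2 := by
    rw [mul_pow, Real.sq_sqrt hk.le]
  have e2 : k * Ya ^ 2 ≤ (1 - a * b) * b' := by
    rw [hb', mul_div_assoc', le_div_iff₀ hyb]
    have := mul_le_mul_of_nonneg_right hl (by positivity : 0 ≤ k * Ya)
    nlinarith
  have e3 : (1 - a * b) * b' = ((1 - a * b) / q) * (q * b') := by
    field_simp
  have e4 : ((1 - a * b) / q - q * b') ^ 2 ≤ 0 := by
    have : ((1 - a * b) / q - q * b') ^ 2 =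
        4 * ((((1 - a * b) / q + q * b') / 2) ^ 2 - ((1 - a * b) / q) * (q * b')) := by ring
    rw [this, ← e0, e1, ← e3]
    linarith
  have e5 : (1 - a * b) / q = q * b' := by
    have := pow_eq_zero_iff (two_ne_zero) |>.1 (le_antisymm e4 (sq_nonneg _))
    linarith
  have e6 : 1 - a * b = q ^ 2 * b' := by
    rw [div_eq_iff hqa.ne'] at e5
    rw [e5]; ring
  refine ⟨by rw [e6, hq2], ?_⟩
  rw [← e5] at e0
  have e7 : √k * Ya = (1 - a * b) / q := by rw [e0]; ring
  rw [← e1, e7, div_pow, hq2]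
  have : (1 - a ^ 2) ≠ 0 := by rw [← hq2]; positivity
  field_simp

/-- the only curve `a + C √(1 - a²)` inside `(-1,1)` is `a` -/
lemma const_eq_zero_of_mem {b : ℝ → ℝ} {C : ℝ}
    (hbC : ∀ a ∈ Ioo (-1 : ℝ) 1, b a = a + C * √(1 - a ^ 2))
    (hbI : ∀ a ∈ Ioo (-1 : ℝ) 1, b a ∈ Ioo (-1 : ℝ) 1) : C = 0 := by
  by_contra hCne
  -- the extremal point
  set r := √(1 + C ^ 2) with hr
  have hr2 : r ^ 2 = 1 + C ^ 2 := Real.sq_sqrt (by positivity)
  have hrpos : 0 < r := Real.sqrt_pos.2 (by positivity)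
  have hr1 : 1 < r := by
    have : 0 < C ^ 2 := by positivity
    nlinarith
  have key : ∀ e : ℝ, |e| = 1 → e * C = |C| → False := by
    intro e he1 heC
    have he : e ^ 2 = 1 := by rw [← sq_abs, he1]; norm_num
    have hmem : e / r ∈ Ioo (-1 : ℝ) 1 := by
      have hlt : |e / r| < 1 := by
        rw [abs_div, he1, abs_of_pos hrpos, div_lt_one hrpos]
        exact hr1
      exact ⟨(abs_lt.1 hlt).1, (abs_lt.1 hlt).2⟩
    have h1 := hbC _ hmem
    have h2 : √(1 - (e / r) ^ 2) = |C| / r := by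
      rw [div_pow, he, hr2]
      have : 1 - 1 / (1 + C ^ 2) = (|C| / r) ^ 2 := by
        rw [div_pow, sq_abs, hr2]
        field_simp
        ring
      rw [this, Real.sqrt_sq (by positivity)]
    rw [h2] at h1
    have h3 : e * b (e / r) = r := by
      rw [h1]
      have : e * (e / r + C * (|C| / r)) = (e ^ 2 + (e * C) * |C|) / r := by ring
      rw [this, he, heC, ← sq, sq_abs, ← hr2]
      field_simp
    have h4 := hbI _ hmem
    have h5 : |e * b (e / r)| < 1 := by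
      rw [abs_mul, he1, one_mul]
      exact abs_lt.2 h4
    rw [h3, abs_of_pos hrpos] at h5
    linarith
  rcases lt_or_gt_of_ne hCne with h | h
  · exact key (-1) (by norm_num) (by rw [abs_of_neg h]; ring)
  · exact key 1 (by norm_num) (by rw [abs_of_pos h]; ring)

/-- **Affine Blaschke-Santalo inequality**, one dimensional form with the equality case. -/
theorem bs {y Y : ℝ → ℝ} (hy : ContinuousOn y (Icc (-1) 1))
    (hY : ContinuousOn Y (Icc (-1) 1)) (hyp : ∀ x ∈ Ioo (-1 : ℝ) 1, 0 < y x)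
    (hYp : ∀ x ∈ Ioo (-1 : ℝ) 1, 0 < Y x)
    (hle : ∀ x ∈ Ioo (-1 : ℝ) 1, ∀ X ∈ Ioo (-1 : ℝ) 1, y x * Y X ≤ 1 - x * X) :
    (∫ x in (-1 : ℝ)..1, y x) * (∫ x in (-1 : ℝ)..1, Y x) ≤ Real.pi ^ 2 / 4 ∧
    ((∫ x in (-1 : ℝ)..1, y x) * (∫ x in (-1 : ℝ)..1, Y x) = Real.pi ^ 2 / 4 →
      ∃ s : ℝ, 0 < s ∧ ∀ x ∈ Ioo (-1 : ℝ) 1, y x = s * √(1 - x ^ 2) ∧ Y x = √(1 - x ^ 2) / s) := by
  obtain ⟨k, b, hk, hkk, hbc, hb0, hb1, hbI, hbint, hbd⟩ := exists_coupling hy hY hyp hYp
  set J := ∫ x in (-1 : ℝ)..1, Y x with hJ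
  have hJpos : 0 < J := by
    apply intervalIntegral.intervalIntegral_pos_of_pos_on _ _ (by norm_num)
    · exact (hY.mono (by rw [uIcc_of_le (by norm_num)])).intervalIntegrable
    · exact hYp
  set Φ : ℝ → ℝ := fun a => (b a * √(1 - a ^ 2) + Real.arcsin a) / 2 with hΦ
  have hΦc : ContinuousOn Φ (Icc (-1) 1) := by
    apply ContinuousOn.div_const
    apply ContinuousOn.add
    · exact hbc.mul (by fun_prop)
    · exact Real.continuous_arcsin.continuousOn
  have hΦd : ∀ a ∈ Ioo (-1 : ℝ) 1, HasDerivAt Φ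
      (((1 - a * b a) / √(1 - a ^ 2) + √(1 - a ^ 2) * (k * Y a / y (b a))) / 2) a :=
    fun a ha => hasDerivAt_bsPhi ha (hbd a ha)
  have hq : ∀ a ∈ Ioo (-1 : ℝ) 1, 0 < √(1 - a ^ 2) := fun a ha =>
    Real.sqrt_pos.2 (by nlinarith [ha.1, ha.2])
  have hpt : ∀ a ∈ Ioo (-1 : ℝ) 1, √k * Y a ≤
      ((1 - a * b a) / √(1 - a ^ 2) + √(1 - a ^ 2) * (k * Y a / y (b a))) / 2 := by
    intro a ha
    apply bs_pointwise hk (hYp a ha) (hyp _ (hbI a ha)) (hq a ha)
    have := hle _ (hbI a ha) a ha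
    linarith [mul_comm a (b a)]
  -- the difference is monotone
  set D : ℝ → ℝ := fun a => Φ a - √k * ∫ t in (-1 : ℝ)..a, Y t with hD
  have hDc : ContinuousOn D (Icc (-1) 1) :=
    hΦc.sub ((continuousOn_prim hY.integrableOn_Icc).const_smul (√k))
  have hDd : ∀ a ∈ Ioo (-1 : ℝ) 1, HasDerivAt D
      (((1 - a * b a) / √(1 - a ^ 2) + √(1 - a ^ 2) * (k * Y a / y (b a))) / 2 - √k * Y a) a :=
    fun a ha => (hΦd a ha).sub ((hasDerivAt_prim hY ha).const_mul _)
  have hDmono : MonotoneOn D (Icc (-1) 1) := by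
    apply monotoneOn_of_deriv_nonneg (convex_Icc _ _) hDc
    · rw [interior_Icc]
      intro a ha
      exact (hDd a ha).differentiableAt.differentiableWithinAt
    · rw [interior_Icc]
      intro a ha
      rw [(hDd a ha).deriv]
      linarith [hpt a ha]
  have hD0 : D (-1) = -(Real.pi / 4) := by
    simp only [hD, hΦ, hb0, Real.arcsin_neg_one, intervalIntegral.integral_same]
    norm_num
    ring
  have hD1 : D 1 = Real.pi / 4 - √k * J := by
    simp only [hD, hΦ, hb1, Real.arcsin_one]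
    norm_num
    ring
  have hmain : √k * J ≤ Real.pi / 2 := by
    have := hDmono (left_mem_Icc.2 (by norm_num)) (right_mem_Icc.2 (by norm_num))
      (by norm_num : (-1 : ℝ) ≤ 1)
    rw [hD0, hD1] at this
    linarith
  have hprod : (∫ x in (-1 : ℝ)..1, y x) * J = (√k * J) ^ 2 := by
    rw [hkk, mul_pow, Real.sq_sqrt hk.le]
    ring
  have hpos : 0 < √k * J := mul_pos (Real.sqrt_pos.2 hk) hJpos
  refine ⟨?_, ?_⟩
  · rw [hprod]
    have := pow_le_pow_left₀ hpos.le hmain 2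
    calc (√k * J) ^ 2 ≤ (Real.pi / 2) ^ 2 := this
      _ = _ := by ring
  · intro heq
    rw [hprod] at heq
    have hkJ : √k * J = Real.pi / 2 := by
      have h1 : (√k * J) ^ 2 = (Real.pi / 2) ^ 2 := by rw [heq]; ring
      exact (sq_eq_sq₀ hpos.le (by positivity)).1 h1
    have hconst : ∀ a ∈ Icc (-1 : ℝ) 1, D a = -(Real.pi / 4) := by
      intro a ha
      have h1 := hDmono (left_mem_Icc.2 (by norm_num)) ha ha.1
      have h2 := hDmono ha (right_mem_Icc.2 (by norm_num)) ha.2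
      rw [hD0] at h1
      rw [hD1, hkJ] at h2
      linarith
    have hpt' : ∀ a ∈ Ioo (-1 : ℝ) 1, √k * Y a =
        ((1 - a * b a) / √(1 - a ^ 2) + √(1 - a ^ 2) * (k * Y a / y (b a))) / 2 := by
      intro a ha
      have h1 : HasDerivAt D 0 a := by
        have : D =ᶠ[𝓝 a] fun _ => -(Real.pi / 4) := by
          filter_upwards [Icc_mem_nhds ha.1 ha.2] with x hx using hconst x hx
        exact (hasDerivAt_const a (-(Real.pi / 4))).congr_of_eventuallyEq this
      have := h1.unique (hDd a ha)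
      linarith
    -- consequences of equality
    have hcons : ∀ a ∈ Ioo (-1 : ℝ) 1, (1 - a ^ 2) * (k * Y a / y (b a)) = 1 - a * b a ∧
        k * (Y a) ^ 2 * (1 - a ^ 2) = (1 - a * b a) ^ 2 := fun a ha =>
      bs_eq_pointwise hk (hYp a ha) (hyp _ (hbI a ha)) (hq a ha) (Real.sq_sqrt (by
        nlinarith [ha.1, ha.2])) (by
        have := hle _ (hbI a ha) a ha
        linarith [mul_comm a (b a)]) (hpt' a ha)
    -- `b = a + C √(1 - a ^ 2)`
    set c : ℝ → ℝ := fun a => (b a - a) / √(1 - a ^ 2) with hc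
    have hcd : ∀ a ∈ Ioo (-1 : ℝ) 1, HasDerivAt c 0 a := by
      intro a ha
      have h1 : 0 < 1 - a ^ 2 := by nlinarith [ha.1, ha.2]
      have hd : HasDerivAt (fun a : ℝ => 1 - a ^ 2) (-(2 * a)) a := by
        simpa using ((hasDerivAt_id a).pow 2).const_sub 1
      have hqd := hd.sqrt h1.ne'
      have h := ((hbd a ha).sub (hasDerivAt_id a)).div hqd (hq a ha).ne'
      have hq2 : √(1 - a ^ 2) ^ 2 = 1 - a ^ 2 := Real.sq_sqrt h1.le
      have hqne : √(1 - a ^ 2) ≠ 0 := (hq a ha).ne'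
      have e : ((k * Y a / y (b a) - 1) * √(1 - a ^ 2) -
          (b a - a) * (-(2 * a) / (2 * √(1 - a ^ 2)))) / √(1 - a ^ 2) ^ 2 = 0 := by
        have e1 : (k * Y a / y (b a) - 1) * √(1 - a ^ 2) -
          (b a - a) * (-(2 * a) / (2 * √(1 - a ^ 2))) =
          ((k * Y a / y (b a) - 1) * √(1 - a ^ 2) ^ 2 + (b a - a) * a) / √(1 - a ^ 2) := by
          field_simp
          ring
        rw [e1, hq2]
        have := (hcons a ha).1
        have e2 : (k * Y a / y (b a) - 1) * (1 - a ^ 2) + (b a - a) * a = 0 := by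
          linear_combination this
        rw [e2]
        simp
      rw [← e]
      exact h
    obtain ⟨C, hC⟩ : ∃ C, ∀ a ∈ Ioo (-1 : ℝ) 1, c a = C := by
      refine ⟨c 0, fun a ha => ?_⟩
      have := (convex_Ioo (-1 : ℝ) 1).is_const_of_fderivWithin_eq_zero (𝕜 := ℝ) (f := c)
        (fun x hx => (hcd x hx).differentiableAt.differentiableWithinAt) (fun x hx => by
          have h1 := (hcd x hx).hasFDerivAt.hasFDerivWithinAt (s := Ioo (-1 : ℝ) 1)
          rw [h1.fderivWithin (isOpen_Ioo.uniqueDiffWithinAt hx)]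
          ext
          simp) ha (by norm_num : (0 : ℝ) ∈ Ioo (-1 : ℝ) 1)
      exact this
    have hbC : ∀ a ∈ Ioo (-1 : ℝ) 1, b a = a + C * √(1 - a ^ 2) := by
      intro a ha
      have := hC a ha
      simp only [hc] at this
      rw [div_eq_iff (hq a ha).ne'] at this
      linarith
    have hC0 : C = 0 := const_eq_zero_of_mem hbC hbI
    have hba : ∀ a ∈ Ioo (-1 : ℝ) 1, b a = a := by
      intro a ha
      rw [hbC a ha, hC0]
      ring
    refine ⟨√k, Real.sqrt_pos.2 hk, fun a ha => ?_⟩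
    obtain ⟨e1, e2⟩ := hcons a ha
    rw [hba a ha] at e1 e2
    have h1 : 0 < 1 - a ^ 2 := by nlinarith [ha.1, ha.2]
    have hya := hyp a ha
    have hYa := hYp a ha
    have e3 : k * Y a / y a = 1 := by
      have : (1 - a ^ 2) * (k * Y a / y a) = (1 - a ^ 2) * 1 := by
        rw [e1]; ring
      exact mul_left_cancel₀ h1.ne' this
    rw [div_eq_one_iff_eq hya.ne'] at e3
    have e4 : k * Y a ^ 2 = 1 - a ^ 2 := by
      have : k * Y a ^ 2 * (1 - a ^ 2) = (1 - a ^ 2) * (1 - a ^ 2) := by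
        rw [e2]; ring
      exact mul_right_cancel₀ h1.ne' this
    have e5 : √(1 - a ^ 2) = √k * Y a := by
      rw [← e4, Real.sqrt_mul hk.le, Real.sqrt_sq hYa.le]
    have e6 : √k * √k = k := Real.mul_self_sqrt hk.le
    constructor
    · rw [e5, ← e3, ← mul_assoc, e6]
    · rw [e5]
      have : √k ≠ 0 := (Real.sqrt_pos.2 hk).ne'
      field_simp

end Pool.Agent.Helper76.BL
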