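import Pool.Agent.Helper76.BL.Leg

/-!
# Planar inequalities for the Barker-Larman theorem (MP_70efd9_gt): boundary functions of dual
charts
-/

set_option autoImplicit false

open Set MeasureTheory Filter Topology

namespace Pool.Agent.Helper76.BL

namespace VL

variable {v ℓ : ℝ → ℝ}

/-- the boundary point in direction `(a, 1)` -/
lemma leg_div (h : VL v ℓ) {a : ℝ} (ha : 0 < v a - a * rd v a) : leg ℓ (a / v a) = 1 / v a := by
  have hv := h.cv.pos a
  apply le_antisymm
  · have h1 := h.cl.leg_le (h.cv.abs_div_le a) (rd v a / (v a - a * rd v a))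
    rw [h.dv a ha] at h1
    refine h1.trans (le_of_eq ?_)
    field_simp
  · refine le_ciInf fun p => ?_
    rw [div_le_iff₀ hv]
    have := h.pol a p
    have e : (ℓ p - p * (a / v a)) * v a = v a * ℓ p - a * p := by
      field_simp
    rw [e]
    linarith

lemma Y_pos (h : VL v ℓ) {a : ℝ} (ha : |a| < v a) : 0 < v a - a * rd v a := by
  rcases eq_or_lt_of_le (h.cv.Y_nonneg a) with h1 | h1
  · have := h.cv.Y_pos_iff a h1.symm
    linarith
  · exact h1

lemma leg_div' (h : VL v ℓ) {a : ℝ} (ha : |a| < v a) : leg ℓ (a / v a) = 1 / v a :=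
  h.leg_div (h.Y_pos ha)

/-- every abscissa is attained -/
lemma exists_div (h : VL v ℓ) {x : ℝ} (hx : x ∈ Ioo (-1 : ℝ) 1) :
    ∃ a, |a| < v a ∧ a / v a = x := by
  have hc : Continuous (fun a => a / v a) :=
    continuous_id.div h.cv.cont fun a => (h.cv.pos a).ne'
  have h1 : ∃ a, a / v a < x := by
    have := h.cv.tendsto_div_atBot.eventually (gt_mem_nhds hx.1)
    exact this.exists
  have h2 : ∃ a, x < a / v a := by
    have := h.cv.tendsto_div_atTop.eventually (lt_mem_nhds hx.2)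
    exact this.exists
  obtain ⟨a1, ha1⟩ := h1
  obtain ⟨a2, ha2⟩ := h2
  obtain ⟨a, ha⟩ := mem_range_of_exists_le_of_exists_ge hc ⟨a1, ha1.le⟩ ⟨a2, ha2.le⟩
  refine ⟨a, ?_, ha⟩
  simp only at ha
  have hv := h.cv.pos a
  have : |a / v a| < 1 := by rw [ha]; exact abs_lt.2 hx
  rwa [abs_div, abs_of_pos hv, div_lt_one hv] at this

lemma leg_mul_le (h : VL v ℓ) {x X : ℝ} (hx : x ∈ Ioo (-1 : ℝ) 1) (hX : X ∈ Ioo (-1 : ℝ) 1) :
    leg ℓ x * leg v X ≤ 1 - x * X := by
  obtain ⟨p, hp, rfl⟩ := h.symm.exists_div hX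
  rw [h.symm.leg_div' hp]
  have hl := h.cl.pos p
  have h1 := h.cl.leg_le (Ioo_subset_Icc_self hx) p
  rw [mul_one_div, div_le_iff₀ hl]
  refine h1.trans (le_of_eq ?_)
  field_simp

/-- **Affine Blaschke-Santalo** for the boundary functions of a dual pair of charts -/
lemma bs_leg (h : VL v ℓ) :
    (∫ x in (-1 : ℝ)..1, leg ℓ x) * (∫ x in (-1 : ℝ)..1, leg v x) ≤ Real.pi ^ 2 / 4 ∧
    ((∫ x in (-1 : ℝ)..1, leg ℓ x) * (∫ x in (-1 : ℝ)..1, leg v x) = Real.pi ^ 2 / 4 →
      ∃ s : ℝ, 0 < s ∧ ∀ x ∈ Ioo (-1 : ℝ) 1, leg ℓ x = s * √(1 - x ^ 2) ∧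
        leg v x = √(1 - x ^ 2) / s) :=
  bs h.cl.leg_cont h.cv.leg_cont (fun _ hx => h.cl.leg_pos hx) (fun _ hx => h.cv.leg_pos hx)
    (fun _ hx _ hX => h.leg_mul_le hx hX)

/-- continuous extension of a function on `[-1,1]` -/
noncomputable def ext (f : ℝ → ℝ) (x : ℝ) : ℝ := f (max (-1) (min x 1))

lemma ext_cont {f : ℝ → ℝ} (hf : ContinuousOn f (Icc (-1) 1)) : Continuous (ext f) := by
  have h1 : Continuous (fun x : ℝ => max (-1) (min x 1)) := by fun_prop
  exact hf.comp_continuous h1 fun x => ⟨le_max_left _ _, max_le (by norm_num) (min_le_right _ _)⟩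

lemma ext_eq (f : ℝ → ℝ) {x : ℝ} (hx : x ∈ Icc (-1 : ℝ) 1) : ext f x = f x := by
  unfold ext
  rw [min_eq_left hx.2, max_eq_right hx.1]

/-- primitive of the extension -/
noncomputable def prim (f : ℝ → ℝ) (x : ℝ) : ℝ := ∫ t in (-1 : ℝ)..x, ext f t

lemma prim_hd {f : ℝ → ℝ} (hf : ContinuousOn f (Icc (-1) 1)) (x : ℝ) :
    HasDerivAt (prim f) (ext f x) x :=
  intervalIntegral.integral_hasDerivAt_right ((ext_cont hf).intervalIntegrable _ _)
    ((ext_cont hf).stronglyMeasurableAtFilter _ _) (ext_cont hf).continuousAt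

lemma prim_neg_one (f : ℝ → ℝ) : prim f (-1) = 0 := by simp [prim]

lemma prim_one {f : ℝ → ℝ} : prim f 1 = ∫ x in (-1 : ℝ)..1, f x := by
  unfold prim
  apply intervalIntegral.integral_congr
  intro x hx
  rw [uIcc_of_le (by norm_num)] at hx
  exact ext_eq f hx

/-- **Area formula** -/
lemma area (h : VL v ℓ) : ∫ a, (v a ^ 2)⁻¹ = 2 * ∫ x in (-1 : ℝ)..1, leg ℓ x := by
  set F := prim (leg ℓ) with hF
  have hFd := prim_hd h.cl.leg_cont
  set G : ℝ → ℝ := fun a => 2 * F (a / v a) - a / v a ^ 2 with hG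
  have hxc : Continuous (fun a => a / v a) :=
    continuous_id.div h.cv.cont fun a => (h.cv.pos a).ne'
  have hFc : Continuous F := by
    rw [continuous_iff_continuousAt]
    exact fun x => (hFd x).continuousAt
  have hGc : Continuous G :=
    ((hFc.comp hxc).const_smul (2 : ℝ)).sub
      (continuous_id.div (h.cv.cont.pow 2) fun a => (pow_pos (h.cv.pos a) 2).ne')
  have hGd : ∀ a, HasDerivWithinAt G ((v a ^ 2)⁻¹) (Ioi a) a := by
    intro a
    have hv := h.cv.pos a
    have e1 := HasDerivAt.comp_hasDerivWithinAt a (hFd (a / v a)) (h.cv.hd_div a)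
    have e2 : HasDerivWithinAt (fun a => a / v a ^ 2)
        ((1 * v a ^ 2 - a * (2 * v a * rd v a)) / (v a ^ 2) ^ 2) (Ioi a) a := by
      have h2 : HasDerivWithinAt (fun a => v a ^ 2) (2 * v a * rd v a) (Ioi a) a := by
        have h3 := (h.cv.hd a).pow 2
        have e : ((2 : ℕ) : ℝ) * v a ^ (2 - 1) * rd v a = 2 * v a * rd v a := by norm_num
        rw [e] at h3
        exact h3
      exact (hasDerivWithinAt_id a (Ioi a)).div h2 (pow_pos hv 2).ne'
    have e3 := (e1.const_mul 2).sub e2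
    have e4 : 2 * (ext (leg ℓ) (a / v a) * ((v a - a * rd v a) / v a ^ 2)) -
        (1 * v a ^ 2 - a * (2 * v a * rd v a)) / (v a ^ 2) ^ 2 = (v a ^ 2)⁻¹ := by
      rw [ext_eq _ (h.cv.abs_div_le a)]
      rcases eq_or_lt_of_le (h.cv.Y_nonneg a) with h0 | h0
      · rw [← h0]
        have : a * rd v a = v a := by linarith
        field_simp
        nlinarith
      · rw [h.leg_div h0]
        field_simp
        ring
    rw [← e4]
    exact e3
  have hGl : Tendsto G atBot (𝓝 0) := by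
    have h1 : Tendsto (fun a => 2 * F (a / v a)) atBot (𝓝 (2 * F (-1))) :=
      ((hFc.tendsto _).comp h.cv.tendsto_div_atBot).const_mul 2
    rw [hF, prim_neg_one, mul_zero] at h1
    have h2 : Tendsto (fun a => a / v a ^ 2) atBot (𝓝 0) := by
      have h3 : Tendsto (fun a => (v a)⁻¹) atBot (𝓝 0) := by
        apply tendsto_inv_atTop_zero.comp
        apply tendsto_atTop_mono h.cv.ge_abs
        exact tendsto_abs_atBot_atTop
      have := h.cv.tendsto_div_atBot.mul h3
      rw [mul_zero] at this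
      refine this.congr fun a => ?_
      have := (h.cv.pos a).ne'
      field_simp
    have := h1.sub h2
    rw [sub_zero] at this
    exact this
  have hGr : Tendsto G atTop (𝓝 (2 * ∫ x in (-1 : ℝ)..1, leg ℓ x)) := by
    have h1 : Tendsto (fun a => 2 * F (a / v a)) atTop (𝓝 (2 * F 1)) :=
      ((hFc.tendsto _).comp h.cv.tendsto_div_atTop).const_mul 2
    rw [hF, prim_one] at h1
    have h2 : Tendsto (fun a => a / v a ^ 2) atTop (𝓝 0) := by
      have h3 : Tendsto (fun a => (v a)⁻¹) atTop (𝓝 0) := by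
        apply tendsto_inv_atTop_zero.comp
        apply tendsto_atTop_mono h.cv.ge_abs
        exact tendsto_abs_atTop_atTop
      have := h.cv.tendsto_div_atTop.mul h3
      rw [mul_zero] at this
      refine this.congr fun a => ?_
      have := (h.cv.pos a).ne'
      field_simp
    have := h1.sub h2
    rw [sub_zero] at this
    exact this
  rw [ftc_eq hGc hGd h.cv.integrable_inv_sq hGl hGr, sub_zero]

end VL

end Pool.Agent.Helper76.BL
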