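import Mathlib

/-!
# Planar inequalities for the Barker-Larman theorem (MP_70efd9_gt), part A: the coupling

`y` and `Y` are positive functions on `(-1, 1)`; `b` is the increasing bijection of `[-1, 1]`
which transports the density `Y / ∫ Y` to `y / ∫ y`.
-/

set_option autoImplicit false

open Set MeasureTheory Filter Topology

namespace Pool.Agent.Helper76.BL

/-- Existence of the coupling. -/
theorem exists_coupling {y Y : ℝ → ℝ} (hy : ContinuousOn y (Icc (-1) 1))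
    (hY : ContinuousOn Y (Icc (-1) 1)) (hyp : ∀ x ∈ Ioo (-1 : ℝ) 1, 0 < y x)
    (hYp : ∀ x ∈ Ioo (-1 : ℝ) 1, 0 < Y x) :
    ∃ (k : ℝ) (b : ℝ → ℝ), 0 < k ∧ (∫ x in (-1 : ℝ)..1, y x) = k * ∫ x in (-1 : ℝ)..1, Y x ∧
      ContinuousOn b (Icc (-1) 1) ∧ b (-1) = -1 ∧ b 1 = 1 ∧
      (∀ a ∈ Ioo (-1 : ℝ) 1, b a ∈ Ioo (-1 : ℝ) 1) ∧
      (∀ a ∈ Icc (-1 : ℝ) 1, (∫ x in (-1 : ℝ)..b a, y x) = k * ∫ x in (-1 : ℝ)..a, Y x) ∧
      ∀ a ∈ Ioo (-1 : ℝ) 1, HasDerivAt b (k * Y a / y (b a)) a := by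
  have hyi : IntervalIntegrable y volume (-1) 1 :=
    (hy.mono (by rw [uIcc_of_le (by norm_num)])).intervalIntegrable
  have hYi : IntervalIntegrable Y volume (-1) 1 :=
    (hY.mono (by rw [uIcc_of_le (by norm_num)])).intervalIntegrable
  set F : ℝ → ℝ := fun x => ∫ t in (-1 : ℝ)..x, y t with hF
  set H : ℝ → ℝ := fun x => ∫ t in (-1 : ℝ)..x, Y t with hH
  have sub : ∀ {x z : ℝ}, x ∈ Icc (-1 : ℝ) 1 → z ∈ Icc (-1 : ℝ) 1 → uIcc x z ⊆ Icc (-1 : ℝ) 1 := by
    intro x z hx hz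
    exact uIcc_subset_Icc hx hz
  have ii : ∀ {f : ℝ → ℝ}, ContinuousOn f (Icc (-1) 1) → ∀ {x z : ℝ}, x ∈ Icc (-1 : ℝ) 1 →
      z ∈ Icc (-1 : ℝ) 1 → IntervalIntegrable f volume x z := by
    intro f hf x z hx hz
    exact (hf.mono (sub hx hz)).intervalIntegrable
  have mono : ∀ {f : ℝ → ℝ}, ContinuousOn f (Icc (-1) 1) → (∀ x ∈ Ioo (-1 : ℝ) 1, 0 < f x) →
      StrictMonoOn (fun x => ∫ t in (-1 : ℝ)..x, f t) (Icc (-1) 1) := by
    intro f hf hp x hx z hz hxz
    have h1 : (∫ t in (-1 : ℝ)..z, f t) - (∫ t in (-1 : ℝ)..x, f t) = ∫ t in x..z, f t := by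
      rw [intervalIntegral.integral_interval_sub_left]
      · exact ii hf (by norm_num) hz
      · exact ii hf (by norm_num) hx
    have h2 : 0 < ∫ t in x..z, f t := by
      apply intervalIntegral.intervalIntegral_pos_of_pos_on (ii hf hx hz) _ hxz
      intro t ht
      exact hp t ⟨lt_of_le_of_lt hx.1 ht.1, lt_of_lt_of_le ht.2 hz.2⟩
    simp only
    linarith
  have hder : ∀ {f : ℝ → ℝ}, ContinuousOn f (Icc (-1) 1) → ∀ x ∈ Ioo (-1 : ℝ) 1,
      HasDerivAt (fun x => ∫ t in (-1 : ℝ)..x, f t) (f x) x := by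
    intro f hf x hx
    have hnx : Icc (-1 : ℝ) 1 ∈ 𝓝 x := Icc_mem_nhds hx.1 hx.2
    apply intervalIntegral.integral_hasDerivAt_right
    · exact ii hf (by norm_num) ⟨hx.1.le, hx.2.le⟩
    · refine ContinuousOn.stronglyMeasurableAtFilter_nhdsWithin (s := Icc (-1) 1) hf
        measurableSet_Icc x |>.filter_mono ?_
      rw [nhdsWithin_eq_nhds.2 hnx]
    · exact hf.continuousAt hnx
  have hcont : ∀ {f : ℝ → ℝ}, ContinuousOn f (Icc (-1) 1) →
      ContinuousOn (fun x => ∫ t in (-1 : ℝ)..x, f t) (Icc (-1) 1) := by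
    intro f hf
    have := intervalIntegral.continuousOn_primitive_interval (μ := volume) (f := f)
      (a := -1) (b := 1) (by
        rw [uIcc_of_le (by norm_num)]
        exact hf.integrableOn_Icc)
    rwa [uIcc_of_le (by norm_num)] at this
  have hF1 : 0 < F 1 := by
    have := mono hy hyp (left_mem_Icc.2 (by norm_num)) (right_mem_Icc.2 (by norm_num))
      (by norm_num : (-1 : ℝ) < 1)
    simpa [hF] using this
  have hH1 : 0 < H 1 := by
    have := mono hY hYp (left_mem_Icc.2 (by norm_num)) (right_mem_Icc.2 (by norm_num))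
      (by norm_num : (-1 : ℝ) < 1)
    simpa [hH] using this
  set k : ℝ := F 1 / H 1 with hk
  have hkpos : 0 < k := div_pos hF1 hH1
  have hH0 : H (-1) = 0 := by simp [hH]
  have hF0 : F (-1) = 0 := by simp [hF]
  have hkH : k * H 1 = F 1 := by
    rw [hk]; field_simp
  have hex : ∀ a ∈ Icc (-1 : ℝ) 1, ∃ x ∈ Icc (-1 : ℝ) 1, F x = k * H a := by
    intro a ha
    have h0 : 0 ≤ k * H a := by
      have : H (-1) ≤ H a := (mono hY hYp).monotoneOn (left_mem_Icc.2 (by norm_num)) ha ha.1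
      rw [hH0] at this
      exact mul_nonneg hkpos.le this
    have h1 : k * H a ≤ F 1 := by
      rw [← hkH]
      have : H a ≤ H 1 := (mono hY hYp).monotoneOn ha (right_mem_Icc.2 (by norm_num)) ha.2
      exact mul_le_mul_of_nonneg_left this hkpos.le
    have := intermediate_value_Icc (by norm_num : (-1 : ℝ) ≤ 1) (hcont hy)
    obtain ⟨x, hx, hx'⟩ := this (show k * H a ∈ Icc _ _ from ⟨by
      change F (-1) ≤ _
      rw [hF0]; exact h0, h1⟩)
    exact ⟨x, hx, hx'⟩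
  choose! b hb hb' using hex
  have hFinj : InjOn F (Icc (-1) 1) := (mono hy hyp).injOn
  have bm : b (-1) = -1 := by
    apply hFinj (hb _ (by norm_num)) (by norm_num)
    rw [hb' _ (by norm_num), hH0, hF0, mul_zero]
  have b1 : b 1 = 1 := by
    apply hFinj (hb _ (by norm_num)) (by norm_num)
    rw [hb' _ (by norm_num), hkH]
  have bmono : StrictMonoOn b (Icc (-1) 1) := by
    intro x hx z hz hxz
    have h1 : F (b x) < F (b z) := by
      rw [hb' x hx, hb' z hz]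
      exact mul_lt_mul_of_pos_left ((mono hY hYp) hx hz hxz) hkpos
    exact ((mono hy hyp).lt_iff_lt (hb x hx) (hb z hz)).1 h1
  have bIoo : ∀ a ∈ Ioo (-1 : ℝ) 1, b a ∈ Ioo (-1 : ℝ) 1 := by
    intro a ha
    have h1 := bmono (left_mem_Icc.2 (by norm_num)) ⟨ha.1.le, ha.2.le⟩ ha.1
    have h2 := bmono ⟨ha.1.le, ha.2.le⟩ (right_mem_Icc.2 (by norm_num)) ha.2
    rw [bm] at h1
    rw [b1] at h2
    exact ⟨h1, h2⟩
  have bsurj : SurjOn b (Icc (-1) 1) (Icc (-1) 1) := by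
    intro x hx
    have h0 : 0 ≤ F x / k := by
      have : F (-1) ≤ F x := (mono hy hyp).monotoneOn (left_mem_Icc.2 (by norm_num)) hx hx.1
      rw [hF0] at this
      positivity
    have h1 : F x / k ≤ H 1 := by
      rw [div_le_iff₀ hkpos, mul_comm, hkH]
      exact (mono hy hyp).monotoneOn hx (right_mem_Icc.2 (by norm_num)) hx.2
    have := intermediate_value_Icc (by norm_num : (-1 : ℝ) ≤ 1) (hcont hY)
    obtain ⟨a, ha, ha'⟩ := this (show F x / k ∈ Icc _ _ from ⟨by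
      change H (-1) ≤ _
      rw [hH0]; exact h0, h1⟩)
    refine ⟨a, ha, ?_⟩
    apply hFinj (hb _ ha) hx
    rw [hb' a ha]
    change H a = _ at ha'
    rw [ha']
    field_simp
  have bimg : b '' Icc (-1) 1 = Icc (-1) 1 := by
    apply Subset.antisymm
    · rintro _ ⟨a, ha, rfl⟩
      exact hb a ha
    · exact bsurj
  have bcont : ContinuousOn b (Icc (-1) 1) := by
    rw [continuousOn_iff_continuous_domRestrict]
    let B : Icc (-1 : ℝ) 1 → Icc (-1 : ℝ) 1 := fun a => ⟨b a, hb a a.2⟩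
    have hBm : Monotone B := fun x z hxz => bmono.monotoneOn x.2 z.2 hxz
    have hBs : Function.Surjective B := by
      intro x
      obtain ⟨a, ha, ha'⟩ := bsurj x.2
      exact ⟨⟨a, ha⟩, Subtype.ext ha'⟩
    have hBc : Continuous B := hBm.continuous_of_surjective hBs
    exact continuous_subtype_val.comp hBc
  refine ⟨k, b, hkpos, hkH.symm, bcont, bm, b1, bIoo, hb', ?_⟩
  intro a ha
  have hba := bIoo a ha
  have hd1 := (hder hY a ha).const_mul k
  have hd2 := hder hy (b a) hba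
  have hca : ContinuousAt b a := bcont.continuousAt (Icc_mem_nhds ha.1 ha.2)
  -- `F ∘ b = k H` near `a`
  have hloc : ∀ᶠ x in 𝓝 a, F (b x) = k * H x := by
    filter_upwards [Icc_mem_nhds ha.1 ha.2] with x hx using hb' x hx
  have hslope : Tendsto (fun x => slope F (b a) (b x)) (𝓝[≠] a) (𝓝 (y (b a))) := by
    have h1 : Tendsto (slope F (b a)) (𝓝[≠] (b a)) (𝓝 (y (b a))) := hasDerivAt_iff_tendsto_slope.1 hd2
    refine h1.comp (tendsto_nhdsWithin_iff.2 ⟨hca.tendsto.mono_left nhdsWithin_le_nhds, ?_⟩)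
    have : ∀ᶠ x in 𝓝 a, x ∈ Icc (-1 : ℝ) 1 := Icc_mem_nhds ha.1 ha.2
    filter_upwards [this.filter_mono nhdsWithin_le_nhds, self_mem_nhdsWithin] with x hx hxa
    intro h
    exact hxa (bmono.injOn hx ⟨ha.1.le, ha.2.le⟩ h)
  have hslope2 : Tendsto (slope (fun x => k * H x) a) (𝓝[≠] a) (𝓝 (k * Y a)) :=
    hasDerivAt_iff_tendsto_slope.1 hd1
  rw [hasDerivAt_iff_tendsto_slope]
  have h3 := hslope2.div hslope (hyp _ hba).ne'
  refine h3.congr' ?_
  have : ∀ᶠ x in 𝓝 a, x ∈ Icc (-1 : ℝ) 1 := Icc_mem_nhds ha.1 ha.2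
  filter_upwards [this.filter_mono nhdsWithin_le_nhds, self_mem_nhdsWithin] with x hx hxa
  have hne : b x ≠ b a := fun h => hxa (bmono.injOn hx ⟨ha.1.le, ha.2.le⟩ h)
  have hne2 : F (b x) ≠ F (b a) := fun h => hne (hFinj (hb x hx) (hb a ⟨ha.1.le, ha.2.le⟩) h)
  have hxa' : x - a ≠ 0 := sub_ne_zero.2 hxa
  have hne' : b x - b a ≠ 0 := sub_ne_zero.2 hne
  have hne2' : F (b x) - F (b a) ≠ 0 := sub_ne_zero.2 hne2
  simp only [Pi.div_apply, slope_def_field]
  rw [← hb' x hx, ← hb' a ⟨ha.1.le, ha.2.le⟩]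
  change (F (b x) - F (b a)) / (x - a) / ((F (b x) - F (b a)) / (b x - b a)) = _
  field_simp

end Pool.Agent.Helper76.BL
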