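import Pool.Agent.Helper76.BL.BS

/-!
# Planar inequalities for the Barker-Larman theorem (MP_70efd9_gt), part A:
the inequality `D₁ ≤ 0`
-/

set_option autoImplicit false

open Set MeasureTheory Filter Topology

namespace Pool.Agent.Helper76.BL

/-- polynomial core of the calibration inequality -/
lemma calib_poly {B u τ z : ℝ} (hB : 0 ≤ B) (hu : 0 < u) (hτ : 0 < τ) (hz : 0 < z) (hz1 : z ≤ 1) :
    0 ≤ B * (τ ^ 3 * (3 / z + z ^ 3) + 2 - 6 * τ ^ 2) +
      2 * u * τ ^ 2 * (z ^ 3 * (τ ^ 3 - 3 * τ) + 2) := by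
  have h1 : 4 ≤ 3 / z + z ^ 3 := by
    rw [← sub_nonneg]
    have : 3 / z + z ^ 3 - 4 = (1 - z) ^ 2 * (3 + 2 * z + z ^ 2) / z := by
      field_simp
      ring
    rw [this]
    positivity
  have h2 : 0 ≤ τ ^ 3 * (3 / z + z ^ 3) + 2 - 6 * τ ^ 2 := by
    have : τ ^ 3 * 4 ≤ τ ^ 3 * (3 / z + z ^ 3) := mul_le_mul_of_nonneg_left h1 (by positivity)
    have h3 : 0 ≤ (τ - 1) ^ 2 * (2 * τ + 1) := by positivity
    nlinarith
  have h3 : 0 ≤ z ^ 3 * (τ ^ 3 - 3 * τ) + 2 := by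
    have h4 : -2 ≤ τ ^ 3 - 3 * τ := by
      have : 0 ≤ (τ - 1) ^ 2 * (τ + 2) := by positivity
      nlinarith
    have h5 : z ^ 3 ≤ 1 := pow_le_one₀ hz.le hz1
    have h6 : 0 < z ^ 3 := by positivity
    nlinarith
  have h4 : 0 ≤ B * (τ ^ 3 * (3 / z + z ^ 3) + 2 - 6 * τ ^ 2) := mul_nonneg hB h2
  have h5 : 0 ≤ 2 * u * τ ^ 2 * (z ^ 3 * (τ ^ 3 - 3 * τ) + 2) := by positivity
  linarith

/-- pointwise calibration inequality -/
lemma calib_pointwise {a b b' Z q : ℝ} (hb : b ^ 2 ≤ 1) (hu : 0 < 1 - a * b) (hb' : 0 < b')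
    (hZ : 0 < Z) (hq : 0 < q) (hq2 : q ^ 2 = 1 - a ^ 2) (hZb : Z ^ 2 ≤ (1 - a * b) * b') :
    Z ^ 3 * (5 / 3 - 2 * a * b + b ^ 2 / 3 - 2 / 3 * (1 - a ^ 2) * b') / (1 - a * b) ^ 2 ≤
      (1 - b ^ 2) * b' ^ 2 / Z + 2 / 3 * ((1 - b') * (1 - b ^ 2) / q
        - 2 * b * b' * (a - b) / q + a * (a - b) * (1 - b ^ 2) / q ^ 3) := by
  set u := 1 - a * b with hudef
  set w := √(u * b') with hw
  have hw2 : w ^ 2 = u * b' := Real.sq_sqrt (by positivity)
  have hwpos : 0 < w := Real.sqrt_pos.2 (by positivity)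
  set τ := q * w / u with hτ
  set z := Z / w with hz
  have hτpos : 0 < τ := by positivity
  have hzpos : 0 < z := by positivity
  have hz1 : z ≤ 1 := by
    rw [hz, div_le_one hwpos]
    exact abs_le_of_sq_le_sq' (by rw [hw2]; exact hZb) hwpos.le |>.2
  have eb' : b' = τ ^ 2 * u / q ^ 2 := by
    rw [hτ]
    field_simp
    linarith
  have eZ : Z = z * u * τ / q := by
    rw [hz, hτ]
    field_simp
  have hB : 0 ≤ 1 - b ^ 2 := by linarith
  have hmain := calib_poly hB hu hτpos hzpos hz1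
  have hab : a * b = 1 - u := by rw [hudef]; ring
  have h53 : 5 / 3 - 2 * a * b + b ^ 2 / 3 - 2 / 3 * (1 - a ^ 2) * b' =
      2 * u - (1 - b ^ 2) / 3 - 2 / 3 * (τ ^ 2 * u) := by
    have : (1 - a ^ 2) * b' = τ ^ 2 * u := by
      rw [← hq2, eb']; field_simp
    rw [mul_assoc (2 / 3 : ℝ), this, hudef]; ring
  have hRHS : (1 - b') * (1 - b ^ 2) / q - 2 * b * b' * (a - b) / q +
      a * (a - b) * (1 - b ^ 2) / q ^ 3 =
      u / q ^ 3 * ((1 - b ^ 2) - 3 * (1 - b ^ 2) * τ ^ 2 + 2 * u * τ ^ 2) := by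
    have e1 : (1 - b') * (1 - b ^ 2) / q = ((1 - b ^ 2) * q ^ 2 - (1 - b ^ 2) * (b' * q ^ 2)) / q ^ 3 := by
      field_simp
    have e2 : 2 * b * b' * (a - b) / q = 2 * b * (a - b) * (b' * q ^ 2) / q ^ 3 := by
      field_simp
    have e3 : b' * q ^ 2 = τ ^ 2 * u := by rw [eb']; field_simp
    rw [e1, e2, e3, hq2, ← sub_div, ← add_div, div_mul_eq_mul_div]
    congr 1
    have : b * a = 1 - u := by rw [hudef]; ring
    have h2 : 2 * b * (a - b) = 2 * (1 - b ^ 2) - 2 * u := by linear_combination 2 * this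
    rw [h2]
    have h3 : (1 - b ^ 2) * (1 - a ^ 2) + a * (a - b) * (1 - b ^ 2) = (1 - b ^ 2) * u := by
      rw [hudef]; ring
    linear_combination h3
  rw [h53, hRHS]
  have e4 : (1 - b ^ 2) * b' ^ 2 / Z = u / q ^ 3 * ((1 - b ^ 2) * τ ^ 3 / z) := by
    rw [eb', eZ]; field_simp
  have e5 : Z ^ 3 * (2 * u - (1 - b ^ 2) / 3 - 2 / 3 * (τ ^ 2 * u)) / u ^ 2 =
      u / q ^ 3 * (z ^ 3 * τ ^ 3 * (2 * u - (1 - b ^ 2) / 3 - 2 / 3 * (τ ^ 2 * u))) := by
    rw [eZ]; field_simp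
  rw [e4, e5, ← sub_nonneg]
  have e6 : u / q ^ 3 * ((1 - b ^ 2) * τ ^ 3 / z) + 2 / 3 * (u / q ^ 3 *
      ((1 - b ^ 2) - 3 * (1 - b ^ 2) * τ ^ 2 + 2 * u * τ ^ 2)) -
      u / q ^ 3 * (z ^ 3 * τ ^ 3 * (2 * u - (1 - b ^ 2) / 3 - 2 / 3 * (τ ^ 2 * u))) =
      u / q ^ 3 / 3 * ((1 - b ^ 2) * (τ ^ 3 * (3 / z + z ^ 3) + 2 - 6 * τ ^ 2) +
      2 * u * τ ^ 2 * (z ^ 3 * (τ ^ 3 - 3 * τ) + 2)) := by
    field_simp
    ring
  rw [e6]
  positivity

lemma hasDerivAt_calR {b : ℝ → ℝ} {a b' : ℝ} (ha : a ∈ Ioo (-1 : ℝ) 1) (hb : HasDerivAt b b' a) :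
    HasDerivAt (fun a => (a - b a) * (1 - b a ^ 2) / √(1 - a ^ 2))
      ((1 - b') * (1 - b a ^ 2) / √(1 - a ^ 2) - 2 * b a * b' * (a - b a) / √(1 - a ^ 2) +
        a * (a - b a) * (1 - b a ^ 2) / √(1 - a ^ 2) ^ 3) a := by
  have h1 : 0 < 1 - a ^ 2 := by nlinarith [ha.1, ha.2]
  have hs : 0 < √(1 - a ^ 2) := Real.sqrt_pos.2 h1
  have hd : HasDerivAt (fun a : ℝ => 1 - a ^ 2) (-(2 * a)) a := by
    simpa using ((hasDerivAt_id a).pow 2).const_sub 1
  have hq := hd.sqrt h1.ne'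
  have hb2 : HasDerivAt (fun a => 1 - b a ^ 2) (-(2 * b a * b')) a := by
    simpa using (hb.pow 2).const_sub 1
  have hab : HasDerivAt (fun a => a - b a) (1 - b') a := (hasDerivAt_id a).sub hb
  have h := (hab.mul hb2).div hq hs.ne'
  have e : (((1 - b') * (1 - b a ^ 2) + (a - b a) * (-(2 * b a * b'))) * √(1 - a ^ 2) -
      (a - b a) * (1 - b a ^ 2) * (-(2 * a) / (2 * √(1 - a ^ 2)))) / √(1 - a ^ 2) ^ 2 =
      (1 - b') * (1 - b a ^ 2) / √(1 - a ^ 2) - 2 * b a * b' * (a - b a) / √(1 - a ^ 2) +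
        a * (a - b a) * (1 - b a ^ 2) / √(1 - a ^ 2) ^ 3 := by
    field_simp
    ring
  rw [← e]
  exact h

lemma hasDerivWithinAt_calB {b Y : ℝ → ℝ} {a b' Y' : ℝ} (hu : 0 < 1 - a * b a)
    (hb : HasDerivAt b b' a) (hY : HasDerivWithinAt Y Y' (Ioi a) a) :
    HasDerivWithinAt (fun a => 2 / 3 * Y a ^ 3 * (-a + (1 - a ^ 2) * b a / (1 - a * b a)))
      (2 * Y a ^ 2 * Y' * (-a + (1 - a ^ 2) * b a / (1 - a * b a)) + 2 / 3 * Y a ^ 3 *
        (-1 + (-(2 * a * b a) * (1 - a * b a) + (1 - a ^ 2) * b a ^ 2 + (1 - a ^ 2) * b') /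
          (1 - a * b a) ^ 2)) (Ioi a) a := by
  have hd : HasDerivAt (fun a : ℝ => 1 - a ^ 2) (-(2 * a)) a := by
    simpa using ((hasDerivAt_id a).pow 2).const_sub 1
  have hab : HasDerivAt (fun a => 1 - a * b a) (-(1 * b a + a * b')) a :=
    (((hasDerivAt_id a).mul hb).const_sub 1)
  have hh := (hd.mul hb).div hab hu.ne'
  have hm : HasDerivAt (fun a : ℝ => -a) (-1) a := (hasDerivAt_id a).neg
  have h2 := (hm.add hh).hasDerivWithinAt (s := Ioi a)
  have h3 := ((hY.pow 3).const_mul (2 / 3)).mul h2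
  have e : 2 / 3 * (((3 : ℕ) : ℝ) * Y a ^ (3 - 1) * Y') *
      (-a + (1 - a ^ 2) * b a / (1 - a * b a)) + 2 / 3 * Y a ^ 3 *
        (-1 + ((-(2 * a) * b a + (1 - a ^ 2) * b') * (1 - a * b a) -
          (1 - a ^ 2) * b a * (-(1 * b a + a * b'))) / (1 - a * b a) ^ 2) =
      2 * Y a ^ 2 * Y' * (-a + (1 - a ^ 2) * b a / (1 - a * b a)) + 2 / 3 * Y a ^ 3 *
        (-1 + (-(2 * a * b a) * (1 - a * b a) + (1 - a ^ 2) * b a ^ 2 + (1 - a ^ 2) * b') /
          (1 - a * b a) ^ 2) := by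
    have : 1 - a * b a ≠ 0 := hu.ne'
    push_cast
    field_simp
    ring
  rw [← e]
  exact h3

/-- the complete pointwise inequality -/
lemma calib_total {k a b yb Ya Y' q : ℝ} (hk : 0 < k) (hb : b ^ 2 ≤ 1)
    (hyb : 0 < yb) (hYa : 0 < Ya) (hq : 0 < q) (hq2 : q ^ 2 = 1 - a ^ 2)
    (hl : yb * Ya ≤ 1 - a * b) :
    k * (Ya ^ 3 - 2 * a * Ya ^ 2 * Y' - (1 - a ^ 2) * Y' ^ 2 * Ya) ≤
      (1 - b ^ 2) / yb * (k * Ya / yb) +
      k * (2 * Ya ^ 2 * Y' * (-a + (1 - a ^ 2) * b / (1 - a * b)) + 2 / 3 * Ya ^ 3 *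
        (-1 + (-(2 * a * b) * (1 - a * b) + (1 - a ^ 2) * b ^ 2 + (1 - a ^ 2) * (k * Ya / yb)) /
          (1 - a * b) ^ 2)) +
      2 / 3 * (√k)⁻¹ * ((1 - (k * Ya / yb)) * (1 - b ^ 2) / q - 2 * b * (k * Ya / yb) * (a - b) / q +
        a * (a - b) * (1 - b ^ 2) / q ^ 3) := by
  have hu : 0 < 1 - a * b := lt_of_lt_of_le (mul_pos hyb hYa) hl
  set b' := k * Ya / yb with hb'
  have hb'pos : 0 < b' := by positivity
  set s := √k with hs
  have hspos : 0 < s := Real.sqrt_pos.2 hk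
  have hs2 : s ^ 2 = k := Real.sq_sqrt hk.le
  have hZb : (s * Ya) ^ 2 ≤ (1 - a * b) * b' := by
    rw [mul_pow, hs2, hb', mul_div_assoc', le_div_iff₀ hyb]
    have := mul_le_mul_of_nonneg_right hl (by positivity : 0 ≤ k * Ya)
    nlinarith
  have hpt := calib_pointwise hb hu hb'pos (by positivity : 0 < s * Ya) hq hq2 hZb
  set Rd := ((1 - b') * (1 - b ^ 2) / q - 2 * b * b' * (a - b) / q +
        a * (a - b) * (1 - b ^ 2) / q ^ 3) with hRd
  have h1 : (1 - b ^ 2) / yb * b' = s⁻¹ * ((1 - b ^ 2) * b' ^ 2 / (s * Ya)) := by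
    have : yb = k * Ya / b' := by rw [hb']; field_simp
    rw [this, ← hs2]
    field_simp
  have h2 : k * (Ya ^ 3 * (5 / 3 - 2 * a * b + b ^ 2 / 3 - 2 / 3 * (1 - a ^ 2) * b') /
      (1 - a * b) ^ 2) ≤ (1 - b ^ 2) / yb * b' + 2 / 3 * s⁻¹ * Rd := by
    have h3 : k * (Ya ^ 3 * (5 / 3 - 2 * a * b + b ^ 2 / 3 - 2 / 3 * (1 - a ^ 2) * b') /
      (1 - a * b) ^ 2) = s⁻¹ * ((s * Ya) ^ 3 * (5 / 3 - 2 * a * b + b ^ 2 / 3 -
        2 / 3 * (1 - a ^ 2) * b') / (1 - a * b) ^ 2) := by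
      rw [← hs2]
      field_simp
    rw [h3, h1]
    have := mul_le_mul_of_nonneg_left hpt (by positivity : 0 ≤ s⁻¹)
    calc _ ≤ _ := this
      _ = _ := by ring
  have h4 : k * (Ya ^ 3 - 2 * a * Ya ^ 2 * Y' - (1 - a ^ 2) * Y' ^ 2 * Ya) ≤
      k * (Ya ^ 3 * (5 / 3 - 2 * a * b + b ^ 2 / 3 - 2 / 3 * (1 - a ^ 2) * b') /
      (1 - a * b) ^ 2) +
      k * (2 * Ya ^ 2 * Y' * (-a + (1 - a ^ 2) * b / (1 - a * b)) + 2 / 3 * Ya ^ 3 *
        (-1 + (-(2 * a * b) * (1 - a * b) + (1 - a ^ 2) * b ^ 2 + (1 - a ^ 2) * b') /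
          (1 - a * b) ^ 2)) := by
    rw [← mul_add]
    apply mul_le_mul_of_nonneg_left _ hk.le
    rw [← sub_nonneg]
    have : Ya ^ 3 * (5 / 3 - 2 * a * b + b ^ 2 / 3 - 2 / 3 * (1 - a ^ 2) * b') /
      (1 - a * b) ^ 2 +
      (2 * Ya ^ 2 * Y' * (-a + (1 - a ^ 2) * b / (1 - a * b)) + 2 / 3 * Ya ^ 3 *
        (-1 + (-(2 * a * b) * (1 - a * b) + (1 - a ^ 2) * b ^ 2 + (1 - a ^ 2) * b') /
          (1 - a * b) ^ 2)) - (Ya ^ 3 - 2 * a * Ya ^ 2 * Y' - (1 - a ^ 2) * Y' ^ 2 * Ya) =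
        (1 - a ^ 2) * Ya * (Y' + b * Ya / (1 - a * b)) ^ 2 := by
      field_simp
      ring
    rw [this, ← hq2]
    positivity
  linarith

/-- a concave function on `[-1,1]`, nonnegative at the end points, dominates a parabola -/
lemma concave_lower {y : ℝ → ℝ} (hyc : ConcaveOn ℝ (Icc (-1) 1) y) (h1 : 0 ≤ y (-1))
    (h2 : 0 ≤ y 1) {x : ℝ} (hx : x ∈ Icc (-1 : ℝ) 1) :
    y 0 * (1 - |x|) ≤ y x := by
  rcases le_total 0 x with h | h
  · have := hyc.2 (show (0 : ℝ) ∈ Icc (-1 : ℝ) 1 by norm_num)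
      (show (1 : ℝ) ∈ Icc (-1 : ℝ) 1 by norm_num) (show 0 ≤ 1 - x by linarith [hx.2]) h (by ring)
    simp only [smul_eq_mul, mul_zero, mul_one, zero_add] at this
    rw [abs_of_nonneg h]
    nlinarith
  · have := hyc.2 (show (0 : ℝ) ∈ Icc (-1 : ℝ) 1 by norm_num)
      (show (-1 : ℝ) ∈ Icc (-1 : ℝ) 1 by norm_num) (show 0 ≤ 1 + x by linarith [hx.1])
      (show 0 ≤ -x by linarith) (by ring)
    simp only [smul_eq_mul, mul_zero, mul_neg, mul_one, zero_add, neg_neg] at this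
    rw [abs_of_nonpos h]
    nlinarith

/-- the coupling satisfies `(1 - b a)² ≤ C (1 - a)` and `(1 + b a)² ≤ C (1 + a)` -/
lemma coupling_ends {y Y b : ℝ → ℝ} {k : ℝ} (hyc : ConcaveOn ℝ (Icc (-1) 1) y)
    (hy : ContinuousOn y (Icc (-1) 1)) (hY : ContinuousOn Y (Icc (-1) 1))
    (hyp : ∀ x ∈ Ioo (-1 : ℝ) 1, 0 < y x) (h1 : 0 ≤ y (-1)) (h2 : 0 ≤ y 1) (hk : 0 < k)
    (hkk : (∫ x in (-1 : ℝ)..1, y x) = k * ∫ x in (-1 : ℝ)..1, Y x)
    (hbI : ∀ a ∈ Icc (-1 : ℝ) 1, b a ∈ Icc (-1 : ℝ) 1)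
    (hbint : ∀ a ∈ Icc (-1 : ℝ) 1, (∫ x in (-1 : ℝ)..b a, y x) = k * ∫ x in (-1 : ℝ)..a, Y x) :
    ∃ C : ℝ, 0 ≤ C ∧ ∀ a ∈ Icc (-1 : ℝ) 1, (1 - b a) ^ 2 ≤ C * (1 - a) ∧
      (1 + b a) ^ 2 ≤ C * (1 + a) := by
  have hy0 : 0 < y 0 := hyp 0 (by norm_num)
  obtain ⟨M, hM⟩ := (isCompact_Icc (a := (-1 : ℝ)) (b := 1)).exists_bound_of_continuousOn hY
  have hM0 : 0 ≤ M := (norm_nonneg _).trans (hM 0 (by norm_num))
  have ii : ∀ {f : ℝ → ℝ}, ContinuousOn f (Icc (-1) 1) → ∀ {x z : ℝ}, x ∈ Icc (-1 : ℝ) 1 →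
      z ∈ Icc (-1 : ℝ) 1 → IntervalIntegrable f volume x z := by
    intro f hf x z hx hz
    exact (hf.mono (uIcc_subset_Icc hx hz)).intervalIntegrable
  have hpar : ∀ x ∈ Icc (-1 : ℝ) 1, y 0 / 2 * (1 - x ^ 2) ≤ y x := by
    intro x hx
    refine le_trans ?_ (concave_lower hyc h1 h2 hx)
    have : 1 - x ^ 2 ≤ 2 * (1 - |x|) := by
      have : |x| ≤ 1 := abs_le.2 hx
      rw [← sq_abs]
      nlinarith [abs_nonneg x]
    nlinarith
  refine ⟨6 * k * M / y 0, by positivity, fun a ha => ?_⟩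
  have hba := hbI a ha
  have hm1 : (-1 : ℝ) ∈ Icc (-1 : ℝ) 1 := by norm_num
  have hp1 : (1 : ℝ) ∈ Icc (-1 : ℝ) 1 := by norm_num
  have hpoly : ContinuousOn (fun x : ℝ => y 0 / 2 * (1 - x ^ 2)) (Icc (-1) 1) := by fun_prop
  have hint : ∀ p q : ℝ, (∫ x in p..q, y 0 / 2 * (1 - x ^ 2)) =
      y 0 / 2 * ((q - q ^ 3 / 3) - (p - p ^ 3 / 3)) := by
    intro p q
    rw [intervalIntegral.integral_const_mul, intervalIntegral.integral_sub (by simp) (by simp)]
    simp only [intervalIntegral.integral_const, smul_eq_mul, mul_one, integral_pow]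
    push_cast
    ring
  constructor
  · -- right end
    have e1 : (∫ x in b a..1, y x) = k * ∫ x in a..1, Y x := by
      have a1 := intervalIntegral.integral_add_adjacent_intervals (ii hy hm1 hba) (ii hy hba hp1)
      have a2 := intervalIntegral.integral_add_adjacent_intervals (ii hY hm1 ha) (ii hY ha hp1)
      have a3 := hbint a ha
      rw [← a2, ← a1] at hkk
      linarith
    have e2 : (∫ x in b a..1, y 0 / 2 * (1 - x ^ 2)) ≤ ∫ x in b a..1, y x := by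
      apply intervalIntegral.integral_mono_on hba.2 (ii hpoly hba hp1) (ii hy hba hp1)
      intro x hx
      exact hpar x ⟨hba.1.trans hx.1, hx.2⟩
    have e3 : (∫ x in a..1, Y x) ≤ M * (1 - a) := by
      have : (∫ x in a..1, Y x) ≤ ∫ x in a..1, M := by
        apply intervalIntegral.integral_mono_on ha.2 (ii hY ha hp1) (by simp)
        intro x hx
        exact (le_abs_self _).trans (hM x ⟨ha.1.trans hx.1, hx.2⟩)
      simpa [mul_comm] using this
    rw [hint] at e2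
    have e4 : y 0 / 6 * (1 - b a) ^ 2 ≤ k * (M * (1 - a)) := by
      have : y 0 / 6 * (1 - b a) ^ 2 ≤ y 0 / 2 * ((1 - 1 ^ 3 / 3) - (b a - b a ^ 3 / 3)) := by
        have h : (1 - 1 ^ 3 / 3) - (b a - b a ^ 3 / 3) = (1 - b a) ^ 2 * (2 + b a) / 3 := by ring
        rw [h]
        have h5 : (1 - b a) ^ 2 * 1 ≤ (1 - b a) ^ 2 * (2 + b a) :=
          mul_le_mul_of_nonneg_left (by linarith [hba.1]) (sq_nonneg _)
        nlinarith
      have h6 := mul_le_mul_of_nonneg_left e3 hk.le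
      linarith
    have h7 : (1 - b a) ^ 2 ≤ (k * (M * (1 - a))) / (y 0 / 6) := by
      rw [le_div_iff₀ (by positivity)]
      linarith
    calc _ ≤ _ := h7
      _ = _ := by field_simp
  · have e2 : (∫ x in (-1 : ℝ)..b a, y 0 / 2 * (1 - x ^ 2)) ≤ ∫ x in (-1 : ℝ)..b a, y x := by
      apply intervalIntegral.integral_mono_on hba.1 (ii hpoly hm1 hba) (ii hy hm1 hba)
      intro x hx
      exact hpar x ⟨hx.1, hx.2.trans hba.2⟩
    have e3 : (∫ x in (-1 : ℝ)..a, Y x) ≤ M * (1 + a) := by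
      have : (∫ x in (-1 : ℝ)..a, Y x) ≤ ∫ x in (-1 : ℝ)..a, M := by
        apply intervalIntegral.integral_mono_on ha.1 (ii hY hm1 ha) (by simp)
        intro x hx
        exact (le_abs_self _).trans (hM x ⟨hx.1, hx.2.trans ha.2⟩)
      have h8 : (∫ x in (-1 : ℝ)..a, M) = M * (1 + a) := by
        simp only [intervalIntegral.integral_const, smul_eq_mul]; ring
      rwa [h8] at this
    rw [hint, hbint a ha] at e2
    have e4 : y 0 / 6 * (1 + b a) ^ 2 ≤ k * (M * (1 + a)) := by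
      have : y 0 / 6 * (1 + b a) ^ 2 ≤ y 0 / 2 * ((b a - b a ^ 3 / 3) - (-1 - (-1) ^ 3 / 3)) := by
        have h : (b a - b a ^ 3 / 3) - (-1 - (-1) ^ 3 / 3) = (1 + b a) ^ 2 * (2 - b a) / 3 := by
          ring
        rw [h]
        have h5 : (1 + b a) ^ 2 * 1 ≤ (1 + b a) ^ 2 * (2 - b a) :=
          mul_le_mul_of_nonneg_left (by linarith [hba.2]) (sq_nonneg _)
        nlinarith
      have h6 := mul_le_mul_of_nonneg_left e3 hk.le
      linarith
    have h7 : (1 + b a) ^ 2 ≤ (k * (M * (1 + a))) / (y 0 / 6) := by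
      rw [le_div_iff₀ (by positivity)]
      linarith
    calc _ ≤ _ := h7
      _ = _ := by field_simp

lemma calB_cont {Y b : ℝ → ℝ} (hY : ContinuousOn Y (Icc (-1) 1)) (hY0 : Y (-1) = 0)
    (hY1 : Y 1 = 0) (hbc : ContinuousOn b (Icc (-1) 1)) (hb0 : b (-1) = -1) (hb1 : b 1 = 1)
    (hbI : ∀ a ∈ Ioo (-1 : ℝ) 1, b a ∈ Ioo (-1 : ℝ) 1) :
    ContinuousOn (fun a => 2 / 3 * Y a ^ 3 * (-a + (1 - a ^ 2) * b a / (1 - a * b a)))
      (Icc (-1) 1) := by
  have hbI' : ∀ a ∈ Icc (-1 : ℝ) 1, b a ∈ Icc (-1 : ℝ) 1 := by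
    intro a ha
    rcases eq_or_lt_of_le ha.1 with h | h
    · rw [← h, hb0]; norm_num
    rcases eq_or_lt_of_le ha.2 with h' | h'
    · rw [h', hb1]; norm_num
    · exact Ioo_subset_Icc_self (hbI a ⟨h, h'⟩)
  have hupos : ∀ a ∈ Ioo (-1 : ℝ) 1, 0 < 1 - a * b a := by
    intro a ha
    have h1 := hbI a ha
    have : a * b a < 1 := by
      have h3 : |a * b a| < 1 := by
        rw [abs_mul]
        have h4 : |a| < 1 := abs_lt.2 ha
        have h5 : |b a| < 1 := abs_lt.2 h1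
        nlinarith [abs_nonneg a, abs_nonneg (b a)]
      exact (abs_lt.1 h3).2
    linarith
  have hbound : ∀ a ∈ Icc (-1 : ℝ) 1, |(-a + (1 - a ^ 2) * b a / (1 - a * b a))| ≤ 3 := by
    intro a ha
    have hba := hbI' a ha
    have h1 : |(1 - a ^ 2) * b a / (1 - a * b a)| ≤ 2 := by
      rcases eq_or_lt_of_le ha.1 with h | h
      · rw [← h]; norm_num
      rcases eq_or_lt_of_le ha.2 with h' | h'
      · rw [h']; norm_num
      · have hu := hupos a ⟨h, h'⟩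
        rw [abs_div, abs_of_pos hu, div_le_iff₀ hu, abs_mul]
        have h5 : |b a| ≤ 1 := abs_le.2 hba
        have h6 : 0 ≤ 1 - a ^ 2 := by nlinarith
        rw [abs_of_nonneg h6]
        have h7 : 1 - |a| ≤ 1 - a * b a := by
          have : a * b a ≤ |a| := by
            calc a * b a ≤ |a * b a| := le_abs_self _
              _ = |a| * |b a| := abs_mul _ _
              _ ≤ |a| * 1 := mul_le_mul_of_nonneg_left h5 (abs_nonneg _)
              _ = |a| := mul_one _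
          linarith
        have h8 : 1 - a ^ 2 ≤ 2 * (1 - |a|) := by
          have : |a| ≤ 1 := abs_le.2 ha
          rw [← sq_abs]
          nlinarith [abs_nonneg a]
        have h9 : (1 - a ^ 2) * |b a| ≤ (1 - a ^ 2) * 1 := mul_le_mul_of_nonneg_left h5 h6
        linarith
    have h2 : |-a| ≤ 1 := by rw [abs_neg]; exact abs_le.2 ha
    calc _ ≤ |-a| + |(1 - a ^ 2) * b a / (1 - a * b a)| := abs_add_le _ _
      _ ≤ 1 + 2 := add_le_add h2 h1
      _ = 3 := by norm_num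
  intro a ha
  by_cases hin : a ∈ Ioo (-1 : ℝ) 1
  · have hu := (hupos a hin).ne'
    have hbca := hbc a ha
    have hYa := hY a ha
    exact ((continuousWithinAt_const.mul (hYa.pow 3)).mul (continuousWithinAt_id.neg.add
      (((continuousWithinAt_const.sub (continuousWithinAt_id.pow 2)).mul hbca).div
        (continuousWithinAt_const.sub (continuousWithinAt_id.mul hbca)) hu)))
  · -- end points
    have hYa0 : Y a = 0 := by
      rcases eq_or_lt_of_le ha.1 with h | h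
      · rw [← h, hY0]
      rcases eq_or_lt_of_le ha.2 with h' | h'
      · rw [h', hY1]
      · exact absurd ⟨h, h'⟩ hin
    have hval : (2 : ℝ) / 3 * Y a ^ 3 * (-a + (1 - a ^ 2) * b a / (1 - a * b a)) = 0 := by
      rw [hYa0]; ring
    rw [ContinuousWithinAt, hval]
    have hlim : Tendsto (fun x => 2 * |Y x| ^ 3) (𝓝[Icc (-1) 1] a) (𝓝 0) := by
      have h0 : (2 : ℝ) * |Y a| ^ 3 = 0 := by rw [hYa0]; simp
      have := ((hY a ha).abs.pow 3).const_mul 2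
      rw [ContinuousWithinAt] at this
      rw [← h0]
      exact this
    refine squeeze_zero_norm' ?_ hlim
    filter_upwards [self_mem_nhdsWithin] with x hx
    rw [Real.norm_eq_abs, abs_mul, abs_mul, abs_pow]
    have := mul_le_mul_of_nonneg_left (hbound x hx) (by positivity : 0 ≤ |(2 : ℝ) / 3| * |Y x| ^ 3)
    calc _ ≤ _ := this
      _ = 2 * |Y x| ^ 3 := by
        rw [abs_of_pos (by norm_num : (0 : ℝ) < 2 / 3)]; ring

lemma calR_cont {b : ℝ → ℝ} {C : ℝ} (hbc : ContinuousOn b (Icc (-1) 1))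
    (hbI : ∀ a ∈ Icc (-1 : ℝ) 1, b a ∈ Icc (-1 : ℝ) 1)
    (hC : ∀ a ∈ Icc (-1 : ℝ) 1, (1 - b a) ^ 2 ≤ C * (1 - a) ∧ (1 + b a) ^ 2 ≤ C * (1 + a)) :
    ContinuousOn (fun a => (a - b a) * (1 - b a ^ 2) / √(1 - a ^ 2)) (Icc (-1) 1) := by
  intro a ha
  by_cases hin : a ∈ Ioo (-1 : ℝ) 1
  · have hq : √(1 - a ^ 2) ≠ 0 := (Real.sqrt_pos.2 (by nlinarith [hin.1, hin.2])).ne'
    have hbca := hbc a ha
    exact ((continuousWithinAt_id.sub hbca).mul (continuousWithinAt_const.sub (hbca.pow 2))).div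
      (by fun_prop) hq
  · have hC0 : 0 ≤ C := by
      have := (hC 0 (by norm_num)).1
      nlinarith [sq_nonneg (1 - b 0)]
    have hbnd : ∀ x ∈ Icc (-1 : ℝ) 1, |(x - b x) * (1 - b x ^ 2) / √(1 - x ^ 2)| ≤
        2 * (C + 2) * √(1 - x) / √(1 + x) ∧ |(x - b x) * (1 - b x ^ 2) / √(1 - x ^ 2)| ≤
        2 * (C + 2) * √(1 + x) / √(1 - x) := by
      intro x hx
      have hbx := hbI x hx
      have h1 : 0 ≤ 1 - x := by linarith [hx.2]
      have h2 : 0 ≤ 1 + x := by linarith [hx.1]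
      have hs : √(1 - x ^ 2) = √(1 - x) * √(1 + x) := by
        rw [← Real.sqrt_mul h1]; congr 1; ring
      rcases eq_or_lt_of_le h1 with e | h1'
      · have : √(1 - x) = 0 := by rw [← e]; simp
        rw [hs, this]; simp
      rcases eq_or_lt_of_le h2 with e | h2'
      · have : √(1 + x) = 0 := by rw [← e]; simp
        rw [hs, this]; simp
      have s1 := Real.sqrt_pos.2 h1'
      have s2 := Real.sqrt_pos.2 h2'
      have q1 := Real.sq_sqrt h1
      have q2 := Real.sq_sqrt h2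
      obtain ⟨c1, c2⟩ := hC x hx
      have hB : 0 ≤ 1 - b x ^ 2 := by nlinarith [hbx.1, hbx.2]
      rw [hs, abs_div, abs_mul, abs_of_nonneg hB, abs_of_pos (mul_pos s1 s2)]
      constructor
      · rw [div_le_div_iff₀ (mul_pos s1 s2) s2]
        have h3 : |x - b x| ≤ (1 - b x) + (1 - x) := by
          rw [abs_le]; constructor <;> linarith [hbx.2, hx.2]
        have h4 : |x - b x| * (1 - b x ^ 2) ≤ 2 * (C + 2) * (1 - x) := by
          calc |x - b x| * (1 - b x ^ 2) ≤ ((1 - b x) + (1 - x)) * (1 - b x ^ 2) :=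
                mul_le_mul_of_nonneg_right h3 hB
            _ ≤ ((1 - b x) + (1 - x)) * (2 * (1 - b x)) := by
                apply mul_le_mul_of_nonneg_left
                · nlinarith [hbx.1, hbx.2]
                · linarith [hbx.2]
            _ = 2 * (1 - b x) ^ 2 + 2 * (1 - x) * (1 - b x) := by ring
            _ ≤ 2 * (C * (1 - x)) + 2 * (1 - x) * 2 := by
                have : (1 - x) * (1 - b x) ≤ (1 - x) * 2 :=
                  mul_le_mul_of_nonneg_left (by linarith [hbx.1]) h1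
                linarith
            _ = _ := by ring
        calc |x - b x| * (1 - b x ^ 2) * √(1 + x) ≤ 2 * (C + 2) * (1 - x) * √(1 + x) :=
              mul_le_mul_of_nonneg_right h4 s2.le
          _ = 2 * (C + 2) * √(1 - x) * (√(1 - x) * √(1 + x)) := by
              rw [← q1]; rw [Real.sqrt_sq s1.le]; ring
      · rw [div_le_div_iff₀ (mul_pos s1 s2) s1]
        have h3 : |x - b x| ≤ (1 + b x) + (1 + x) := by
          rw [abs_le]; constructor <;> linarith [hbx.1, hx.1]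
        have h4 : |x - b x| * (1 - b x ^ 2) ≤ 2 * (C + 2) * (1 + x) := by
          calc |x - b x| * (1 - b x ^ 2) ≤ ((1 + b x) + (1 + x)) * (1 - b x ^ 2) :=
                mul_le_mul_of_nonneg_right h3 hB
            _ ≤ ((1 + b x) + (1 + x)) * (2 * (1 + b x)) := by
                apply mul_le_mul_of_nonneg_left
                · nlinarith [hbx.1, hbx.2]
                · linarith [hbx.1]
            _ = 2 * (1 + b x) ^ 2 + 2 * (1 + x) * (1 + b x) := by ring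
            _ ≤ 2 * (C * (1 + x)) + 2 * (1 + x) * 2 := by
                have : (1 + x) * (1 + b x) ≤ (1 + x) * 2 :=
                  mul_le_mul_of_nonneg_left (by linarith [hbx.2]) h2
                linarith
            _ = _ := by ring
        calc |x - b x| * (1 - b x ^ 2) * √(1 - x) ≤ 2 * (C + 2) * (1 + x) * √(1 - x) :=
              mul_le_mul_of_nonneg_right h4 s1.le
          _ = 2 * (C + 2) * √(1 + x) * (√(1 - x) * √(1 + x)) := by
              rw [← q2]; rw [Real.sqrt_sq s2.le]; ring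
    have hend : a = -1 ∨ a = 1 := by
      rcases eq_or_lt_of_le ha.1 with h | h
      · exact Or.inl h.symm
      rcases eq_or_lt_of_le ha.2 with h' | h'
      · exact Or.inr h'
      · exact absurd ⟨h, h'⟩ hin
    have hval : (a - b a) * (1 - b a ^ 2) / √(1 - a ^ 2) = 0 := by
      rcases hend with h | h <;> rw [h] <;> norm_num
    rw [ContinuousWithinAt, hval]
    rcases hend with h | h
    · have hlim : Tendsto (fun x => 2 * (C + 2) * √(1 + x) / √(1 - x)) (𝓝[Icc (-1) 1] a) (𝓝 0) := by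
        have hc : ContinuousAt (fun x => 2 * (C + 2) * √(1 + x) / √(1 - x)) a := by
          apply ContinuousAt.div
          · fun_prop
          · fun_prop
          · rw [h]; exact (Real.sqrt_pos.2 (by norm_num)).ne'
        have h0 : 2 * (C + 2) * √(1 + a) / √(1 - a) = 0 := by rw [h]; simp
        have := hc.tendsto
        rw [h0] at this
        exact this.mono_left nhdsWithin_le_nhds
      refine squeeze_zero_norm' ?_ hlim
      filter_upwards [self_mem_nhdsWithin] with x hx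
      rw [Real.norm_eq_abs]
      exact (hbnd x hx).2
    · have hlim : Tendsto (fun x => 2 * (C + 2) * √(1 - x) / √(1 + x)) (𝓝[Icc (-1) 1] a) (𝓝 0) := by
        have hc : ContinuousAt (fun x => 2 * (C + 2) * √(1 - x) / √(1 + x)) a := by
          apply ContinuousAt.div
          · fun_prop
          · fun_prop
          · rw [h]; exact (Real.sqrt_pos.2 (by norm_num)).ne'
        have h0 : 2 * (C + 2) * √(1 - a) / √(1 + a) = 0 := by rw [h]; simp
        have := hc.tendsto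
        rw [h0] at this
        exact this.mono_left nhdsWithin_le_nhds
      refine squeeze_zero_norm' ?_ hlim
      filter_upwards [self_mem_nhdsWithin] with x hx
      rw [Real.norm_eq_abs]
      exact (hbnd x hx).1

/-- the calibrated function behind the inequality `D₁ ≤ 0` -/
theorem D1_core {y Y : ℝ → ℝ} (hyc : ConcaveOn ℝ (Icc (-1) 1) y)
    (hYc : ConcaveOn ℝ (Icc (-1) 1) Y) (hy : ContinuousOn y (Icc (-1) 1))
    (hY : ContinuousOn Y (Icc (-1) 1)) (hyp : ∀ x ∈ Ioo (-1 : ℝ) 1, 0 < y x)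
    (hYp : ∀ x ∈ Ioo (-1 : ℝ) 1, 0 < Y x) (hY0 : Y (-1) = 0) (hY1 : Y 1 = 0)
    (hle : ∀ x ∈ Ioo (-1 : ℝ) 1, ∀ X ∈ Ioo (-1 : ℝ) 1, y x * Y X ≤ 1 - x * X) :
    ∃ (k : ℝ) (Q Q' : ℝ → ℝ), 0 < k ∧ (∫ x in (-1 : ℝ)..1, y x) = k * ∫ x in (-1 : ℝ)..1, Y x ∧
      ContinuousOn Q (Icc (-1) 1) ∧ Q (-1) = 0 ∧ Q 1 = ∫ x in (-1 : ℝ)..1, (1 - x ^ 2) / y x ∧
      ∀ a ∈ Ioo (-1 : ℝ) 1, HasDerivWithinAt Q (Q' a) (Ioi a) a ∧
        k * (Y a ^ 3 - 2 * a * Y a ^ 2 * derivWithin Y (Ioi a) a -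
          (1 - a ^ 2) * derivWithin Y (Ioi a) a ^ 2 * Y a) ≤ Q' a := by
  have hm1 : (-1 : ℝ) ∈ Icc (-1 : ℝ) 1 := by norm_num
  have hp1 : (1 : ℝ) ∈ Icc (-1 : ℝ) 1 := by norm_num
  have hIoo_cl : closure (Ioo (-1 : ℝ) 1) = Icc (-1) 1 := closure_Ioo (by norm_num)
  have hnn : ∀ x ∈ Icc (-1 : ℝ) 1, 0 ≤ y x := by
    intro x hx
    have hxc : x ∈ closure (Ioo (-1 : ℝ) 1) := by rw [hIoo_cl]; exact hx
    have hne : (𝓝[Ioo (-1) 1] x).NeBot := mem_closure_iff_nhdsWithin_neBot.1 hxc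
    have h1 : Tendsto y (𝓝[Ioo (-1) 1] x) (𝓝 (y x)) := (hy x hx).mono Ioo_subset_Icc_self
    exact ge_of_tendsto h1 (by
      filter_upwards [self_mem_nhdsWithin] with z hz using (hyp z hz).le)
  obtain ⟨k, b, hk, hkk, hbc, hb0, hb1, hbI, hbint, hbd⟩ := exists_coupling hy hY hyp hYp
  have hbI' : ∀ a ∈ Icc (-1 : ℝ) 1, b a ∈ Icc (-1 : ℝ) 1 := by
    intro a ha
    rcases eq_or_lt_of_le ha.1 with h | h
    · rw [← h, hb0]; norm_num
    rcases eq_or_lt_of_le ha.2 with h' | h'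
    · rw [h', hb1]; norm_num
    · exact Ioo_subset_Icc_self (hbI a ⟨h, h'⟩)
  obtain ⟨C, hC0, hC⟩ := coupling_ends hyc hy hY hyp (hnn _ hm1) (hnn _ hp1) hk hkk hbI' hbint
  set Y' : ℝ → ℝ := fun a => derivWithin Y (Ioi a) a with hY'
  have hYd : ∀ a ∈ Ioo (-1 : ℝ) 1, HasDerivWithinAt Y (Y' a) (Ioi a) a := by
    intro a ha
    have := (hYc.neg).hasDerivWithinAt_rightDeriv_of_mem_interior (x := a)
      (by rw [interior_Icc]; exact ha)
    have h2 := this.neg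
    rw [neg_neg] at h2
    exact h2.differentiableWithinAt.hasDerivWithinAt
  -- integrability of the first density
  have hN1int : IntegrableOn (fun x => (1 - x ^ 2) / y x) (Icc (-1) 1) := by
    have hy0 : 0 < y 0 := hyp 0 (by norm_num)
    rw [integrableOn_Icc_iff_integrableOn_Ioo]
    refine Integrable.mono' (g := fun _ => 2 / y 0) (integrable_const _) ?_ ?_
    · apply ContinuousOn.aestronglyMeasurable _ measurableSet_Ioo
      apply ContinuousOn.div (by fun_prop) (hy.mono Ioo_subset_Icc_self)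
      intro x hx
      exact (hyp x hx).ne'
    · filter_upwards [ae_restrict_mem measurableSet_Ioo] with x hx
      have hyx := hyp x hx
      have h1 : 0 ≤ 1 - x ^ 2 := by nlinarith [hx.1, hx.2]
      rw [Real.norm_eq_abs, abs_div, abs_of_nonneg h1, abs_of_pos hyx, div_le_div_iff₀ hyx hy0]
      have h2 := concave_lower hyc (hnn _ hm1) (hnn _ hp1) (Ioo_subset_Icc_self hx)
      have h3 : 1 - x ^ 2 ≤ 2 * (1 - |x|) := by
        have : |x| ≤ 1 := (abs_lt.2 hx).le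
        rw [← sq_abs]
        nlinarith [abs_nonneg x]
      nlinarith
  set P : ℝ → ℝ := fun x => ∫ t in (-1 : ℝ)..x, (1 - t ^ 2) / y t with hP
  have hPc : ContinuousOn P (Icc (-1) 1) := continuousOn_prim hN1int
  have hPd : ∀ x ∈ Ioo (-1 : ℝ) 1, HasDerivAt P ((1 - x ^ 2) / y x) x := by
    intro x hx
    have hcon : ContinuousOn (fun x => (1 - x ^ 2) / y x) (Ioo (-1) 1) :=
      ContinuousOn.div (by fun_prop) (hy.mono Ioo_subset_Icc_self) fun x hx => (hyp x hx).ne'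
    apply intervalIntegral.integral_hasDerivAt_right
    · rw [intervalIntegrable_iff_integrableOn_Ioc_of_le hx.1.le]
      exact hN1int.mono_set (fun t ht => ⟨ht.1.le, ht.2.trans hx.2.le⟩)
    · refine ContinuousOn.stronglyMeasurableAtFilter isOpen_Ioo hcon x hx
    · exact hcon.continuousAt (isOpen_Ioo.mem_nhds hx)
  set Q : ℝ → ℝ := fun a => P (b a) + k * (2 / 3 * Y a ^ 3 * (-a + (1 - a ^ 2) * b a /
    (1 - a * b a))) + 2 / 3 * (√k)⁻¹ * ((a - b a) * (1 - b a ^ 2) / √(1 - a ^ 2)) with hQ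
  have hQc : ContinuousOn Q (Icc (-1) 1) := by
    apply ContinuousOn.add
    · apply ContinuousOn.add
      · exact hPc.comp hbc hbI'
      · exact (calB_cont hY hY0 hY1 hbc hb0 hb1 hbI).const_smul k
    · exact (calR_cont hbc hbI' hC).const_smul (2 / 3 * (√k)⁻¹)
  have hu : ∀ a ∈ Ioo (-1 : ℝ) 1, 0 < 1 - a * b a := by
    intro a ha
    have h1 := hle _ (hbI a ha) a ha
    have h2 := mul_pos (hyp _ (hbI a ha)) (hYp a ha)
    linarith [mul_comm a (b a)]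
  have hQd : ∀ a ∈ Ioo (-1 : ℝ) 1, HasDerivWithinAt Q ((1 - b a ^ 2) / y (b a) *
      (k * Y a / y (b a)) + k * (2 * Y a ^ 2 * Y' a * (-a + (1 - a ^ 2) * b a / (1 - a * b a)) +
        2 / 3 * Y a ^ 3 * (-1 + (-(2 * a * b a) * (1 - a * b a) + (1 - a ^ 2) * b a ^ 2 +
        (1 - a ^ 2) * (k * Y a / y (b a))) / (1 - a * b a) ^ 2)) +
      2 / 3 * (√k)⁻¹ * ((1 - (k * Y a / y (b a))) * (1 - b a ^ 2) / √(1 - a ^ 2) -
        2 * b a * (k * Y a / y (b a)) * (a - b a) / √(1 - a ^ 2) +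
        a * (a - b a) * (1 - b a ^ 2) / √(1 - a ^ 2) ^ 3)) (Ioi a) a := by
    intro a ha
    have hb := hbd a ha
    have e1 : HasDerivAt (fun a => P (b a)) ((1 - b a ^ 2) / y (b a) * (k * Y a / y (b a))) a :=
      (hPd (b a) (hbI a ha)).comp a hb
    have e2 := hasDerivWithinAt_calB (hu a ha) hb (hYd a ha)
    have e3 := hasDerivAt_calR ha hb
    exact (e1.hasDerivWithinAt.add (e2.const_mul k)).add
      ((e3.hasDerivWithinAt).const_mul (2 / 3 * (√k)⁻¹))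
  have hQ0 : Q (-1) = 0 := by
    simp only [hQ, hP, hb0, hY0]
    norm_num
  have hQ1 : Q 1 = ∫ x in (-1 : ℝ)..1, (1 - x ^ 2) / y x := by
    simp only [hQ, hP, hb1, hY1]
    norm_num
  refine ⟨k, Q, _, hk, hkk, hQc, hQ0, hQ1, fun a ha => ⟨hQd a ha, ?_⟩⟩
  have hba := hbI a ha
  have h1 : 0 < 1 - a ^ 2 := by nlinarith [ha.1, ha.2]
  exact calib_total hk (by nlinarith [hba.1, hba.2]) (hyp _ hba) (hYp a ha)
    (Real.sqrt_pos.2 h1) (Real.sq_sqrt h1.le) (by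
      have := hle _ hba a ha
      linarith [mul_comm a (b a)])

/-- **The inequality `D₁ ≤ 0`.** -/
theorem D1_le {y Y : ℝ → ℝ} (hyc : ConcaveOn ℝ (Icc (-1) 1) y)
    (hYc : ConcaveOn ℝ (Icc (-1) 1) Y) (hy : ContinuousOn y (Icc (-1) 1))
    (hY : ContinuousOn Y (Icc (-1) 1)) (hyp : ∀ x ∈ Ioo (-1 : ℝ) 1, 0 < y x)
    (hYp : ∀ x ∈ Ioo (-1 : ℝ) 1, 0 < Y x) (hY0 : Y (-1) = 0) (hY1 : Y 1 = 0)
    (hle : ∀ x ∈ Ioo (-1 : ℝ) 1, ∀ X ∈ Ioo (-1 : ℝ) 1, y x * Y X ≤ 1 - x * X) :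
    (∫ x in (-1 : ℝ)..1, y x) * (∫ a in (-1 : ℝ)..1, (Y a ^ 3 - 2 * a * Y a ^ 2 *
      derivWithin Y (Ioi a) a - (1 - a ^ 2) * derivWithin Y (Ioi a) a ^ 2 * Y a)) ≤
    (∫ a in (-1 : ℝ)..1, Y a) * ∫ x in (-1 : ℝ)..1, (1 - x ^ 2) / y x := by
  obtain ⟨k, Q, Q', hk, hkk, hQc, hQ0, hQ1, hQd⟩ := D1_core hyc hYc hy hY hyp hYp hY0 hY1 hle
  have hnn : ∀ x ∈ Icc (-1 : ℝ) 1, 0 ≤ y x := by
    intro x hx
    have hxc : x ∈ closure (Ioo (-1 : ℝ) 1) := by rw [closure_Ioo (by norm_num)]; exact hx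
    have hne : (𝓝[Ioo (-1) 1] x).NeBot := mem_closure_iff_nhdsWithin_neBot.1 hxc
    have h1 : Tendsto y (𝓝[Ioo (-1) 1] x) (𝓝 (y x)) := (hy x hx).mono Ioo_subset_Icc_self
    exact ge_of_tendsto h1 (by
      filter_upwards [self_mem_nhdsWithin] with z hz using (hyp z hz).le)
  have hN1nn : 0 ≤ ∫ x in (-1 : ℝ)..1, (1 - x ^ 2) / y x := by
    apply intervalIntegral.integral_nonneg (by norm_num)
    intro x hx
    apply div_nonneg _ (hnn x hx)
    nlinarith [hx.1, hx.2]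
  set J := ∫ x in (-1 : ℝ)..1, Y x with hJ
  have hJpos : 0 < J := by
    apply intervalIntegral.intervalIntegral_pos_of_pos_on _ _ (by norm_num)
    · exact (hY.mono (by rw [uIcc_of_le (by norm_num)])).intervalIntegrable
    · exact hYp
  set Y' : ℝ → ℝ := fun a => derivWithin Y (Ioi a) a with hY'
  set φ : ℝ → ℝ := fun a => k * (Y a ^ 3 - 2 * a * Y a ^ 2 * Y' a - (1 - a ^ 2) * Y' a ^ 2 * Y a)
    with hφ
  have hφint' : (∫ a in (-1 : ℝ)..1, φ a) = k * ∫ a in (-1 : ℝ)..1, (Y a ^ 3 - 2 * a * Y a ^ 2 *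
      Y' a - (1 - a ^ 2) * Y' a ^ 2 * Y a) := intervalIntegral.integral_const_mul _ _
  -- enough
  suffices hmain : (∫ a in (-1 : ℝ)..1, φ a) ≤ ∫ x in (-1 : ℝ)..1, (1 - x ^ 2) / y x by
    rw [hkk]
    rw [hφint'] at hmain
    calc k * J * _ = J * (k * ∫ a in (-1 : ℝ)..1, (Y a ^ 3 - 2 * a * Y a ^ 2 *
      Y' a - (1 - a ^ 2) * Y' a ^ 2 * Y a)) := by ring
      _ ≤ _ := mul_le_mul_of_nonneg_left hmain hJpos.le
  by_cases hφi : IntegrableOn φ (Icc (-1) 1)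
  swap
  · have : (∫ a in (-1 : ℝ)..1, φ a) = 0 := by
      apply intervalIntegral.integral_undef
      intro h
      apply hφi
      rw [integrableOn_Icc_iff_integrableOn_Ioc]
      exact (intervalIntegrable_iff_integrableOn_Ioc_of_le (by norm_num)).1 h
    rw [this]
    exact hN1nn
  have hineq := intervalIntegral.integral_le_sub_of_hasDeriv_right_of_le (by norm_num) hQc
    (fun a ha => (hQd a ha).1) hφi (fun a ha => (hQd a ha).2)
  rw [hQ0, hQ1, sub_zero] at hineq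
  exact hineq

end Pool.Agent.Helper76.BL
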