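import Pool.Agent.Helper76.BL.FTC

/-!
# A Fubini lemma for monotone functions and their generalised inverses
-/

set_option autoImplicit false

open Set MeasureTheory Filter Topology

namespace Pool.Agent.Helper76.BL

/-- the kernel: `∫ K (t) (a) da = t` -/
noncomputable def Kr (t a : ℝ) : ℝ := (Ioo 0 t).indicator 1 a - (Icc t 0).indicator 1 a

lemma integrable_Kr (t : ℝ) : Integrable (Kr t) := by
  unfold Kr
  apply Integrable.sub
  · exact (integrable_indicator_iff measurableSet_Ioo).2 (integrableOn_const (by simp))
  · exact (integrable_indicator_iff measurableSet_Icc).2 (integrableOn_const (by simp))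

lemma integral_Kr (t : ℝ) : ∫ a, Kr t a = t := by
  unfold Kr
  rw [integral_sub]
  · rw [integral_indicator_one measurableSet_Ioo, integral_indicator_one measurableSet_Icc]
    rw [Measure.real, Measure.real, Real.volume_Ioo, Real.volume_Icc]
    rcases le_total 0 t with h | h
    · rw [sub_zero, ENNReal.toReal_ofReal h, ENNReal.ofReal_of_nonpos (by linarith)]
      simp
    · rw [sub_zero, ENNReal.ofReal_of_nonpos h, ENNReal.toReal_ofReal (by linarith)]
      simp
  · exact (integrable_indicator_iff measurableSet_Ioo).2 (integrableOn_const (by simp))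
  · exact (integrable_indicator_iff measurableSet_Icc).2 (integrableOn_const (by simp))

lemma integral_norm_Kr (t : ℝ) : ∫ a, ‖Kr t a‖ ≤ |t| := by
  rcases le_or_gt 0 t with h | h
  · have h1 : (∫ a, ‖Kr t a‖) = ∫ a, Kr t a := by
      apply integral_congr_ae
      have : ∀ᵐ a : ℝ, a ≠ 0 := by
        rw [ae_iff]; simp
      filter_upwards [this] with a ha
      unfold Kr
      have h2 : a ∉ Icc t 0 := by
        intro h3
        exact ha (le_antisymm h3.2 (h.trans h3.1))
      rw [indicator_of_notMem h2, sub_zero, Real.norm_eq_abs, abs_of_nonneg]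
      exact indicator_nonneg (fun _ _ => by simp) _
    rw [h1, integral_Kr, abs_of_nonneg h]
  · have h1 : (∫ a, ‖Kr t a‖) = ∫ a, -Kr t a := by
      apply integral_congr_ae
      filter_upwards with a
      unfold Kr
      have h2 : a ∉ Ioo 0 t := by
        intro h3
        linarith [h3.1, h3.2]
      rw [indicator_of_notMem h2, zero_sub, neg_neg, norm_neg, Real.norm_eq_abs, abs_of_nonneg]
      exact indicator_nonneg (fun _ _ => by simp) _
    rw [h1, integral_neg, integral_Kr, abs_of_neg h]

/-- **Fubini for the generalised inverse** -/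
theorem fub {α φ : ℝ → ℝ} (hα : Measurable α) (hφ : Integrable φ)
    (hαφ : Integrable (fun p => α p * φ p)) :
    Integrable (fun a => ∫ p, Kr (α p) a * φ p) ∧
    ∫ a, (∫ p, Kr (α p) a * φ p) = ∫ p, α p * φ p := by
  have hKm : Measurable (fun z : ℝ × ℝ => Kr (α z.2) z.1) := by
    unfold Kr
    apply Measurable.sub
    · have : (fun z : ℝ × ℝ => (Ioo 0 (α z.2)).indicator (1 : ℝ → ℝ) z.1) =
          {z : ℝ × ℝ | 0 < z.1 ∧ z.1 < α z.2}.indicator (fun _ => (1 : ℝ)) := by
        ext z
        simp only [indicator, mem_Ioo, mem_ofPred_eq, Pi.one_apply]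
      rw [this]
      apply Measurable.indicator measurable_const
      exact (measurableSet_lt measurable_const measurable_fst).inter
        (measurableSet_lt measurable_fst (hα.comp measurable_snd))
    · have : (fun z : ℝ × ℝ => (Icc (α z.2) 0).indicator (1 : ℝ → ℝ) z.1) =
          {z : ℝ × ℝ | α z.2 ≤ z.1 ∧ z.1 ≤ 0}.indicator (fun _ => (1 : ℝ)) := by
        ext z
        simp only [indicator, mem_Icc, mem_ofPred_eq, Pi.one_apply]
      rw [this]
      apply Measurable.indicator measurable_const
      exact (measurableSet_le (hα.comp measurable_snd) measurable_fst).inter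
        (measurableSet_le measurable_fst measurable_const)
  have hm : AEStronglyMeasurable (fun z : ℝ × ℝ => Kr (α z.2) z.1 * φ z.2)
      ((volume : Measure ℝ).prod volume) :=
    hKm.aestronglyMeasurable.mul hφ.aestronglyMeasurable.comp_snd
  have hint : Integrable (fun z : ℝ × ℝ => Kr (α z.2) z.1 * φ z.2)
      ((volume : Measure ℝ).prod volume) := by
    rw [integrable_prod_iff' hm]
    constructor
    · filter_upwards with p
      exact (integrable_Kr (α p)).mul_const (φ p)
    · refine Integrable.mono' (g := fun p => |α p * φ p|) hαφ.abs ?_ ?_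
      · exact (hm.norm).prod_swap.integral_prod_right'
      · filter_upwards with p
        have h1 : (∫ a, ‖Kr (α p) a * φ p‖) = (∫ a, ‖Kr (α p) a‖) * |φ p| := by
          rw [← integral_mul_const]
          apply integral_congr_ae
          filter_upwards with a
          rw [norm_mul, Real.norm_eq_abs (φ p)]
        rw [h1, Real.norm_eq_abs, abs_of_nonneg (mul_nonneg
          (integral_nonneg fun _ => norm_nonneg _) (abs_nonneg _)), abs_mul]
        exact mul_le_mul_of_nonneg_right (integral_norm_Kr _) (abs_nonneg _)
  refine ⟨hint.integral_prod_left, ?_⟩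
  rw [integral_integral_swap (f := fun a p => Kr (α p) a * φ p) hint]
  apply integral_congr_ae
  filter_upwards with p
  rw [integral_mul_const, integral_Kr]

end Pool.Agent.Helper76.BL
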