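import Pool.Agent.Helper76.BL.Bd
import Pool.Agent.Helper76.BL.Fub

/-!
# Planar inequalities for the Barker-Larman theorem (MP_70efd9_gt): the duality identities
-/

set_option autoImplicit false

open Set MeasureTheory Filter Topology

namespace Pool.Agent.Helper76.BL

/-- dual charts with the bound `Y ≤ C y` -/
structure VLC (v ℓ : ℝ → ℝ) (C : ℝ) : Prop extends VL v ℓ where
  hv : ∀ a, v a * (v a - a * rd v a) ≤ C
  hl : ∀ p, 1 ≤ C * (ℓ p * (ℓ p - p * rd ℓ p))

namespace VLC

variable {v ℓ : ℝ → ℝ} {C : ℝ}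

lemma C_pos (h : VLC v ℓ C) : 0 < C := by
  have h1 := h.hl 0
  have h2 := h.cl.pos 0
  simp only [zero_mul, sub_zero] at h1
  by_contra hC
  push Not at hC
  nlinarith [mul_pos h2 h2]

/-- `y > 0` on the polar side -/
lemma y_pos (h : VLC v ℓ C) (p : ℝ) : 0 < ℓ p - p * rd ℓ p := by
  have h1 := h.hl p
  have h2 := h.cl.pos p
  have h3 := h.C_pos
  rcases eq_or_lt_of_le (h.cl.Y_nonneg p) with h4 | h4
  · rw [← h4] at h1; simp at h1; linarith
  · exact h4

lemma abs_lt_l (h : VLC v ℓ C) (p : ℝ) : |p| < ℓ p := by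
  rcases eq_or_lt_of_le (h.cl.ge_abs p) with h1 | h1
  swap
  · exact h1
  exfalso
  rcases le_total 0 p with hp | hp
  · -- `ℓ = id` to the right of `p`
    have h2 : ∀ q, p ≤ q → ℓ q = q := by
      intro q hq
      have e1 := h.cl.lip q p
      have e2 := h.cl.ge_abs q
      rw [← h1, abs_of_nonneg hp, abs_of_nonneg (by linarith : 0 ≤ q - p)] at e1
      rw [abs_of_nonneg (by linarith)] at e2
      linarith
    have h3 : rd ℓ p = 1 := by
      have e1 : HasDerivWithinAt ℓ 1 (Ioi p) p := by
        refine (hasDerivWithinAt_id p (Ioi p)).congr (fun q hq => h2 q (le_of_lt hq)) (h2 p le_rfl)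
      exact e1.derivWithin (uniqueDiffWithinAt_Ioi p)
    have := h.y_pos p
    rw [h3, h2 p le_rfl] at this
    linarith
  · have h2 : ∀ q, q ≤ p → ℓ q = -q := by
      intro q hq
      have e1 := h.cl.lip q p
      have e2 := h.cl.ge_abs q
      rw [← h1, abs_of_nonpos hp, abs_of_nonpos (by linarith : q - p ≤ 0)] at e1
      rw [abs_of_nonpos (by linarith)] at e2
      linarith
    have h3 : rd ℓ (p - 1) = -1 := by
      have e1 : HasDerivWithinAt ℓ (-1) (Ioi (p - 1)) (p - 1) := by
        have e2 : HasDerivWithinAt (fun q : ℝ => -q) (-1) (Ioi (p - 1)) (p - 1) :=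
          (hasDerivWithinAt_id _ _).neg
        refine e2.congr_of_eventuallyEq ?_ (h2 _ (by linarith))
        have : Iio p ∈ 𝓝[>] (p - 1) := mem_nhdsWithin_of_mem_nhds (Iio_mem_nhds (by linarith))
        filter_upwards [this] with q hq using h2 q (le_of_lt hq)
      exact e1.derivWithin (uniqueDiffWithinAt_Ioi _)
    have := h.y_pos (p - 1)
    rw [h3, h2 _ (by linarith)] at this
    linarith

lemma Y_nn (h : VLC v ℓ C) (a : ℝ) : 0 ≤ v a - a * rd v a := h.cv.Y_nonneg a

/-- `v² - a² ≤ C` -/
lemma sq_sub_le (h : VLC v ℓ C) (a : ℝ) : v a ^ 2 - a ^ 2 ≤ C := by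
  have hkey : ∀ t, t ≠ 0 → HasDerivWithinAt (fun t => (v t ^ 2 - C) / t ^ 2)
      (2 * (C - v t * (v t - t * rd v t)) / t ^ 3) (Ioi t) t := by
    intro t ht
    have e1 : HasDerivWithinAt (fun t => v t ^ 2 - C) (2 * v t * rd v t) (Ioi t) t := by
      have h3 := ((h.cv.hd t).pow 2).sub_const C
      have e : ((2 : ℕ) : ℝ) * v t ^ (2 - 1) * rd v t = 2 * v t * rd v t := by norm_num
      rw [e] at h3
      exact h3
    have e2 : HasDerivWithinAt (fun t : ℝ => t ^ 2) (2 * t) (Ioi t) t := by
      have h3 := (hasDerivWithinAt_id t (Ioi t)).pow 2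
      have e : ((2 : ℕ) : ℝ) * id t ^ (2 - 1) * 1 = 2 * t := by norm_num
      rw [e] at h3
      exact h3
    have e3 := e1.div e2 (pow_ne_zero 2 ht)
    have e4 : (2 * v t * rd v t * t ^ 2 - (v t ^ 2 - C) * (2 * t)) / (t ^ 2) ^ 2 =
        2 * (C - v t * (v t - t * rd v t)) / t ^ 3 := by
      field_simp
      ring
    rw [← e4]
    exact e3
  have hsq : ∀ t, t ≠ 0 → (v t ^ 2 - C) / t ^ 2 = (v t / |t|) ^ 2 - C / t ^ 2 := by
    intro t ht
    rw [div_pow, sq_abs]
    ring
  rcases lt_trichotomy a 0 with ha | ha | ha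
  · -- negative `a`
    have hmono : ∀ T, T ≤ a → (v a ^ 2 - C) / a ^ 2 ≤ (v T ^ 2 - C) / T ^ 2 := by
      intro T hT
      have hcon : ContinuousOn (fun t => -((v t ^ 2 - C) / t ^ 2)) (Icc T a) := by
        apply ContinuousOn.neg
        apply ContinuousOn.div
        · exact ((h.cv.cont.pow 2).sub continuous_const).continuousOn
        · fun_prop
        · intro t ht
          exact pow_ne_zero 2 (by linarith [ht.2] : t < 0).ne
      have := intervalIntegral.integral_le_sub_of_hasDeriv_right_of_le (φ := fun _ => (0 : ℝ)) hT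
        hcon (fun t ht => (hkey t (by linarith [ht.2] : t < 0).ne).neg) (by simp) (fun t ht => by
          have ht0 : t < 0 := by linarith [ht.2]
          have h3 : t ^ 3 < 0 := by
            have := pow_pos (neg_pos.2 ht0) 3
            nlinarith
          have h4 : 2 * (C - v t * (v t - t * rd v t)) / t ^ 3 ≤ 0 :=
            div_nonpos_of_nonneg_of_nonpos (by linarith [h.hv t]) h3.le
          linarith)
      simp at this
      linarith
    have hlim : Tendsto (fun T => (v T ^ 2 - C) / T ^ 2) atBot (𝓝 1) := by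
      have h1 : Tendsto (fun T => (T / v T)⁻¹ ^ 2 - C / T ^ 2) atBot (𝓝 ((-1)⁻¹ ^ 2 - 0)) := by
        apply Tendsto.sub
        · exact (h.cv.tendsto_div_atBot.inv₀ (by norm_num)).pow 2
        · apply Tendsto.const_div_atTop
          have : Tendsto (fun T : ℝ => |T| ^ 2) atBot atTop :=
            (tendsto_pow_atTop (by norm_num)).comp tendsto_abs_atBot_atTop
          refine this.congr fun T => sq_abs T
      have e : ((-1 : ℝ)⁻¹ ^ 2 - 0) = 1 := by norm_num
      rw [e] at h1
      refine h1.congr fun T => ?_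
      rw [inv_div, div_pow]; ring
    have h2 : (v a ^ 2 - C) / a ^ 2 ≤ 1 := by
      refine ge_of_tendsto hlim ?_
      filter_upwards [eventually_le_atBot a] with T hT using hmono T hT
    rw [div_le_one (by have := ha.ne; positivity)] at h2
    linarith
  · subst ha
    have := h.hv 0
    simp only [zero_mul, sub_zero] at this
    nlinarith
  · have hmono : ∀ T, a ≤ T → (v a ^ 2 - C) / a ^ 2 ≤ (v T ^ 2 - C) / T ^ 2 := by
      intro T hT
      have hcon : ContinuousOn (fun t => ((v t ^ 2 - C) / t ^ 2)) (Icc a T) := by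
        apply ContinuousOn.div
        · exact ((h.cv.cont.pow 2).sub continuous_const).continuousOn
        · fun_prop
        · intro t ht
          exact pow_ne_zero 2 (by linarith [ht.1] : 0 < t).ne'
      have := intervalIntegral.integral_le_sub_of_hasDeriv_right_of_le (φ := fun _ => (0 : ℝ)) hT
        hcon (fun t ht => (hkey t (by linarith [ht.1] : 0 < t).ne')) (by simp) (fun t ht => by
          have ht0 : 0 < t := by linarith [ht.1]
          exact div_nonneg (by linarith [h.hv t]) (by positivity))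
      simp at this
      linarith
    have hlim : Tendsto (fun T => (v T ^ 2 - C) / T ^ 2) atTop (𝓝 1) := by
      have h1 : Tendsto (fun T => (T / v T)⁻¹ ^ 2 - C / T ^ 2) atTop (𝓝 ((1)⁻¹ ^ 2 - 0)) := by
        apply Tendsto.sub
        · exact (h.cv.tendsto_div_atTop.inv₀ (by norm_num)).pow 2
        · apply Tendsto.const_div_atTop
          exact tendsto_pow_atTop (by norm_num)
      have e : ((1 : ℝ)⁻¹ ^ 2 - 0) = 1 := by norm_num
      rw [e] at h1
      refine h1.congr fun T => ?_
      rw [inv_div, div_pow]; ring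
    have h2 : (v a ^ 2 - C) / a ^ 2 ≤ 1 := by
      refine ge_of_tendsto hlim ?_
      filter_upwards [eventually_ge_atTop a] with T hT using hmono T hT
    rw [div_le_one (by positivity)] at h2
    linarith

/-- the slope of the point of `∂S` with normal `(p, 1)` -/
noncomputable def alp (ℓ : ℝ → ℝ) (p : ℝ) : ℝ := rd ℓ p / (ℓ p - p * rd ℓ p)

lemma alp_dual (h : VLC v ℓ C) (p : ℝ) : v (alp ℓ p) * ℓ p = 1 + alp ℓ p * p := by
  have h1 := h.dl p (h.y_pos p)
  have h2 := h.y_pos p
  unfold alp
  rw [h1]
  field_simp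
  ring

lemma abs_pol (h : VLC v ℓ C) (a p : ℝ) : |1 + a * p| ≤ v a * ℓ p := by
  rw [abs_le]
  constructor
  · have h1 : |a| * |p| ≤ v a * ℓ p :=
      mul_le_mul (h.cv.ge_abs a) (h.cl.ge_abs p) (abs_nonneg _) (h.cv.pos a).le
    have h2 : -(a * p) ≤ |a| * |p| := by rw [← abs_mul]; exact neg_le_abs _
    linarith
  · exact h.pol a p

lemma dual_mono (h : VLC v ℓ C) {a p a' p' : ℝ} (h1 : v a * ℓ p = 1 + a * p)
    (h2 : v a' * ℓ p' = 1 + a' * p') : 0 ≤ (a' - a) * (p' - p) := by
  have e1 := h.abs_pol a p'
  have e2 := h.abs_pol a' p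
  have e3 : (1 + a * p') * (1 + a' * p) ≤ (v a * ℓ p') * (v a' * ℓ p) := by
    calc (1 + a * p') * (1 + a' * p) ≤ |(1 + a * p') * (1 + a' * p)| := le_abs_self _
      _ = |1 + a * p'| * |1 + a' * p| := abs_mul _ _
      _ ≤ _ := mul_le_mul e1 e2 (abs_nonneg _) ((abs_nonneg _).trans e1)
  have e4 : (v a * ℓ p') * (v a' * ℓ p) = (1 + a * p) * (1 + a' * p') := by
    rw [← h1, ← h2]; ring
  rw [e4] at e3
  nlinarith

lemma alp_mono (h : VLC v ℓ C) : Monotone (alp ℓ) := by
  intro p p' hpp
  rcases eq_or_lt_of_le hpp with h1 | h1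
  · rw [h1]
  · have := h.dual_mono (h.alp_dual p) (h.alp_dual p')
    have h2 : 0 < p' - p := sub_pos.2 h1
    by_contra hcon
    push Not at hcon
    nlinarith

/-- a dual pair determines the derivative -/
lemma dual_deriv (h : VLC v ℓ C) {a p D : ℝ} (h1 : v a * ℓ p = 1 + a * p)
    (hD : HasDerivAt v D a) : p = D * ℓ p ∧ v a - a * D = 1 / ℓ p := by
  have hl := h.cl.pos p
  have hmin : IsLocalMin (fun t => v t - t * (p / ℓ p)) a := by
    refine Filter.Eventually.of_forall fun t => ?_
    have h2 := h.pol t p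
    have e1 : (1 + t * p) / ℓ p ≤ v t := by rwa [div_le_iff₀ hl]
    have e2 : v a = (1 + a * p) / ℓ p := by rw [eq_div_iff hl.ne']; exact h1
    have e3 : (1 + a * p) / ℓ p - a * (p / ℓ p) = 1 / ℓ p := by field_simp; ring
    have e4 : (1 + t * p) / ℓ p - t * (p / ℓ p) = 1 / ℓ p := by field_simp; ring
    change v a - a * (p / ℓ p) ≤ v t - t * (p / ℓ p)
    rw [e2, e3]
    linarith
  have hd : HasDerivAt (fun t => v t - t * (p / ℓ p)) (D - 1 * (p / ℓ p)) a :=
    hD.sub ((hasDerivAt_id a).mul_const (p / ℓ p))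
  have h0 := hmin.hasDerivAt_eq_zero hd
  have h3 : D = p / ℓ p := by linarith
  refine ⟨by rw [h3]; field_simp, ?_⟩
  rw [h3]
  have e2 : v a = (1 + a * p) / ℓ p := by rw [eq_div_iff hl.ne']; exact h1
  rw [e2]
  field_simp
  ring

lemma rd_eq (_h : VLC v ℓ C) {a D : ℝ} (hD : HasDerivAt v D a) : rd v a = D :=
  (hD.hasDerivWithinAt (s := Ioi a)).derivWithin (uniqueDiffWithinAt_Ioi a)

/-- Lemma A -/
lemma alp_lt (h : VLC v ℓ C) {a D : ℝ} (hD : HasDerivAt v D a) (hY : 0 < v a - a * D) :
    (∀ p, D / (v a - a * D) < p → a < alp ℓ p) ∧ (∀ p, p < D / (v a - a * D) → alp ℓ p ≤ a) := by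
  set q := D / (v a - a * D) with hq
  have hrd := h.rd_eq hD
  have hdual : v a * ℓ q = 1 + a * q := by
    have h1 := h.dv a (by rw [hrd]; exact hY)
    rw [hrd] at h1
    rw [h1, hq]
    field_simp
    ring
  constructor
  · intro p hp
    have h1 := h.dual_mono hdual (h.alp_dual p)
    have h2 : 0 < p - q := sub_pos.2 hp
    have h3 : a ≤ alp ℓ p := by
      by_contra hcon
      push Not at hcon
      nlinarith
    rcases eq_or_lt_of_le h3 with h4 | h4
    swap
    · exact h4
    exfalso
    have h5 := h.alp_dual p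
    rw [← h4] at h5
    obtain ⟨e1, e2⟩ := h.dual_deriv h5 hD
    obtain ⟨e3, e4⟩ := h.dual_deriv hdual hD
    have e5 : ℓ p = ℓ q := by
      have h6 := h.cl.pos p
      have h7 := h.cl.pos q
      rw [e2] at e4
      field_simp at e4
      linarith
    rw [e5, ← e3] at e1
    linarith
  · intro p hp
    have h1 := h.dual_mono hdual (h.alp_dual p)
    have h2 : p - q < 0 := sub_neg.2 hp
    by_contra hcon
    push Not at hcon
    nlinarith

/-- Lemma B: no normal -/
lemma alp_of_zero (h : VLC v ℓ C) {a D : ℝ} (hD : HasDerivAt v D a) (hY : v a - a * D = 0) :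
    (0 < a → ∀ p, alp ℓ p ≤ a) ∧ (a < 0 → ∀ p, a < alp ℓ p) := by
  have hrd := h.rd_eq hD
  have hva : v a = |a| := by
    apply h.cv.Y_pos_iff
    rw [hrd, hY]
  constructor
  · intro ha p
    by_contra hcon
    push Not at hcon
    rw [abs_of_pos ha] at hva
    set a' := alp ℓ p with ha'
    have h1 := h.alp_dual p
    have h2 : v a' = a' := by
      have e1 := h.cv.lip a' a
      have e2 := h.cv.ge_abs a'
      rw [abs_of_pos (by linarith : 0 < a' - a), hva] at e1
      rw [abs_of_pos (by linarith)] at e2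
      linarith
    rw [← ha', h2] at h1
    have h3 := h.pol a p
    rw [hva] at h3
    have ha'pos : 0 < a' := by linarith
    have e1 : a' * (ℓ p - p) = 1 := by linarith
    have e2 : 1 ≤ a * (ℓ p - p) := by linarith
    have e3 : 0 < ℓ p - p := by
      by_contra h4
      push Not at h4
      nlinarith
    nlinarith
  · intro ha p
    by_contra hcon
    push Not at hcon
    rw [abs_of_neg ha] at hva
    set a' := alp ℓ p with ha'
    have h1 := h.alp_dual p
    rw [← ha'] at h1
    rcases eq_or_lt_of_le hcon with h5 | h5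
    · rw [h5] at h1
      obtain ⟨e1, e2⟩ := h.dual_deriv h1 hD
      rw [hY] at e2
      have := h.cl.pos p
      have : 0 < 1 / ℓ p := by positivity
      linarith
    have h2 : v a' = -a' := by
      have e1 := h.cv.lip a' a
      have e2 := h.cv.ge_abs a'
      rw [abs_of_neg (by linarith : a' - a < 0), hva] at e1
      rw [abs_of_neg (by linarith)] at e2
      linarith
    rw [h2] at h1
    have h3 := h.pol a p
    rw [hva] at h3
    have e1 : (-a') * (ℓ p + p) = 1 := by linarith
    have e2 : 1 ≤ (-a) * (ℓ p + p) := by linarith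
    have e3 : 0 < ℓ p + p := by
      by_contra h4
      push Not at h4
      nlinarith
    nlinarith

/-- **the duality integral** -/
theorem dual_int (h : VLC v ℓ C) {F φ W : ℝ → ℝ} (hF : Continuous F)
    (hFd : ∀ p, HasDerivWithinAt F (φ p) (Ioi p) p) (hφ : Integrable φ)
    (hαφ : Integrable fun p => alp ℓ p * φ p)
    (hl : Tendsto F atBot (𝓝 0)) (hr : Tendsto F atTop (𝓝 0))
    (hW : ∀ a D, HasDerivAt v D a → (0 < v a - a * D → W a = F (D / (v a - a * D))) ∧
      (v a - a * D = 0 → W a = 0)) :
    Integrable W ∧ ∫ a, W a = -∫ p, alp ℓ p * φ p := by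
  obtain ⟨f1, f2⟩ := fub h.alp_mono.measurable hφ hαφ
  have hIoi : ∀ q, ∫ p in Ioi q, φ p = -F q := by
    intro q
    have h1 : Tendsto (fun T => ∫ p in q..T, φ p) atTop (𝓝 (∫ p in Ioi q, φ p)) :=
      intervalIntegral_tendsto_integral_Ioi q hφ.integrableOn tendsto_id
    have h2 : Tendsto (fun T => F T - F q) atTop (𝓝 (0 - F q)) := hr.sub_const _
    rw [zero_sub] at h2
    refine tendsto_nhds_unique h1 (h2.congr' ?_)
    filter_upwards [eventually_ge_atTop q] with T hT
    exact (intervalIntegral.integral_eq_sub_of_hasDeriv_right_of_le hT hF.continuousOn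
      (fun p _ => hFd p) hφ.intervalIntegrable).symm
  have hIic : ∀ q, ∫ p in Iic q, φ p = F q := by
    intro q
    have h1 : Tendsto (fun T => ∫ p in T..q, φ p) atBot (𝓝 (∫ p in Iic q, φ p)) :=
      intervalIntegral_tendsto_integral_Iic q hφ.integrableOn tendsto_id
    have h2 : Tendsto (fun T => F q - F T) atBot (𝓝 (F q - 0)) := hl.const_sub _
    rw [sub_zero] at h2
    refine tendsto_nhds_unique h1 (h2.congr' ?_)
    filter_upwards [eventually_le_atBot q] with T hT
    exact (intervalIntegral.integral_eq_sub_of_hasDeriv_right_of_le hT hF.continuousOn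
      (fun p _ => hFd p) hφ.intervalIntegrable).symm
  have hae : ∀ᵐ a : ℝ, W a = -∫ p, Kr (alp ℓ p) a * φ p := by
    have hd := h.cv.lipWith.ae_differentiableAt_real
    have h0 : ∀ᵐ a : ℝ, a ≠ 0 := by rw [ae_iff]; simp
    filter_upwards [hd, h0] with a ha ha0
    have hD := ha.hasDerivAt
    set D := deriv v a with hDdef
    obtain ⟨w1, w2⟩ := hW a D hD
    have hYnn : 0 ≤ v a - a * D := by
      have := h.cv.Y_nonneg a
      rwa [h.rd_eq hD] at this
    rcases eq_or_lt_of_le hYnn with hY | hY
    · -- no normal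
      obtain ⟨b1, b2⟩ := h.alp_of_zero hD hY.symm
      rw [w2 hY.symm]
      have : ∀ p, Kr (alp ℓ p) a * φ p = 0 := by
        intro p
        have : Kr (alp ℓ p) a = 0 := by
          unfold Kr
          rcases lt_or_gt_of_ne ha0 with hneg | hpos
          · have e1 := b2 hneg p
            rw [indicator_of_notMem, indicator_of_notMem, sub_zero]
            · intro hm; linarith [hm.1]
            · intro hm; linarith [hm.1]
          · have e1 := b1 hpos p
            rw [indicator_of_notMem, indicator_of_notMem, sub_zero]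
            · intro hm; linarith [hm.2]
            · intro hm; linarith [hm.2]
        rw [this, zero_mul]
      simp only [this, integral_zero, neg_zero]
    · obtain ⟨b1, b2⟩ := h.alp_lt hD hY
      rw [w1 hY]
      set q := D / (v a - a * D) with hq
      have hne : ∀ᵐ p : ℝ, p ≠ q := by rw [ae_iff]; simp
      rcases lt_or_gt_of_ne ha0 with hneg | hpos
      · have e1 : (∫ p, Kr (alp ℓ p) a * φ p) = ∫ p, (Iic q).indicator (fun p => -φ p) p := by
          apply integral_congr_ae
          filter_upwards [hne] with p hp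
          unfold Kr
          rcases lt_or_gt_of_ne hp with h1 | h1
          · have e2 := b2 p h1
            rw [indicator_of_notMem (by intro hm; linarith [hm.1]),
              indicator_of_mem (show a ∈ Icc (alp ℓ p) 0 from ⟨e2, hneg.le⟩),
              indicator_of_mem (show p ∈ Iic q from h1.le)]
            simp
          · have e2 := b1 p h1
            rw [indicator_of_notMem (by intro hm; linarith [hm.1]),
              indicator_of_notMem (by intro hm; linarith [hm.1]),
              indicator_of_notMem (by intro hm; exact absurd h1 (not_lt.2 hm))]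
            simp
        rw [e1, integral_indicator measurableSet_Iic, integral_neg, hIic, neg_neg]
      · have e1 : (∫ p, Kr (alp ℓ p) a * φ p) = ∫ p, (Ioi q).indicator φ p := by
          apply integral_congr_ae
          filter_upwards [hne] with p hp
          unfold Kr
          rcases lt_or_gt_of_ne hp with h1 | h1
          · have e2 := b2 p h1
            rw [indicator_of_notMem (by intro hm; linarith [hm.2]),
              indicator_of_notMem (by intro hm; linarith [hm.2]),
              indicator_of_notMem (by intro hm; exact absurd h1 (not_lt.2 (le_of_lt hm)))]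
            simp
          · have e2 := b1 p h1
            rw [indicator_of_mem (show a ∈ Ioo 0 (alp ℓ p) from ⟨hpos, e2⟩),
              indicator_of_notMem (by intro hm; linarith [hm.2]),
              indicator_of_mem (show p ∈ Ioi q from h1)]
            simp
        rw [e1, integral_indicator measurableSet_Ioi, hIoi, neg_neg]
  constructor
  · exact f1.neg.congr (hae.mono fun a ha => ha.symm)
  · rw [integral_congr_ae hae, integral_neg, f2]

end VLC

end Pool.Agent.Helper76.BL
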