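import Pool.Agent.Helper76.BL.Bd

/-!
# Planar inequalities for the Barker-Larman theorem (MP_70efd9_gt): volume product of dual charts
-/

set_option autoImplicit false

open Set MeasureTheory Filter Topology

namespace Pool.Agent.Helper76.BL

namespace VL

variable {v ℓ : ℝ → ℝ}

lemma int_leg_nonneg (h : VL v ℓ) : 0 ≤ ∫ x in (-1 : ℝ)..1, leg ℓ x :=
  intervalIntegral.integral_nonneg (by norm_num) fun x hx => h.cl.leg_nonneg hx

/-- **Blaschke-Santalo for dual charts** -/
theorem mv_le (h : VL v ℓ) : (∫ a, (v a ^ 2)⁻¹) * (∫ p, (ℓ p ^ 2)⁻¹) ≤ Real.pi ^ 2 := by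
  rw [h.area, h.symm.area]
  have := h.bs_leg.1
  nlinarith

/-- equality case -/
theorem mv_eq (h : VL v ℓ) (he : (∫ a, (v a ^ 2)⁻¹) * (∫ p, (ℓ p ^ 2)⁻¹) = Real.pi ^ 2) :
    ∃ r : ℝ, 0 < r ∧ ∀ a, v a ^ 2 = a ^ 2 + r := by
  rw [h.area, h.symm.area] at he
  obtain ⟨s, hs, hl⟩ := h.bs_leg.2 (by nlinarith)
  have h1 : ∀ a, |a| < v a → v a ^ 2 - a ^ 2 = 1 / s ^ 2 := by
    intro a ha
    have hv := h.cv.pos a
    have hx := h.cv.div_mem_Ioo ha
    have h2 := (hl _ hx).1
    rw [h.leg_div' ha] at h2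
    have h3 : 0 ≤ 1 - (a / v a) ^ 2 := by nlinarith [hx.1, hx.2]
    have h4 : (1 / v a) ^ 2 = s ^ 2 * (1 - (a / v a) ^ 2) := by
      rw [h2, mul_pow, Real.sq_sqrt h3]
    field_simp at h4
    field_simp
    linarith
  have h0 : |(0 : ℝ)| < v 0 := by simpa using h.cv.pos0
  have hd0 := h1 0 h0
  have hall : ∀ a, |a| < v a := by
    intro a
    by_contra hcon
    push Not at hcon
    have hav : |a| = v a := le_antisymm (h.cv.ge_abs a) hcon
    have hc : Continuous (fun a => v a ^ 2 - a ^ 2) := (h.cv.cont.pow 2).sub (continuous_id.pow 2)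
    have e1 : v a ^ 2 - a ^ 2 = 0 := by rw [← hav, sq_abs]; ring
    obtain ⟨t, ht⟩ := mem_range_of_exists_le_of_exists_ge (c := 1 / (2 * s ^ 2)) hc
      ⟨a, by simp only [e1]; positivity⟩ ⟨0, by
        rw [hd0]
        apply one_div_le_one_div_of_le (by positivity)
        nlinarith [sq_nonneg s]⟩
    simp only at ht
    have ht2 : |t| < v t := by
      have : t ^ 2 < v t ^ 2 := by
        have : 0 < 1 / (2 * s ^ 2) := by positivity
        linarith
      exact abs_lt_of_sq_lt_sq this (h.cv.pos t).le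
    have h5 := h1 t ht2
    rw [ht] at h5
    have : 0 < s ^ 2 := by positivity
    field_simp at h5
    norm_num at h5
  refine ⟨1 / s ^ 2, by positivity, fun a => ?_⟩
  have := h1 a (hall a)
  linarith

end VL

end Pool.Agent.Helper76.BL
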