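import Mathlib

/-!
# Improper fundamental theorem of calculus for right derivatives
-/

set_option autoImplicit false

open Set MeasureTheory Filter Topology

namespace Pool.Agent.Helper76.BL

variable {G G' φ : ℝ → ℝ} {l r : ℝ}

lemma ftc_integrable (hc : Continuous G) (hd : ∀ a, HasDerivWithinAt G (G' a) (Ioi a) a)
    (hm : AEStronglyMeasurable φ) (h0 : ∀ a, 0 ≤ φ a) (hle : ∀ a, φ a ≤ G' a)
    (hl : Tendsto G atBot (𝓝 l)) (hr : Tendsto G atTop (𝓝 r)) : Integrable φ := by
  have hbd : ∃ M : ℝ, ∀ x, |G x| ≤ M := by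
    have h1 : ∀ᶠ x in atTop, |G x| ≤ |r| + 1 := by
      have := hr.abs.eventually (ge_mem_nhds (show |r| < |r| + 1 by linarith))
      exact this
    have h2 : ∀ᶠ x in atBot, |G x| ≤ |l| + 1 := by
      have := hl.abs.eventually (ge_mem_nhds (show |l| < |l| + 1 by linarith))
      exact this
    obtain ⟨A, hA⟩ := eventually_atTop.1 h1
    obtain ⟨B, hB⟩ := eventually_atBot.1 h2
    obtain ⟨M, hM⟩ := (isCompact_Icc (a := B) (b := A)).exists_bound_of_continuousOn hc.continuousOn
    refine ⟨max M (max (|r| + 1) (|l| + 1)), fun x => ?_⟩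
    rcases le_total A x with h | h
    · exact (hA x h).trans ((le_max_left _ _).trans (le_max_right _ _))
    rcases le_total x B with h' | h'
    · exact (hB x h').trans ((le_max_right _ _).trans (le_max_right _ _))
    · exact (hM x ⟨h', h⟩).trans (le_max_left _ _)
  obtain ⟨M, hM⟩ := hbd
  have hint : ∀ a b : ℝ, a ≤ b → IntegrableOn G' (Ioc a b) := fun a b hab =>
    intervalIntegral.integrableOn_deriv_right_of_nonneg hc.continuousOn (fun x _ => hd x)
      (fun x _ => (h0 x).trans (hle x))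
  have hφint : ∀ a b : ℝ, a ≤ b → IntegrableOn φ (Ioc a b) := fun a b hab =>
    Integrable.mono' (hint a b hab) hm.restrict (by
      filter_upwards with x
      rw [Real.norm_eq_abs, abs_of_nonneg (h0 x)]
      exact hle x)
  refine integrable_of_intervalIntegral_norm_bounded (l := atTop) (a := fun n : ℕ => -(n : ℝ))
    (b := fun n : ℕ => (n : ℝ)) (2 * M) (fun n => hφint _ _ (by
      have : (0 : ℝ) ≤ n := Nat.cast_nonneg n
      linarith)) ?_ ?_ ?_
  · exact tendsto_neg_atTop_atBot.comp tendsto_natCast_atTop_atTop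
  · exact tendsto_natCast_atTop_atTop
  · filter_upwards with n
    have hn : (-(n : ℝ)) ≤ n := by
      have : (0 : ℝ) ≤ n := Nat.cast_nonneg n
      linarith
    have h1 : (∫ x in (-(n : ℝ))..n, ‖φ x‖) = ∫ x in (-(n : ℝ))..n, φ x := by
      apply intervalIntegral.integral_congr
      intro x _
      simp only [Real.norm_eq_abs, abs_of_nonneg (h0 x)]
    rw [h1]
    have h2 := intervalIntegral.integral_le_sub_of_hasDeriv_right_of_le hn hc.continuousOn
      (fun x _ => hd x) ((integrableOn_Icc_iff_integrableOn_Ioc).2 (hφint _ _ hn))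
      (fun x _ => hle x)
    have h3 := abs_le.1 (hM n)
    have h4 := abs_le.1 (hM (-n))
    linarith

lemma ftc_le (hc : Continuous G) (hd : ∀ a, HasDerivWithinAt G (G' a) (Ioi a) a)
    (hφ : Integrable φ) (hle : ∀ a, φ a ≤ G' a)
    (hl : Tendsto G atBot (𝓝 l)) (hr : Tendsto G atTop (𝓝 r)) : ∫ a, φ a ≤ r - l := by
  have h1 : Tendsto (fun n : ℕ => ∫ x in (-(n : ℝ))..n, φ x) atTop (𝓝 (∫ x, φ x)) :=
    intervalIntegral_tendsto_integral hφ
      (tendsto_neg_atTop_atBot.comp tendsto_natCast_atTop_atTop) tendsto_natCast_atTop_atTop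
  have h2 : Tendsto (fun n : ℕ => G n - G (-(n : ℝ))) atTop (𝓝 (r - l)) :=
    (hr.comp tendsto_natCast_atTop_atTop).sub
      (hl.comp (tendsto_neg_atTop_atBot.comp tendsto_natCast_atTop_atTop))
  refine le_of_tendsto_of_tendsto' h1 h2 fun n => ?_
  have hn : (-(n : ℝ)) ≤ n := by
    have : (0 : ℝ) ≤ n := Nat.cast_nonneg n
    linarith
  exact intervalIntegral.integral_le_sub_of_hasDeriv_right_of_le hn hc.continuousOn
      (fun x _ => hd x) hφ.integrableOn (fun x _ => hle x)

lemma ftc_eq (hc : Continuous G) (hd : ∀ a, HasDerivWithinAt G (G' a) (Ioi a) a)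
    (hφ : Integrable G')
    (hl : Tendsto G atBot (𝓝 l)) (hr : Tendsto G atTop (𝓝 r)) : ∫ a, G' a = r - l := by
  have h1 : Tendsto (fun n : ℕ => ∫ x in (-(n : ℝ))..n, G' x) atTop (𝓝 (∫ x, G' x)) :=
    intervalIntegral_tendsto_integral hφ
      (tendsto_neg_atTop_atBot.comp tendsto_natCast_atTop_atTop) tendsto_natCast_atTop_atTop
  have h2 : Tendsto (fun n : ℕ => G n - G (-(n : ℝ))) atTop (𝓝 (r - l)) :=
    (hr.comp tendsto_natCast_atTop_atTop).sub
      (hl.comp (tendsto_neg_atTop_atBot.comp tendsto_natCast_atTop_atTop))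
  refine tendsto_nhds_unique h1 (h2.congr fun n => ?_)
  have hn : (-(n : ℝ)) ≤ n := by
    have : (0 : ℝ) ≤ n := Nat.cast_nonneg n
    linarith
  exact (intervalIntegral.integral_eq_sub_of_hasDeriv_right_of_le hn hc.continuousOn
      (fun x _ => hd x) hφ.intervalIntegrable).symm

end Pool.Agent.Helper76.BL
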