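import Pool.Agent.Helper76.BL.Nums
import Pool.Agent.Helper76.BL.Ell

/-!
# Planar inequalities for the Barker-Larman theorem (MP_70efd9_gt): the final inequality
-/

set_option autoImplicit false

open Set MeasureTheory Filter Topology

namespace Pool.Agent.Helper76.BL

namespace VLC

variable {v ℓ : ℝ → ℝ} {C : ℝ}

lemma leg_v_one (h : VLC v ℓ C) : leg v 1 = 0 := by
  apply le_antisymm _ (h.cv.leg_nonneg (by norm_num))
  have h1 : ∀ a, 0 < a → leg v 1 ≤ C * (v a)⁻¹ := by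
    intro a ha
    have hv := h.cv.pos a
    have h2 := h.cv.leg_le (x := 1) (by norm_num) a
    have h3 := h.sq_sub_le a
    have h4 := h.cv.ge_abs a
    rw [abs_of_pos ha] at h4
    have h5 : v a - a * 1 ≤ C * (v a)⁻¹ := by
      rw [← div_eq_mul_inv, le_div_iff₀ hv]
      nlinarith
    linarith
  have hlim : Tendsto (fun a => C * (v a)⁻¹) atTop (𝓝 0) := by
    have := h.cv.tendsto_inv_atTop.const_mul C
    rwa [mul_zero] at this
  refine ge_of_tendsto hlim ?_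
  filter_upwards [eventually_gt_atTop 0] with a ha using h1 a ha

lemma leg_v_neg_one (h : VLC v ℓ C) : leg v (-1) = 0 := by
  apply le_antisymm _ (h.cv.leg_nonneg (by norm_num))
  have h1 : ∀ a, a < 0 → leg v (-1) ≤ C * (v a)⁻¹ := by
    intro a ha
    have hv := h.cv.pos a
    have h2 := h.cv.leg_le (x := -1) (by norm_num) a
    have h3 := h.sq_sub_le a
    have h4 := h.cv.ge_abs a
    rw [abs_of_neg ha] at h4
    have h5 : v a - a * -1 ≤ C * (v a)⁻¹ := by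
      rw [← div_eq_mul_inv, le_div_iff₀ hv]
      nlinarith
    linarith
  have hlim : Tendsto (fun a => C * (v a)⁻¹) atBot (𝓝 0) := by
    have := h.cv.tendsto_inv_atBot.const_mul C
    rwa [mul_zero] at this
  refine ge_of_tendsto hlim ?_
  filter_upwards [eventually_lt_atBot 0] with a ha using h1 a ha

lemma rd_leg (h : VLC v ℓ C) (p : ℝ) :
    derivWithin (leg v) (Ioi (p / ℓ p)) (p / ℓ p) = -rd ℓ p / (ℓ p - p * rd ℓ p) := by
  have hl := h.cl.pos p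
  have hy := h.y_pos p
  have hX := h.cl.div_mem_Ioo (h.abs_lt_l p)
  set X := p / ℓ p with hXdef
  have h1 : HasDerivWithinAt (leg v) (derivWithin (leg v) (Ioi X) X) (Ioi X) X := by
    have := (h.cv.leg_concave.neg).hasDerivWithinAt_rightDeriv_of_mem_interior (x := X)
      (by rw [interior_Icc]; exact hX)
    have h2 := this.neg
    rw [neg_neg] at h2
    exact h2.differentiableWithinAt.hasDerivWithinAt
  have hmaps : MapsTo (fun q => q / ℓ q) (Ioi p) (Ioi X) := by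
    intro q hq
    have h3 : X ≤ q / ℓ q := h.cl.mono_div (le_of_lt hq)
    rcases eq_or_lt_of_le h3 with h4 | h4
    · exfalso
      have e1 := h.toVL.symm.leg_div' (h.abs_lt_l p)
      have e2 := h.toVL.symm.leg_div' (h.abs_lt_l q)
      rw [← hXdef, h4] at e1
      rw [e1] at e2
      have hlq := h.cl.pos q
      have e3 : ℓ p = ℓ q := by field_simp at e2; linarith
      rw [hXdef, e3, div_left_inj' hlq.ne'] at h4
      exact absurd hq (by rw [h4]; exact lt_irrefl q)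
    · exact h4
  have h2 := h1.comp p (h.cl.hd_div p) hmaps
  have h3 : HasDerivWithinAt (leg v ∘ fun q => q / ℓ q) (-rd ℓ p / ℓ p ^ 2) (Ioi p) p := by
    have h4 : (leg v ∘ fun q => q / ℓ q) = fun q => (ℓ q)⁻¹ := by
      ext q
      simp only [Function.comp]
      rw [h.toVL.symm.leg_div' (h.abs_lt_l q), one_div]
    rw [h4]
    exact (h.cl.hd p).inv hl.ne'
  have h5 := UniqueDiffWithinAt.eq_deriv (Ioi p) (uniqueDiffWithinAt_Ioi p) h2 h3
  generalize ℓ p - p * rd ℓ p = y at hy h5 ⊢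
  field_simp at h5
  rw [eq_div_iff hy.ne']
  linarith

/-- **the inequality `D₁ ≤ 0` for dual charts** -/
theorem N2_le (h : VLC v ℓ C) :
    Integrable (fun p => (1 - rd ℓ p ^ 2) / (ℓ p ^ 3 * (ℓ p - p * rd ℓ p))) ∧
    (∫ a, (v a ^ 2)⁻¹) * ∫ p, (1 - rd ℓ p ^ 2) / (ℓ p ^ 3 * (ℓ p - p * rd ℓ p)) ≤
      (∫ p, (ℓ p ^ 2)⁻¹) * ∫ x in (-1 : ℝ)..1, (1 - x ^ 2) / leg ℓ x := by
  have hmr := h.cl.meas_rd
  have hml := h.meas_l
  have hC := h.C_pos
  have i1 : Integrable (fun p => (1 - rd ℓ p ^ 2) / (ℓ p ^ 3 * (ℓ p - p * rd ℓ p))) := by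
    refine h.cl.integrable_of_le (by fun_prop) C fun p => ?_
    have hl := h.cl.pos p
    have hy := h.y_pos p
    have h5 : rd ℓ p ^ 2 ≤ 1 := by
      rw [← sq_abs]
      exact pow_le_one₀ (abs_nonneg _) (h.cl.abs_rd p)
    have h6 : 0 ≤ 1 - rd ℓ p ^ 2 := by linarith
    rw [abs_of_nonneg (by positivity), div_le_iff₀ (by positivity)]
    have e2 : C * (ℓ p ^ 2)⁻¹ * (ℓ p ^ 3 * (ℓ p - p * rd ℓ p)) =
        C * (ℓ p * (ℓ p - p * rd ℓ p)) := by field_simp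
    rw [e2]
    have h4 := h.hl p
    nlinarith [sq_nonneg (rd ℓ p)]
  refine ⟨i1, ?_⟩
  obtain ⟨k, Q, Q', hk, hkk, hQc, hQ0, hQ1, hQd⟩ := D1_core h.cl.leg_concave h.cv.leg_concave
    h.cl.leg_cont h.cv.leg_cont (fun _ hx => h.cl.leg_pos hx) (fun _ hx => h.cv.leg_pos hx)
    h.leg_v_neg_one h.leg_v_one (fun _ hx _ hX => h.leg_mul_le hx hX)
  have hXmem : ∀ p, p / ℓ p ∈ Ioo (-1 : ℝ) 1 := fun p => h.cl.div_mem_Ioo (h.abs_lt_l p)
  have hXc : Continuous (fun p => p / ℓ p) :=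
    continuous_id.div h.cl.cont fun p => (h.cl.pos p).ne'
  have hmaps : ∀ p, MapsTo (fun q => q / ℓ q) (Ioi p) (Ioi (p / ℓ p)) := by
    intro p q hq
    have h3 : p / ℓ p ≤ q / ℓ q := h.cl.mono_div (le_of_lt hq)
    rcases eq_or_lt_of_le h3 with h4 | h4
    · exfalso
      have e1 := h.toVL.symm.leg_div' (h.abs_lt_l p)
      have e2 := h.toVL.symm.leg_div' (h.abs_lt_l q)
      rw [h4] at e1
      rw [e1] at e2
      have hlq := h.cl.pos q
      have hlp := h.cl.pos p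
      have e3 : ℓ p = ℓ q := by field_simp at e2; linarith
      rw [e3, div_left_inj' hlq.ne'] at h4
      exact absurd hq (by rw [h4]; exact lt_irrefl q)
    · exact h4
  have hG : ∀ p, HasDerivWithinAt (fun p => Q (p / ℓ p))
      (Q' (p / ℓ p) * ((ℓ p - p * rd ℓ p) / ℓ p ^ 2)) (Ioi p) p := fun p =>
    (hQd _ (hXmem p)).1.comp p (h.cl.hd_div p) (hmaps p)
  have hGc : Continuous (fun p => Q (p / ℓ p)) :=
    hQc.comp_continuous hXc fun p => Ioo_subset_Icc_self (hXmem p)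
  have hXcc : ∀ p, p / ℓ p ∈ Icc (-1 : ℝ) 1 := fun p => Ioo_subset_Icc_self (hXmem p)
  have hl : Tendsto (fun p => Q (p / ℓ p)) atBot (𝓝 0) := by
    rw [← hQ0]
    exact (hQc (-1) (by norm_num)).tendsto.comp
      (tendsto_nhdsWithin_iff.2 ⟨h.cl.tendsto_div_atBot, Eventually.of_forall hXcc⟩)
  have hr : Tendsto (fun p => Q (p / ℓ p)) atTop (𝓝 (∫ x in (-1 : ℝ)..1, (1 - x ^ 2) / leg ℓ x)) := by
    rw [← hQ1]
    exact (hQc 1 (by norm_num)).tendsto.comp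
      (tendsto_nhdsWithin_iff.2 ⟨h.cl.tendsto_div_atTop, Eventually.of_forall hXcc⟩)
  have hle : ∀ p, k * ((1 - rd ℓ p ^ 2) / (ℓ p ^ 3 * (ℓ p - p * rd ℓ p))) ≤
      Q' (p / ℓ p) * ((ℓ p - p * rd ℓ p) / ℓ p ^ 2) := by
    intro p
    have hlp := h.cl.pos p
    have hy := h.y_pos p
    have h1 := (hQd _ (hXmem p)).2
    rw [h.rd_leg p, h.toVL.symm.leg_div' (h.abs_lt_l p)] at h1
    have h2 := mul_le_mul_of_nonneg_right h1
      (show 0 ≤ (ℓ p - p * rd ℓ p) / ℓ p ^ 2 by positivity)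
    refine le_trans (le_of_eq ?_) h2
    have hx : p * rd ℓ p = ℓ p - (ℓ p - p * rd ℓ p) := by ring
    set y := ℓ p - p * rd ℓ p with hydef
    set x := rd ℓ p with hxdef
    have hpx : p * x = ℓ p - y := hx
    have e : (1 / ℓ p) ^ 3 - 2 * (p / ℓ p) * (1 / ℓ p) ^ 2 * (-x / y) -
        (1 - (p / ℓ p) ^ 2) * (-x / y) ^ 2 * (1 / ℓ p) =
        ((y + p * x) ^ 2 - ℓ p ^ 2 * x ^ 2) / (ℓ p ^ 3 * y ^ 2) := by
      field_simp
      ring
    rw [e, hpx]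
    field_simp
    ring
  have h5 := ftc_le hGc hG (i1.const_mul k) hle hl hr
  rw [integral_const_mul, sub_zero] at h5
  rw [h.area, h.toVL.symm.area]
  have hY : 0 ≤ ∫ x in (-1 : ℝ)..1, leg v x := h.toVL.symm.int_leg_nonneg
  rw [hkk]
  set N2 := ∫ p, (1 - rd ℓ p ^ 2) / (ℓ p ^ 3 * (ℓ p - p * rd ℓ p)) with hN2
  set J := ∫ x in (-1 : ℝ)..1, leg v x with hJ
  calc 2 * (k * J) * N2 = 2 * J * (k * N2) := by ring
    _ ≤ _ := mul_le_mul_of_nonneg_left h5 (by linarith)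

lemma A_pos (h : VLC v ℓ C) : 0 < ∫ a, (v a ^ 2)⁻¹ := by
  rw [h.area]
  have hyi : IntervalIntegrable (leg ℓ) volume (-1) 1 :=
    (h.cl.leg_cont.mono (by rw [uIcc_of_le (by norm_num)])).intervalIntegrable
  have hyp : 0 < ∫ x in (-1 : ℝ)..1, leg ℓ x :=
    intervalIntegral.intervalIntegral_pos_of_pos_on hyi (fun x hx => h.cl.leg_pos hx) (by norm_num)
  linarith

lemma Ap_pos (h : VLC v ℓ C) : 0 < ∫ p, (ℓ p ^ 2)⁻¹ := by
  rw [h.toVL.symm.area]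
  have hyi : IntervalIntegrable (leg v) volume (-1) 1 :=
    (h.cv.leg_cont.mono (by rw [uIcc_of_le (by norm_num)])).intervalIntegrable
  have hyp : 0 < ∫ x in (-1 : ℝ)..1, leg v x :=
    intervalIntegral.intervalIntegral_pos_of_pos_on hyi (fun x hx => h.cv.leg_pos hx) (by norm_num)
  linarith

/-- the final algebra -/
lemma planar_alg {A Ap al ga N1 N2 k T : ℝ} (hA : 0 < A) (hAp : 0 < Ap) (hk0 : 0 ≤ k)
    (hk1 : k ≤ 1) (hT0 : 0 ≤ T) (e2 : A * N2 ≤ Ap * N1) (f1 : N1 ≤ 16 / A)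
    (s1 : 1 / A ^ 2 * T ≤ ga / Ap - al / A)
    (s2 : ga ≤ 2 * (Ap / A) * (A * (ga / Ap - al / A) + Ap)) :
    1 / Ap * (1 / 2 * ga + N2) * (1 - k ^ 2) * T ≤
      (2 / Ap * ((1 - k ^ 2) * (1 / 2 * ga) - k ^ 2 * N2) -
        2 / A * ((1 - k ^ 2) * (1 / 2 * al) - k ^ 2 * N1)) * (T + 16 + A * Ap) := by
  have hk2 : k ^ 2 ≤ 1 := by nlinarith
  have hk3 : 0 ≤ 1 - k ^ 2 := by linarith
  have hN : 0 ≤ N1 / A - N2 / Ap := by
    rw [sub_nonneg, div_le_div_iff₀ hAp hA]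
    linarith
  have hid : 2 / Ap * ((1 - k ^ 2) * (1 / 2 * ga) - k ^ 2 * N2) -
      2 / A * ((1 - k ^ 2) * (1 / 2 * al) - k ^ 2 * N1) =
      (1 - k ^ 2) * (ga / Ap - al / A) + 2 * k ^ 2 * (N1 / A - N2 / Ap) := by ring
  rw [hid]
  have w4 : 1 / Ap * (1 / 2 * ga + N2) = 1 / 2 * (ga / Ap) + N2 / Ap := by ring
  rw [w4]
  have hga : 1 / 2 * (ga / Ap) ≤ (ga / Ap - al / A) + Ap / A := by
    have h1 : ga / Ap ≤ (2 * (Ap / A) * (A * (ga / Ap - al / A) + Ap)) / Ap :=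
      div_le_div_of_nonneg_right s2 hAp.le
    have h2 : (2 * (Ap / A) * (A * (ga / Ap - al / A) + Ap)) / Ap =
        2 * ((ga / Ap - al / A) + Ap / A) := by
      generalize ga / Ap - al / A = d
      field_simp
    rw [h2] at h1
    linarith
  set d := ga / Ap - al / A with hd
  have w1 : N2 / Ap ≤ 16 / A ^ 2 := by
    have : N1 / A ≤ 16 / A ^ 2 := by
      rw [div_le_div_iff₀ hA (by positivity)]
      rw [le_div_iff₀ hA] at f1
      nlinarith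
    linarith
  have hd0 : 0 ≤ d := le_trans (by positivity) s1
  have hP0 : 0 < A * Ap := mul_pos hA hAp
  have hWle : 1 / 2 * (ga / Ap) + N2 / Ap ≤ (16 + A * Ap) * (1 / A ^ 2) + d := by
    have w3 : (16 + A * Ap) * (1 / A ^ 2) = 16 / A ^ 2 + Ap / A := by field_simp
    rw [w3]
    linarith
  set W := 1 / 2 * (ga / Ap) + N2 / Ap with hW
  have h1 : W * T ≤ d * (T + 16 + A * Ap) := by
    have t1 : W * T ≤ ((16 + A * Ap) * (1 / A ^ 2) + d) * T :=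
      mul_le_mul_of_nonneg_right hWle hT0
    have t3 : (16 + A * Ap) * (1 / A ^ 2 * T) ≤ (16 + A * Ap) * d :=
      mul_le_mul_of_nonneg_left s1 (by linarith)
    calc W * T ≤ ((16 + A * Ap) * (1 / A ^ 2) + d) * T := t1
      _ = (16 + A * Ap) * (1 / A ^ 2 * T) + d * T := by ring
      _ ≤ (16 + A * Ap) * d + d * T := by linarith
      _ = _ := by ring
  have hS : 0 ≤ T + 16 + A * Ap := by linarith
  calc W * (1 - k ^ 2) * T = (1 - k ^ 2) * (W * T) := by ring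
    _ ≤ (1 - k ^ 2) * (d * (T + 16 + A * Ap)) := mul_le_mul_of_nonneg_left h1 hk3
    _ = ((1 - k ^ 2) * d) * (T + 16 + A * Ap) := by ring
    _ ≤ _ := by
      apply mul_le_mul_of_nonneg_right _ hS
      have : 0 ≤ 2 * k ^ 2 * (N1 / A - N2 / Ap) := mul_nonneg (by positivity) hN
      linarith

/-- **the planar inequality for dual charts** -/
theorem planar (h : VLC v ℓ C) (k : ℝ) (hk0 : 0 ≤ k) (hk1 : k ≤ 1) :
    let A := ∫ a, (v a ^ 2)⁻¹
    let Ap := ∫ p, (ℓ p ^ 2)⁻¹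
    let E1 := 2 / A * ∫ a, (v a - a * rd v a) * (a ^ 2 - k ^ 2 * v a ^ 2) / v a ^ 3
    let E2 := 2 / Ap * ∫ p, (rd ℓ p ^ 2 - k ^ 2) / (ℓ p ^ 3 * (ℓ p - p * rd ℓ p))
    let W := 1 / Ap * ∫ p, 1 / (ℓ p ^ 3 * (ℓ p - p * rd ℓ p))
    Integrable (fun a => (v a - a * rd v a) * (a ^ 2 - k ^ 2 * v a ^ 2) / v a ^ 3) ∧
    Integrable (fun p => (rd ℓ p ^ 2 - k ^ 2) / (ℓ p ^ 3 * (ℓ p - p * rd ℓ p))) ∧
    Integrable (fun p => 1 / (ℓ p ^ 3 * (ℓ p - p * rd ℓ p))) ∧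
    0 ≤ W ∧
    W * (1 - k ^ 2) * (Real.pi - √(A * Ap)) ^ 2 ≤
      (E2 - E1) * ((Real.pi - √(A * Ap)) ^ 2 + 16 + A * Ap) := by
  intro A Ap E1 E2 W
  have hA : 0 < A := h.A_pos
  have hAp : 0 < Ap := h.Ap_pos
  obtain ⟨a1, a2⟩ := h.id1
  obtain ⟨b1, b2, b3⟩ := h.id2
  obtain ⟨c1, c2, c3⟩ := h.id3
  obtain ⟨d1, d2⟩ := h.N1_eq
  obtain ⟨e1, e2⟩ := h.N2_le
  have f1 := h.N1_le
  rw [← d2] at e2 f1
  set al := ∫ a, (1 - a ^ 2 / v a ^ 2) with hal
  set ga := ∫ a, (v a - a * rd v a) ^ 2 with hga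
  set N1 := ∫ a, (v a - a * rd v a) * (v a ^ 2 - a ^ 2) / v a ^ 3 with hN1
  set N2 := ∫ p, (1 - rd ℓ p ^ 2) / (ℓ p ^ 3 * (ℓ p - p * rd ℓ p)) with hN2
  -- integrands
  have g1 : ∀ a, (v a - a * rd v a) * (a ^ 2 - k ^ 2 * v a ^ 2) / v a ^ 3 =
      (1 - k ^ 2) * ((v a - a * rd v a) * a ^ 2 / v a ^ 3) -
        k ^ 2 * ((v a - a * rd v a) * (v a ^ 2 - a ^ 2) / v a ^ 3) := by
    intro a
    have := h.cv.pos a
    ring
  have g2 : ∀ p, (rd ℓ p ^ 2 - k ^ 2) / (ℓ p ^ 3 * (ℓ p - p * rd ℓ p)) =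
      (1 - k ^ 2) * (rd ℓ p ^ 2 / (ℓ p ^ 3 * (ℓ p - p * rd ℓ p))) -
        k ^ 2 * ((1 - rd ℓ p ^ 2) / (ℓ p ^ 3 * (ℓ p - p * rd ℓ p))) := by
    intro p
    ring
  have g3 : ∀ p, 1 / (ℓ p ^ 3 * (ℓ p - p * rd ℓ p)) =
      rd ℓ p ^ 2 / (ℓ p ^ 3 * (ℓ p - p * rd ℓ p)) +
        (1 - rd ℓ p ^ 2) / (ℓ p ^ 3 * (ℓ p - p * rd ℓ p)) := by
    intro p
    ring
  have i1 : Integrable (fun a => (v a - a * rd v a) * (a ^ 2 - k ^ 2 * v a ^ 2) / v a ^ 3) := by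
    rw [funext g1]
    exact (c2.const_mul _).sub (d1.const_mul _)
  have i2 : Integrable (fun p => (rd ℓ p ^ 2 - k ^ 2) / (ℓ p ^ 3 * (ℓ p - p * rd ℓ p))) := by
    rw [funext g2]
    exact (b2.const_mul _).sub (e1.const_mul _)
  have i3 : Integrable (fun p => 1 / (ℓ p ^ 3 * (ℓ p - p * rd ℓ p))) := by
    rw [funext g3]
    exact b2.add e1
  have v1 : E1 = 2 / A * ((1 - k ^ 2) * (1 / 2 * al) - k ^ 2 * N1) := by
    change 2 / A * _ = _
    rw [integral_congr_ae (Eventually.of_forall g1),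
      integral_sub (c2.const_mul _) (d1.const_mul _), integral_const_mul, integral_const_mul, c3]
  have v2 : E2 = 2 / Ap * ((1 - k ^ 2) * (1 / 2 * ga) - k ^ 2 * N2) := by
    change 2 / Ap * _ = _
    rw [integral_congr_ae (Eventually.of_forall g2),
      integral_sub (b2.const_mul _) (e1.const_mul _), integral_const_mul, integral_const_mul, b3]
  have v3 : W = 1 / Ap * (1 / 2 * ga + N2) := by
    change 1 / Ap * _ = _
    rw [integral_congr_ae (Eventually.of_forall g3), integral_add b2 e1, b3]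
  have hsq := sq_ineq v (rd v) h.cv.pos h.cv.integrable_inv_sq a1 c1 b1 hA (by rw [a2]; exact hAp)
  simp only at hsq
  rw [a2] at hsq
  obtain ⟨s1, s2⟩ := hsq
  change 1 / A ^ 2 * (Real.pi - √(A * Ap)) ^ 2 ≤ ga / Ap - al / A at s1
  change ga ≤ 2 * (Ap / A) * (A * (ga / Ap - al / A) + Ap) at s2
  set d := ga / Ap - al / A with hd
  have hW0 : 0 ≤ W := by
    apply mul_nonneg (by positivity)
    apply integral_nonneg
    intro p
    have := h.cl.pos p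
    have := h.y_pos p
    simp only [Pi.zero_apply]
    positivity
  refine ⟨i1, i2, i3, hW0, ?_⟩
  change A * N2 ≤ Ap * N1 at e2
  change N1 ≤ 16 / A at f1
  rw [v1, v2, v3]
  exact planar_alg hA hAp hk0 hk1 (sq_nonneg _) e2 f1 s1 s2

end VLC

end Pool.Agent.Helper76.BL
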