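import Pool.Agent.Helper76.BL.Dual

/-!
# Planar inequalities for the Barker-Larman theorem (MP_70efd9_gt): integral identities
-/

set_option autoImplicit false

open Set MeasureTheory Filter Topology

namespace Pool.Agent.Helper76.BL

namespace Chart

variable {v : ℝ → ℝ}

lemma tendsto_inv_atTop (h : Chart v) : Tendsto (fun a => (v a)⁻¹) atTop (𝓝 0) :=
  tendsto_inv_atTop_zero.comp (tendsto_atTop_mono h.ge_abs tendsto_abs_atTop_atTop)

lemma tendsto_inv_atBot (h : Chart v) : Tendsto (fun a => (v a)⁻¹) atBot (𝓝 0) :=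
  tendsto_inv_atTop_zero.comp (tendsto_atTop_mono h.ge_abs tendsto_abs_atBot_atTop)

/-- domination by `v⁻²` -/
lemma integrable_of_le (h : Chart v) {f : ℝ → ℝ} (hf : Measurable f) (M : ℝ)
    (hM : ∀ a, |f a| ≤ M * (v a ^ 2)⁻¹) : Integrable f :=
  Integrable.mono' (h.integrable_inv_sq.const_mul M) hf.aestronglyMeasurable
    (Eventually.of_forall fun a => by rw [Real.norm_eq_abs]; exact hM a)

lemma Y_le (h : Chart v) (a : ℝ) : v a - a * rd v a ≤ v 0 := by
  have := h.subgrad a 0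
  linarith

lemma hd_inv_sq (h : Chart v) (a : ℝ) :
    HasDerivWithinAt (fun a => (v a ^ 2)⁻¹) (-(2 * rd v a) / v a ^ 3) (Ioi a) a := by
  have hv := h.pos a
  have h3 : HasDerivWithinAt (fun a => v a ^ 2) (2 * v a * rd v a) (Ioi a) a := by
    have h4 := (h.hd a).pow 2
    have e : ((2 : ℕ) : ℝ) * v a ^ (2 - 1) * rd v a = 2 * v a * rd v a := by norm_num
    rw [e] at h4
    exact h4
  have h5 := h3.inv (pow_pos hv 2).ne'
  have e : -(2 * v a * rd v a) / (v a ^ 2) ^ 2 = -(2 * rd v a) / v a ^ 3 := by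
    field_simp
  rw [e] at h5
  exact h5

end Chart

namespace VLC

variable {v ℓ : ℝ → ℝ} {C : ℝ}

lemma meas_v (h : VLC v ℓ C) : Measurable v := h.cv.cont.measurable
lemma meas_l (h : VLC v ℓ C) : Measurable ℓ := h.cl.cont.measurable

/-- `∫ (1 - v'²) = ∫ ℓ⁻²` -/
theorem id1 (h : VLC v ℓ C) : Integrable (fun a => 1 - rd v a ^ 2) ∧
    ∫ a, (1 - rd v a ^ 2) = ∫ p, (ℓ p ^ 2)⁻¹ := by
  have hmr := h.cl.meas_rd
  have hml := h.meas_l
  have hφ : Integrable (fun p => -(2 * p * (ℓ p - p * rd ℓ p)) / ℓ p ^ 3) := by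
    refine h.cl.integrable_of_le (by fun_prop) (2 * ℓ 0) fun p => ?_
    have hl := h.cl.pos p
    have h1 := h.cl.Y_nonneg p
    have h2 := h.cl.Y_le p
    rw [abs_div, abs_neg, abs_mul, abs_mul, abs_of_pos (by positivity : (0 : ℝ) < 2),
      abs_of_nonneg h1, abs_of_pos (pow_pos hl 3), div_le_iff₀ (pow_pos hl 3)]
    have h3 := h.cl.ge_abs p
    have e : 2 * ℓ 0 * (ℓ p ^ 2)⁻¹ * ℓ p ^ 3 = 2 * ℓ 0 * ℓ p := by field_simp
    rw [e]
    have h4 : |p| * (ℓ p - p * rd ℓ p) ≤ ℓ p * ℓ 0 := mul_le_mul h3 h2 h1 hl.le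
    nlinarith
  have hαφ : Integrable (fun p => alp ℓ p * (-(2 * p * (ℓ p - p * rd ℓ p)) / ℓ p ^ 3)) := by
    refine h.cl.integrable_of_le (by unfold alp; fun_prop) 2 fun p => ?_
    have hl := h.cl.pos p
    have hy := h.y_pos p
    have e : alp ℓ p * (-(2 * p * (ℓ p - p * rd ℓ p)) / ℓ p ^ 3) =
        -(2 * (p * rd ℓ p)) / ℓ p ^ 3 := by
      unfold alp; generalize ℓ p - p * rd ℓ p = y at hy ⊢; field_simp
    rw [e, abs_div, abs_neg, abs_mul, abs_of_pos (by positivity : (0 : ℝ) < 2),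
      abs_of_pos (pow_pos hl 3), div_le_iff₀ (pow_pos hl 3)]
    have e2 : 2 * (ℓ p ^ 2)⁻¹ * ℓ p ^ 3 = 2 * ℓ p := by field_simp
    rw [e2, abs_mul]
    have h4 : |p| * |rd ℓ p| ≤ ℓ p * 1 :=
      mul_le_mul (h.cl.ge_abs p) (h.cl.abs_rd p) (abs_nonneg _) hl.le
    linarith
  have hF : Continuous (fun p => 1 - (p / ℓ p) ^ 2) :=
    continuous_const.sub ((continuous_id.div h.cl.cont fun p => (h.cl.pos p).ne').pow 2)
  have hFd : ∀ p, HasDerivWithinAt (fun p => 1 - (p / ℓ p) ^ 2)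
      (-(2 * p * (ℓ p - p * rd ℓ p)) / ℓ p ^ 3) (Ioi p) p := by
    intro p
    have hl := h.cl.pos p
    have h3 := ((h.cl.hd_div p).pow 2).const_sub 1
    have e : -(((2 : ℕ) : ℝ) * (p / ℓ p) ^ (2 - 1) * ((ℓ p - p * rd ℓ p) / ℓ p ^ 2)) =
        -(2 * p * (ℓ p - p * rd ℓ p)) / ℓ p ^ 3 := by
      norm_num
      field_simp
    rw [e] at h3
    exact h3
  have hlim1 : Tendsto (fun p => 1 - (p / ℓ p) ^ 2) atBot (𝓝 0) := by
    have := (h.cl.tendsto_div_atBot.pow 2).const_sub 1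
    norm_num at this
    exact this
  have hlim2 : Tendsto (fun p => 1 - (p / ℓ p) ^ 2) atTop (𝓝 0) := by
    have := (h.cl.tendsto_div_atTop.pow 2).const_sub 1
    norm_num at this
    exact this
  obtain ⟨i1, i2⟩ := h.dual_int (W := fun a => 1 - rd v a ^ 2) hF hFd hφ hαφ hlim1 hlim2 (by
    intro a D hD
    have hrd := h.rd_eq hD
    constructor
    · intro hY
      have h1 := h.dv a (by rw [hrd]; exact hY)
      rw [hrd] at h1
      simp only [hrd, h1]
      generalize v a - a * D = Z at hY ⊢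
      field_simp
    · intro hY
      have hva : v a = |a| := h.cv.Y_pos_iff a (by rw [hrd, hY])
      have hva0 := h.cv.pos a
      have ha : a ≠ 0 := by
        intro h0
        rw [h0] at hva
        simp at hva
        linarith [h.cv.pos0]
      simp only [hrd]
      have e1 : a * D = |a| := by linarith
      have e2 : a ^ 2 * D ^ 2 = a ^ 2 := by
        rw [← mul_pow, e1, sq_abs]
      have e3 : D ^ 2 = 1 := by
        have : a ^ 2 ≠ 0 := pow_ne_zero 2 ha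
        exact mul_left_cancel₀ this (by rw [e2, mul_one])
      rw [e3, sub_self])
  refine ⟨i1, ?_⟩
  rw [i2]
  -- `(p/ℓ²)' = ℓ⁻² - 2 p ℓ'/ℓ³`
  have hint : Integrable (fun p => 2 * (p * rd ℓ p) / ℓ p ^ 3) := by
    refine hαφ.neg.congr (Eventually.of_forall fun p => ?_)
    have hl := h.cl.pos p
    have hy := h.y_pos p
    simp only [Pi.neg_apply]
    unfold alp; generalize ℓ p - p * rd ℓ p = y at hy ⊢; field_simp
  have hG : ∀ p, HasDerivWithinAt (fun p => p / ℓ p ^ 2)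
      ((ℓ p ^ 2)⁻¹ - 2 * (p * rd ℓ p) / ℓ p ^ 3) (Ioi p) p := by
    intro p
    have hl := h.cl.pos p
    have h3 := (hasDerivWithinAt_id p (Ioi p)).mul (h.cl.hd_inv_sq p)
    have e : 1 * (ℓ p ^ 2)⁻¹ + id p * (-(2 * rd ℓ p) / ℓ p ^ 3) =
        (ℓ p ^ 2)⁻¹ - 2 * (p * rd ℓ p) / ℓ p ^ 3 := by
      simp only [id]; ring
    rw [e] at h3
    exact h3
  have hGc : Continuous (fun p => p / ℓ p ^ 2) :=
    continuous_id.div (h.cl.cont.pow 2) fun p => (pow_pos (h.cl.pos p) 2).ne'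
  have hsplit : ∀ p, p / ℓ p ^ 2 = p / ℓ p * (ℓ p)⁻¹ := by
    intro p
    have hl := h.cl.pos p
    field_simp
  have hG1 : Tendsto (fun p => p / ℓ p ^ 2) atBot (𝓝 0) := by
    have := h.cl.tendsto_div_atBot.mul h.cl.tendsto_inv_atBot
    rw [mul_zero] at this
    exact this.congr fun p => (hsplit p).symm
  have hG2 : Tendsto (fun p => p / ℓ p ^ 2) atTop (𝓝 0) := by
    have := h.cl.tendsto_div_atTop.mul h.cl.tendsto_inv_atTop
    rw [mul_zero] at this
    exact this.congr fun p => (hsplit p).symm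
  have h5 := ftc_eq hGc hG (h.cl.integrable_inv_sq.sub hint) hG1 hG2
  rw [integral_sub h.cl.integrable_inv_sq hint, sub_zero] at h5
  have h6 : -∫ p, alp ℓ p * (-(2 * p * (ℓ p - p * rd ℓ p)) / ℓ p ^ 3) =
      ∫ p, 2 * (p * rd ℓ p) / ℓ p ^ 3 := by
    rw [← integral_neg]
    apply integral_congr_ae
    filter_upwards with p
    have hl := h.cl.pos p
    have hy := h.y_pos p
    unfold alp; generalize ℓ p - p * rd ℓ p = y at hy ⊢; field_simp
  rw [h6]
  linarith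

/-- `∫ Y² da = 2 ∫ ℓ'² / (ℓ³ (ℓ - p ℓ'))` -/
theorem id2 (h : VLC v ℓ C) : Integrable (fun a => (v a - a * rd v a) ^ 2) ∧
    Integrable (fun p => rd ℓ p ^ 2 / (ℓ p ^ 3 * (ℓ p - p * rd ℓ p))) ∧
    ∫ p, rd ℓ p ^ 2 / (ℓ p ^ 3 * (ℓ p - p * rd ℓ p)) =
      1 / 2 * ∫ a, (v a - a * rd v a) ^ 2 := by
  have hmr := h.cl.meas_rd
  have hml := h.meas_l
  have hφ : Integrable (fun p => -(2 * rd ℓ p) / ℓ p ^ 3) := by
    refine h.cl.integrable_of_le (by fun_prop) (2 * (ℓ 0 / 2)⁻¹) fun p => ?_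
    have hl := h.cl.pos p
    have hl0 := h.cl.pos0
    rw [abs_div, abs_neg, abs_mul, abs_of_pos (by positivity : (0 : ℝ) < 2),
      abs_of_pos (pow_pos hl 3), div_le_iff₀ (pow_pos hl 3)]
    have e : 2 * (ℓ 0 / 2)⁻¹ * (ℓ p ^ 2)⁻¹ * ℓ p ^ 3 = 2 * (ℓ p / (ℓ 0 / 2)) := by field_simp
    rw [e]
    have h4 : 1 ≤ ℓ p / (ℓ 0 / 2) := by
      rw [one_le_div (by positivity)]
      exact h.cl.half_le p
    have h5 := h.cl.abs_rd p
    linarith
  have hαφ : Integrable (fun p => alp ℓ p * (-(2 * rd ℓ p) / ℓ p ^ 3)) := by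
    refine h.cl.integrable_of_le (by unfold alp; fun_prop) (2 * C) fun p => ?_
    have hl := h.cl.pos p
    have hy := h.y_pos p
    have e : alp ℓ p * (-(2 * rd ℓ p) / ℓ p ^ 3) =
        -(2 * rd ℓ p ^ 2 / (ℓ p ^ 3 * (ℓ p - p * rd ℓ p))) := by
      unfold alp; generalize ℓ p - p * rd ℓ p = y at hy ⊢; field_simp
    rw [e, abs_neg, abs_of_nonneg (by positivity), div_le_iff₀ (by positivity)]
    have e2 : 2 * C * (ℓ p ^ 2)⁻¹ * (ℓ p ^ 3 * (ℓ p - p * rd ℓ p)) =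
        2 * (C * (ℓ p * (ℓ p - p * rd ℓ p))) := by field_simp
    rw [e2]
    have h4 := h.hl p
    have h5 : rd ℓ p ^ 2 ≤ 1 := by
      rw [← sq_abs]
      exact pow_le_one₀ (abs_nonneg _) (h.cl.abs_rd p)
    linarith
  have hF : Continuous (fun p => (ℓ p ^ 2)⁻¹) :=
    (h.cl.cont.pow 2).inv₀ fun p => (pow_pos (h.cl.pos p) 2).ne'
  have hlim1 : Tendsto (fun p => (ℓ p ^ 2)⁻¹) atBot (𝓝 0) := by
    have := h.cl.tendsto_inv_atBot.pow 2
    norm_num at this
    exact this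
  have hlim2 : Tendsto (fun p => (ℓ p ^ 2)⁻¹) atTop (𝓝 0) := by
    have := h.cl.tendsto_inv_atTop.pow 2
    norm_num at this
    exact this
  obtain ⟨i1, i2⟩ := h.dual_int (W := fun a => (v a - a * rd v a) ^ 2) hF
    (fun p => h.cl.hd_inv_sq p) hφ hαφ hlim1 hlim2 (by
    intro a D hD
    have hrd := h.rd_eq hD
    constructor
    · intro hY
      have h1 := h.dv a (by rw [hrd]; exact hY)
      rw [hrd] at h1
      simp only [hrd, h1]
      field_simp
    · intro hY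
      simp only [hrd, hY]
      norm_num)
  have hint : Integrable (fun p => rd ℓ p ^ 2 / (ℓ p ^ 3 * (ℓ p - p * rd ℓ p))) := by
    refine (hαφ.const_mul (-(1 / 2))).congr (Eventually.of_forall fun p => ?_)
    have hl := h.cl.pos p
    have hy := h.y_pos p
    simp only
    unfold alp; generalize ℓ p - p * rd ℓ p = y at hy ⊢; field_simp
  refine ⟨i1, hint, ?_⟩
  rw [i2, ← integral_neg, ← integral_const_mul]
  apply integral_congr_ae
  filter_upwards with p
  have hl := h.cl.pos p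
  have hy := h.y_pos p
  unfold alp; generalize ℓ p - p * rd ℓ p = y at hy ⊢; field_simp

end VLC

end Pool.Agent.Helper76.BL
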