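import Pool.Agent.Helper76.BL.VL
import Pool.Agent.Helper76.BL.FTC

/-!
# Planar inequalities for the Barker-Larman theorem (MP_70efd9_gt): dual charts and Legendre
transforms
-/

set_option autoImplicit false

open Set MeasureTheory Filter Topology

namespace Pool.Agent.Helper76.BL

/-- a pair of dual charts -/
structure VL (v ℓ : ℝ → ℝ) : Prop where
  cv : Chart v
  cl : Chart ℓ
  pol : ∀ a p, 1 + a * p ≤ v a * ℓ p
  dv : ∀ a, 0 < v a - a * rd v a → ℓ (rd v a / (v a - a * rd v a)) = 1 / (v a - a * rd v a)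
  dl : ∀ p, 0 < ℓ p - p * rd ℓ p → v (rd ℓ p / (ℓ p - p * rd ℓ p)) = 1 / (ℓ p - p * rd ℓ p)

lemma VL.symm {v ℓ : ℝ → ℝ} (h : VL v ℓ) : VL ℓ v :=
  ⟨h.cl, h.cv, fun a p => by have := h.pol p a; linarith [mul_comm a p, mul_comm (ℓ a) (v p)],
    h.dl, h.dv⟩

/-- Legendre transform: the upper boundary function -/
noncomputable def leg (ℓ : ℝ → ℝ) (x : ℝ) : ℝ := ⨅ p, (ℓ p - p * x)

namespace Chart

variable {ℓ : ℝ → ℝ}

lemma leg_lower (h : Chart ℓ) {x : ℝ} (hx : x ∈ Icc (-1 : ℝ) 1) (p : ℝ) :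
    ℓ 0 / 2 * (1 - |x|) ≤ ℓ p - p * x := by
  have hx' : |x| ≤ 1 := abs_le.2 hx
  have h1 : p * x ≤ ℓ p * |x| := by
    calc p * x ≤ |p * x| := le_abs_self _
      _ = |p| * |x| := abs_mul _ _
      _ ≤ ℓ p * |x| := mul_le_mul_of_nonneg_right (h.ge_abs p) (abs_nonneg _)
  have h2 : ℓ 0 / 2 * (1 - |x|) ≤ ℓ p * (1 - |x|) :=
    mul_le_mul_of_nonneg_right (h.half_le p) (by linarith)
  nlinarith

lemma bdd (h : Chart ℓ) {x : ℝ} (hx : x ∈ Icc (-1 : ℝ) 1) :
    BddBelow (range fun p => ℓ p - p * x) :=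
  ⟨ℓ 0 / 2 * (1 - |x|), by rintro _ ⟨p, rfl⟩; exact h.leg_lower hx p⟩

lemma leg_le (h : Chart ℓ) {x : ℝ} (hx : x ∈ Icc (-1 : ℝ) 1) (p : ℝ) :
    leg ℓ x ≤ ℓ p - p * x := ciInf_le (h.bdd hx) p

lemma le_leg (h : Chart ℓ) {x : ℝ} (hx : x ∈ Icc (-1 : ℝ) 1) :
    ℓ 0 / 2 * (1 - |x|) ≤ leg ℓ x := le_ciInf fun p => h.leg_lower hx p

lemma leg_pos (h : Chart ℓ) {x : ℝ} (hx : x ∈ Ioo (-1 : ℝ) 1) : 0 < leg ℓ x := by
  refine lt_of_lt_of_le ?_ (h.le_leg (Ioo_subset_Icc_self hx))
  have : |x| < 1 := abs_lt.2 hx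
  have := h.pos0
  apply mul_pos (by positivity)
  linarith

lemma leg_nonneg (h : Chart ℓ) {x : ℝ} (hx : x ∈ Icc (-1 : ℝ) 1) : 0 ≤ leg ℓ x := by
  refine le_trans ?_ (h.le_leg hx)
  have : |x| ≤ 1 := abs_le.2 hx
  have := h.pos0
  apply mul_nonneg (by positivity)
  linarith

lemma leg_concave (h : Chart ℓ) : ConcaveOn ℝ (Icc (-1) 1) (leg ℓ) := by
  refine ⟨convex_Icc _ _, fun x hx y hy s t hs ht hst => ?_⟩
  refine le_ciInf fun p => ?_
  have h1 := h.leg_le hx p
  have h2 := h.leg_le hy p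
  simp only [smul_eq_mul]
  have h3 := mul_le_mul_of_nonneg_left h1 hs
  have h4 := mul_le_mul_of_nonneg_left h2 ht
  have h5 : s * (ℓ p - p * x) + t * (ℓ p - p * y) = ℓ p - p * (s * x + t * y) := by
    have : s = 1 - t := by linarith
    subst this
    ring
  linarith

/-- continuity up to the boundary -/
lemma leg_cont (h : Chart ℓ) : ContinuousOn (leg ℓ) (Icc (-1) 1) := by
  have hint : ContinuousOn (leg ℓ) (Ioo (-1) 1) := by
    have := h.leg_concave.subset Ioo_subset_Icc_self (convex_Ioo _ _)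
    exact this.continuousOn isOpen_Ioo
  intro x hx
  by_cases hin : x ∈ Ioo (-1 : ℝ) 1
  · exact (hint.continuousAt (isOpen_Ioo.mem_nhds hin)).continuousWithinAt
  -- upper semicontinuity everywhere
  rw [ContinuousWithinAt, tendsto_order]
  have hL0 : 0 ≤ leg ℓ x := h.leg_nonneg hx
  have hz0 : (0 : ℝ) ∈ Icc (-1 : ℝ) 1 := by norm_num
  constructor
  · -- lower semicontinuity at the end points
    intro u hu
    -- leg z ≥ |z| leg x for z of the same sign
    have hx1 : |x| = 1 := by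
      rcases eq_or_lt_of_le hx.1 with h1 | h1
      · rw [← h1]; norm_num
      rcases eq_or_lt_of_le hx.2 with h2 | h2
      · rw [h2]; norm_num
      · exact absurd ⟨h1, h2⟩ hin
    have hxx : x * x = 1 := by rw [← abs_mul_abs_self, hx1]; norm_num
    have hlow : ∀ z ∈ Icc (-1 : ℝ) 1, 0 ≤ z * x → (z * x) * leg ℓ x ≤ leg ℓ z := by
      intro z hz hzx
      have hzx1 : z * x ≤ 1 := by
        calc z * x ≤ |z * x| := le_abs_self _
          _ = |z| * |x| := abs_mul _ _
          _ ≤ 1 := by rw [hx1, mul_one]; exact abs_le.2 hz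
      have := h.leg_concave.2 hx hz0 hzx (by linarith : 0 ≤ 1 - z * x) (by ring)
      simp only [smul_eq_mul, mul_zero, add_zero] at this
      have e : z * x * x = z := by rw [mul_assoc, hxx, mul_one]
      rw [e] at this
      have h0 : 0 ≤ (1 - z * x) * leg ℓ 0 :=
        mul_nonneg (by linarith) (h.leg_nonneg hz0)
      linarith
    have ht : Tendsto (fun z => (z * x) * leg ℓ x) (𝓝[Icc (-1) 1] x) (𝓝 (leg ℓ x)) := by
      have : Tendsto (fun z => (z * x) * leg ℓ x) (𝓝 x) (𝓝 ((x * x) * leg ℓ x)) := by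
        apply Continuous.tendsto; fun_prop
      rw [hxx, one_mul] at this
      exact this.mono_left nhdsWithin_le_nhds
    have hpos : ∀ᶠ z in 𝓝[Icc (-1) 1] x, 0 ≤ z * x := by
      have : Tendsto (fun z => z * x) (𝓝 x) (𝓝 (x * x)) := by
        apply Continuous.tendsto; fun_prop
      rw [hxx] at this
      exact (this.eventually (lt_mem_nhds (show (0 : ℝ) < 1 by norm_num))).filter_mono
        nhdsWithin_le_nhds |>.mono fun z hz => hz.le
    filter_upwards [ht.eventually (lt_mem_nhds hu), hpos, self_mem_nhdsWithin] with z h1 h2 h3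
    exact lt_of_lt_of_le h1 (hlow z h3 h2)
  · intro u hu
    obtain ⟨p, hp⟩ := exists_lt_of_ciInf_lt hu
    have ht : Tendsto (fun z => ℓ p - p * z) (𝓝[Icc (-1) 1] x) (𝓝 (ℓ p - p * x)) := by
      have : Tendsto (fun z => ℓ p - p * z) (𝓝 x) (𝓝 (ℓ p - p * x)) := by
        apply Continuous.tendsto; fun_prop
      exact this.mono_left nhdsWithin_le_nhds
    filter_upwards [ht.eventually (gt_mem_nhds hp), self_mem_nhdsWithin] with z h1 h3
    exact lt_of_le_of_lt (h.leg_le h3 p) h1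

/-- the abscissa of the boundary point in direction `(a, 1)` -/
lemma abs_div_le (h : Chart ℓ) (a : ℝ) : a / ℓ a ∈ Icc (-1 : ℝ) 1 := by
  have h1 : |a / ℓ a| ≤ 1 := by
    rw [abs_div, abs_of_pos (h.pos a), div_le_one (h.pos a)]
    exact h.ge_abs a
  exact abs_le.1 h1

lemma div_mem_Ioo (h : Chart ℓ) {a : ℝ} (ha : |a| < ℓ a) : a / ℓ a ∈ Ioo (-1 : ℝ) 1 := by
  have h1 : |a / ℓ a| < 1 := by
    rw [abs_div, abs_of_pos (h.pos a), div_lt_one (h.pos a)]
    exact ha
  exact abs_lt.1 h1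

lemma tendsto_div_atTop (h : Chart ℓ) : Tendsto (fun a => a / ℓ a) atTop (𝓝 1) := by
  have h1 : Tendsto (fun a : ℝ => a / (a + ℓ 0)) atTop (𝓝 1) := by
    have : Tendsto (fun a : ℝ => 1 - ℓ 0 / (a + ℓ 0)) atTop (𝓝 (1 - 0)) := by
      apply Tendsto.const_sub
      exact Tendsto.const_div_atTop (tendsto_atTop_add_const_right _ _ tendsto_id) _
    rw [sub_zero] at this
    refine this.congr' ?_
    filter_upwards [eventually_gt_atTop 0] with a ha
    have := h.pos0
    field_simp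
    ring
  refine tendsto_of_tendsto_of_tendsto_of_le_of_le' h1 tendsto_const_nhds ?_ ?_
  · filter_upwards [eventually_gt_atTop 0] with a ha
    have h2 := h.upper a
    rw [abs_of_pos ha] at h2
    exact div_le_div_of_nonneg_left ha.le (h.pos a) h2
  · filter_upwards with a
    exact (h.abs_div_le a).2

lemma tendsto_div_atBot (h : Chart ℓ) : Tendsto (fun a => a / ℓ a) atBot (𝓝 (-1)) := by
  have h1 : Tendsto (fun a : ℝ => a / (-a + ℓ 0)) atBot (𝓝 (-1)) := by
    have : Tendsto (fun a : ℝ => -1 + ℓ 0 / (-a + ℓ 0)) atBot (𝓝 (-1 + 0)) := by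
      apply Tendsto.const_add
      exact Tendsto.const_div_atTop (tendsto_atTop_add_const_right _ _ tendsto_neg_atBot_atTop) _
    rw [add_zero] at this
    refine this.congr' ?_
    filter_upwards [eventually_lt_atBot 0] with a ha
    have := h.pos0
    have : 0 < -a := by linarith
    field_simp
    ring
  refine tendsto_of_tendsto_of_tendsto_of_le_of_le' tendsto_const_nhds h1 ?_ ?_
  · filter_upwards with a
    exact (h.abs_div_le a).1
  · filter_upwards [eventually_lt_atBot 0] with a ha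
    have h2 := h.upper a
    rw [abs_of_neg ha] at h2
    rw [div_le_div_iff₀ (h.pos a) (by have := h.pos0; linarith)]
    nlinarith

/-- right derivative of `a / ℓ a` -/
lemma hd_div (h : Chart ℓ) (a : ℝ) :
    HasDerivWithinAt (fun a => a / ℓ a) ((ℓ a - a * rd ℓ a) / ℓ a ^ 2) (Ioi a) a := by
  have := (hasDerivWithinAt_id a (Ioi a)).div (h.hd a) (h.pos a).ne'
  have e : (1 * ℓ a - id a * rd ℓ a) / ℓ a ^ 2 = (ℓ a - a * rd ℓ a) / ℓ a ^ 2 := by
    simp
  rw [← e]
  exact this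

lemma mono_div (h : Chart ℓ) : Monotone (fun a => a / ℓ a) := by
  have hc : Continuous (fun a => a / ℓ a) := continuous_id.div h.cont fun a => (h.pos a).ne'
  intro a b hab
  have := intervalIntegral.integral_le_sub_of_hasDeriv_right_of_le (φ := fun _ => (0 : ℝ)) hab
    hc.continuousOn (fun x _ => h.hd_div x) (by simp) (fun x _ => by
      have := h.Y_nonneg x
      positivity)
  simp at this
  exact this

end Chart

end Pool.Agent.Helper76.BL
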