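import Mathlib

/-!
# Planar inequalities for the Barker-Larman theorem (MP_70efd9_gt): the complete square
-/

set_option autoImplicit false

open Set MeasureTheory Filter Topology

namespace Pool.Agent.Helper76.BL

lemma int_cauchy {s : ℝ} (hs : 0 < s) : Integrable (fun a : ℝ => s ^ 2 / (a ^ 2 + s ^ 2)) ∧
    ∫ a : ℝ, s ^ 2 / (a ^ 2 + s ^ 2) = s * Real.pi := by
  have h1 : (fun a : ℝ => s ^ 2 / (a ^ 2 + s ^ 2)) = fun a => (1 + (a / s) ^ 2)⁻¹ := by
    ext a
    have : 0 < a ^ 2 + s ^ 2 := by positivity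
    field_simp
    ring
  constructor
  · rw [h1]
    exact integrable_inv_one_add_sq.comp_div hs.ne'
  · rw [h1]
    have := Measure.integral_comp_div (fun x : ℝ => (1 + x ^ 2)⁻¹) s
    rw [this, integral_univ_inv_one_add_sq, abs_of_pos hs, smul_eq_mul]

theorem sq_ineq (v p : ℝ → ℝ) (hv : ∀ a, 0 < v a)
    (i1 : Integrable fun a => (v a ^ 2)⁻¹) (i2 : Integrable fun a => 1 - p a ^ 2)
    (i3 : Integrable fun a => 1 - a ^ 2 / (v a) ^ 2)
    (i4 : Integrable fun a => (v a - a * p a) ^ 2)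
    (hA : 0 < ∫ a, (v a ^ 2)⁻¹) (hAp : 0 < ∫ a, (1 - p a ^ 2)) :
    let A := ∫ a, (v a ^ 2)⁻¹
    let Ap := ∫ a, (1 - p a ^ 2)
    let Pp := ∫ a, (1 - a ^ 2 / (v a) ^ 2)
    let W := ∫ a, (v a - a * p a) ^ 2
    1 / A ^ 2 * (Real.pi - √(A * Ap)) ^ 2 ≤ W / Ap - Pp / A ∧
      W ≤ 2 * (Ap / A) * (A * (W / Ap - Pp / A) + Ap) := by
  intro A Ap Pp W
  have hA' : 0 < A := hA
  have hAp' : 0 < Ap := hAp
  set s := √(Ap / A) with hs
  have hs2 : s ^ 2 = Ap / A := Real.sq_sqrt (by positivity)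
  have hspos : 0 < s := Real.sqrt_pos.2 (by positivity)
  -- the square
  have hid : ∀ a, (a / v a - p a) ^ 2 + (s / v a - (v a - a * p a) / s) ^ 2 =
      -(1 - a ^ 2 / v a ^ 2) - (1 - p a ^ 2) + s ^ 2 * (v a ^ 2)⁻¹ +
        (v a - a * p a) ^ 2 / s ^ 2 := by
    intro a
    have := hv a
    field_simp
    ring
  have hint : Integrable (fun a => (a / v a - p a) ^ 2 + (s / v a - (v a - a * p a) / s) ^ 2) := by
    have : (fun a => (a / v a - p a) ^ 2 + (s / v a - (v a - a * p a) / s) ^ 2) = fun a =>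
      -(1 - a ^ 2 / v a ^ 2) - (1 - p a ^ 2) + s ^ 2 * (v a ^ 2)⁻¹ +
        (v a - a * p a) ^ 2 / s ^ 2 := funext hid
    rw [this]
    exact (((i3.neg.sub i2).add (i1.const_mul _)).add (i4.div_const _))
  have hval : ∫ a, ((a / v a - p a) ^ 2 + (s / v a - (v a - a * p a) / s) ^ 2) =
      A * (W / Ap - Pp / A) := by
    rw [integral_congr_ae (Eventually.of_forall hid)]
    have j0 : Integrable (fun a => -(1 - a ^ 2 / v a ^ 2)) := i3.neg
    have j1 : Integrable (fun a => -(1 - a ^ 2 / v a ^ 2) - (1 - p a ^ 2)) := j0.sub i2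
    have j2 : Integrable (fun a => s ^ 2 * (v a ^ 2)⁻¹) := i1.const_mul _
    have j3 : Integrable (fun a => (v a - a * p a) ^ 2 / s ^ 2) := i4.div_const _
    have j12 : Integrable (fun a => -(1 - a ^ 2 / v a ^ 2) - (1 - p a ^ 2) +
      s ^ 2 * (v a ^ 2)⁻¹) := j1.add j2
    rw [integral_add j12 j3, integral_add j1 j2, integral_sub j0 i2,
      integral_div, integral_const_mul, integral_neg]
    change -Pp - Ap + s ^ 2 * A + W / s ^ 2 = _
    rw [hs2]
    field_simp
    ring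
  set d := A * (W / Ap - Pp / A) with hd
  -- first estimate
  set m := √(A * Ap) / Real.pi with hm
  have hpi := Real.pi_pos
  have hP2 : √(A * Ap) ^ 2 = A * Ap := Real.sq_sqrt (by positivity)
  have hPpos : 0 < √(A * Ap) := Real.sqrt_pos.2 (by positivity)
  have hmpos : 0 < m := by positivity
  obtain ⟨c1, c2⟩ := int_cauchy hspos
  have hlow : ∀ a, (1 - 1 / m ^ 2) * s ^ 2 * (v a ^ 2)⁻¹ +
      (2 / m - 2) * (s ^ 2 / (a ^ 2 + s ^ 2)) ≤
      (a / v a - p a) ^ 2 + (s / v a - (v a - a * p a) / s) ^ 2 := by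
    intro a
    have hva := hv a
    have hq : 0 < a ^ 2 + s ^ 2 := by positivity
    -- Cauchy-Schwarz
    have h1 : ((a ^ 2 + s ^ 2) / v a - v a) ^ 2 / (a ^ 2 + s ^ 2) ≤
        (a / v a - p a) ^ 2 + (s / v a - (v a - a * p a) / s) ^ 2 := by
      rw [div_le_iff₀ hq]
      have e : (a ^ 2 + s ^ 2) / v a - v a =
          a * (a / v a - p a) + s * (s / v a - (v a - a * p a) / s) := by
        field_simp
        ring
      rw [e]
      nlinarith [sq_nonneg (s * (a / v a - p a) - a * (s / v a - (v a - a * p a) / s))]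
    refine le_trans ?_ h1
    -- the tangent line
    set t := (a ^ 2 + s ^ 2) / v a ^ 2 with ht
    have htpos : 0 < t := by positivity
    have e1 : ((a ^ 2 + s ^ 2) / v a - v a) ^ 2 / (a ^ 2 + s ^ 2) = t - 2 + 1 / t := by
      rw [ht]; field_simp
      ring
    have e2 : (1 - 1 / m ^ 2) * s ^ 2 * (v a ^ 2)⁻¹ + (2 / m - 2) * (s ^ 2 / (a ^ 2 + s ^ 2)) =
        s ^ 2 / (a ^ 2 + s ^ 2) * (t - 2 + (2 / m - t / m ^ 2)) := by
      rw [ht]; field_simp
      ring
    rw [e1, e2]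
    have h2 : 2 / m - t / m ^ 2 ≤ 1 / t := by
      rw [← sub_nonneg]
      have : 1 / t - (2 / m - t / m ^ 2) = (t - m) ^ 2 / (t * m ^ 2) := by field_simp; ring
      rw [this]; positivity
    have h3 : 0 ≤ t - 2 + 1 / t := by
      have : t - 2 + 1 / t = (t - 1) ^ 2 / t := by field_simp; ring
      rw [this]; positivity
    have h4 : s ^ 2 / (a ^ 2 + s ^ 2) ≤ 1 := by
      rw [div_le_one hq]; nlinarith [sq_nonneg a]
    have h5 : 0 ≤ s ^ 2 / (a ^ 2 + s ^ 2) := by positivity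
    calc s ^ 2 / (a ^ 2 + s ^ 2) * (t - 2 + (2 / m - t / m ^ 2)) ≤
        s ^ 2 / (a ^ 2 + s ^ 2) * (t - 2 + 1 / t) :=
          mul_le_mul_of_nonneg_left (by linarith) h5
      _ ≤ 1 * (t - 2 + 1 / t) := mul_le_mul_of_nonneg_right h4 h3
      _ = _ := one_mul _
  have hd1 : s * Real.pi * (1 - m) ^ 2 / m ≤ d := by
    rw [← hval]
    have h6 := integral_mono ((i1.const_mul ((1 - 1 / m ^ 2) * s ^ 2)).add (c1.const_mul (2 / m - 2)))
      hint hlow
    simp only [Pi.add_apply] at h6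
    rw [integral_add (i1.const_mul _) (c1.const_mul _), integral_const_mul, integral_const_mul,
      c2] at h6
    refine le_trans (le_of_eq ?_) h6
    have hsA : s * A = m * Real.pi := by
      have h7 : s * A = √(A * Ap) := by
        have h8 : (s * A) ^ 2 = A * Ap := by rw [mul_pow, hs2]; field_simp
        rw [← h8, Real.sqrt_sq (by positivity)]
      rw [h7, hm]; field_simp
    have h9 : (1 - 1 / m ^ 2) * s ^ 2 * ∫ a, (v a ^ 2)⁻¹ =
        (1 - 1 / m ^ 2) * s * (m * Real.pi) := by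
      rw [← hsA]; ring
    rw [h9]
    field_simp
    ring
  constructor
  · have h1 : 1 / A ^ 2 * (Real.pi - √(A * Ap)) ^ 2 = s * Real.pi * (1 - m) ^ 2 / m / A := by
      have e1 : Real.pi - √(A * Ap) = Real.pi * (1 - m) := by rw [hm]; field_simp
      have e2 : s = √(A * Ap) / A := by
        have h8 : (s * A) ^ 2 = A * Ap := by rw [mul_pow, hs2]; field_simp
        rw [eq_div_iff hA'.ne', ← h8, Real.sqrt_sq (by positivity)]
      have e3 : √(A * Ap) = m * Real.pi := by rw [hm]; field_simp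
      rw [e1, e2, e3]
      field_simp
    rw [h1, div_le_iff₀ hA']
    refine hd1.trans (le_of_eq ?_)
    rw [hd]; ring
  · -- second estimate
    have h1 : ∀ a, (v a - a * p a) ^ 2 / s ^ 2 ≤
        2 * ((a / v a - p a) ^ 2 + (s / v a - (v a - a * p a) / s) ^ 2) +
          2 * s ^ 2 * (v a ^ 2)⁻¹ := by
      intro a
      have hva := hv a
      have e1 : (v a - a * p a) ^ 2 / s ^ 2 = ((v a - a * p a) / s) ^ 2 := by rw [div_pow]
      have e2 : 2 * s ^ 2 * (v a ^ 2)⁻¹ = 2 * (s / v a) ^ 2 := by field_simp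
      rw [e1, e2]
      nlinarith [sq_nonneg (s / v a - (v a - a * p a) / s + s / v a), sq_nonneg (a / v a - p a),
        sq_nonneg ((v a - a * p a) / s - 2 * (s / v a))]
    have h2 := integral_mono (i4.div_const (s ^ 2)) ((hint.const_mul 2).add
      (i1.const_mul (2 * s ^ 2))) h1
    simp only [Pi.add_apply] at h2
    rw [integral_div, integral_add (hint.const_mul 2) (i1.const_mul (2 * s ^ 2)),
      integral_const_mul, integral_const_mul, hval] at h2
    change W / s ^ 2 ≤ 2 * d + 2 * s ^ 2 * A at h2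
    rw [div_le_iff₀ (by positivity), hs2] at h2
    refine h2.trans (le_of_eq ?_)
    field_simp

end Pool.Agent.Helper76.BL
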