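import Pool.Agent.Helper76.BL.Ids
import Pool.Agent.Helper76.BL.Sq

/-!
# Planar inequalities for the Barker-Larman theorem (MP_70efd9_gt): the two sides of `D₁`
-/

set_option autoImplicit false

open Set MeasureTheory Filter Topology

namespace Pool.Agent.Helper76.BL

namespace VLC

variable {v ℓ : ℝ → ℝ} {C : ℝ}

lemma vY_le (h : VLC v ℓ C) (a : ℝ) : (v a - a * rd v a) ≤ C / v a := by
  rw [le_div_iff₀ (h.cv.pos a)]
  have := h.hv a
  linarith

lemma sq_sub_nonneg (h : VLC v ℓ C) (a : ℝ) : 0 ≤ v a ^ 2 - a ^ 2 := by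
  have := pow_le_pow_left₀ (abs_nonneg a) (h.cv.ge_abs a) 2
  rw [sq_abs] at this
  linarith

/-- `∫ (v - a v') a² / v³ = ½ ∫ (1 - a²/v²)` -/
theorem id3 (h : VLC v ℓ C) : Integrable (fun a => 1 - a ^ 2 / v a ^ 2) ∧
    Integrable (fun a => (v a - a * rd v a) * a ^ 2 / v a ^ 3) ∧
    ∫ a, (v a - a * rd v a) * a ^ 2 / v a ^ 3 = 1 / 2 * ∫ a, (1 - a ^ 2 / v a ^ 2) := by
  have hmr := h.cv.meas_rd
  have hmv := h.meas_v
  have hC := h.C_pos
  have i1 : Integrable (fun a => 1 - a ^ 2 / v a ^ 2) := by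
    refine h.cv.integrable_of_le (by fun_prop) C fun a => ?_
    have hv := h.cv.pos a
    have e : 1 - a ^ 2 / v a ^ 2 = (v a ^ 2 - a ^ 2) * (v a ^ 2)⁻¹ := by field_simp
    have h1 := h.sq_sub_nonneg a
    rw [e, abs_of_nonneg (by positivity)]
    exact mul_le_mul_of_nonneg_right (h.sq_sub_le a) (by positivity)
  have i2 : Integrable (fun a => (v a - a * rd v a) * a ^ 2 / v a ^ 3) := by
    refine h.cv.integrable_of_le (by fun_prop) C fun a => ?_
    have hv := h.cv.pos a
    have hY := h.cv.Y_nonneg a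
    have h1 := h.sq_sub_nonneg a
    rw [abs_of_nonneg (by positivity), div_le_iff₀ (by positivity)]
    have e : C * (v a ^ 2)⁻¹ * v a ^ 3 = C * v a := by field_simp
    rw [e]
    have h2 := h.hv a
    calc (v a - a * rd v a) * a ^ 2 ≤ (v a - a * rd v a) * v a ^ 2 :=
          mul_le_mul_of_nonneg_left (by linarith) hY
      _ = v a * (v a - a * rd v a) * v a := by ring
      _ ≤ C * v a := mul_le_mul_of_nonneg_right h2 hv.le
  refine ⟨i1, i2, ?_⟩
  set G : ℝ → ℝ := fun a => -((v a ^ 2 - a ^ 2) * (a / v a ^ 2)) with hG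
  have hGc : Continuous G := by
    have := h.cv.cont
    exact (((this.pow 2).sub (continuous_id.pow 2)).mul
      (continuous_id.div (this.pow 2) fun a => (pow_pos (h.cv.pos a) 2).ne')).neg
  have hGd : ∀ a, HasDerivWithinAt G (2 * ((v a - a * rd v a) * a ^ 2 / v a ^ 3) -
      (1 - a ^ 2 / v a ^ 2)) (Ioi a) a := by
    intro a
    have hv := h.cv.pos a
    have e1 : HasDerivWithinAt (fun a => v a ^ 2) (2 * v a * rd v a) (Ioi a) a := by
      have h4 := (h.cv.hd a).pow 2
      have e : ((2 : ℕ) : ℝ) * v a ^ (2 - 1) * rd v a = 2 * v a * rd v a := by norm_num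
      rw [e] at h4
      exact h4
    have e2 : HasDerivWithinAt (fun a : ℝ => a ^ 2) (2 * a) (Ioi a) a := by
      have h4 := (hasDerivWithinAt_id a (Ioi a)).pow 2
      have e : ((2 : ℕ) : ℝ) * id a ^ (2 - 1) * 1 = 2 * a := by norm_num
      rw [e] at h4
      exact h4
    have e3 := (e1.sub e2).mul ((hasDerivWithinAt_id a (Ioi a)).div e1 (pow_pos hv 2).ne')
    have e4 := e3.neg
    have e5 : -((2 * v a * rd v a - 2 * a) * (id a / v a ^ 2) +
        (v a ^ 2 - a ^ 2) * ((1 * v a ^ 2 - id a * (2 * v a * rd v a)) / (v a ^ 2) ^ 2)) =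
        2 * ((v a - a * rd v a) * a ^ 2 / v a ^ 3) - (1 - a ^ 2 / v a ^ 2) := by
      simp only [id]
      field_simp
      ring
    rw [← e5]
    exact e4
  have hGb : ∀ a, ‖G a‖ ≤ C * (v a)⁻¹ := by
    intro a
    have hv := h.cv.pos a
    have h1 := h.sq_sub_nonneg a
    rw [hG, Real.norm_eq_abs]
    simp only
    rw [abs_neg, abs_mul, abs_of_nonneg h1, abs_div, abs_of_pos (pow_pos hv 2)]
    apply mul_le_mul (h.sq_sub_le a) _ (by positivity) hC.le
    rw [div_le_iff₀ (pow_pos hv 2)]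
    have : (v a)⁻¹ * v a ^ 2 = v a := by field_simp
    rw [this]
    exact h.cv.ge_abs a
  have hl : Tendsto G atBot (𝓝 0) := by
    refine squeeze_zero_norm hGb ?_
    have := h.cv.tendsto_inv_atBot.const_mul C
    rwa [mul_zero] at this
  have hr : Tendsto G atTop (𝓝 0) := by
    refine squeeze_zero_norm hGb ?_
    have := h.cv.tendsto_inv_atTop.const_mul C
    rwa [mul_zero] at this
  have h5 := ftc_eq hGc hGd ((i2.const_mul 2).sub i1) hl hr
  rw [integral_sub (i2.const_mul 2) i1, integral_const_mul] at h5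
  linarith

/-- the function `(1 - x²)/y` -/
lemma kappa_bound (h : VLC v ℓ C) {x : ℝ} (hx : x ∈ Ioo (-1 : ℝ) 1) :
    (1 - x ^ 2) / leg ℓ x ≤ C * leg ℓ x := by
  obtain ⟨a, ha, rfl⟩ := h.exists_div hx
  have hv := h.cv.pos a
  rw [h.leg_div' ha]
  have h1 := h.sq_sub_le a
  have e1 : (1 - (a / v a) ^ 2) / (1 / v a) = (v a ^ 2 - a ^ 2) / v a := by
    field_simp
  rw [e1, mul_one_div]
  exact div_le_div_of_nonneg_right h1 hv.le

lemma kappa_cont (h : VLC v ℓ C) :
    ContinuousOn (fun x => (1 - x ^ 2) / leg ℓ x) (Icc (-1) 1) := by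
  intro x hx
  by_cases h0 : leg ℓ x = 0
  · have hend : x ^ 2 = 1 := by
      by_contra hne
      have : x ∈ Ioo (-1 : ℝ) 1 := by
        rcases eq_or_lt_of_le hx.1 with h1 | h1
        · exact absurd (by rw [← h1]; norm_num) hne
        rcases eq_or_lt_of_le hx.2 with h2 | h2
        · exact absurd (by rw [h2]; norm_num) hne
        · exact ⟨h1, h2⟩
      have := h.cl.leg_pos this
      linarith
    have hval : (1 - x ^ 2) / leg ℓ x = 0 := by rw [h0, div_zero]
    rw [ContinuousWithinAt, hval]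
    have hlim : Tendsto (fun z => C * leg ℓ z) (𝓝[Icc (-1) 1] x) (𝓝 0) := by
      have := (h.cl.leg_cont x hx).tendsto.const_mul C
      rwa [h0, mul_zero] at this
    refine squeeze_zero_norm' ?_ hlim
    filter_upwards [self_mem_nhdsWithin] with z hz
    have hz1 : 0 ≤ 1 - z ^ 2 := by nlinarith [hz.1, hz.2]
    have hz2 := h.cl.leg_nonneg hz
    rw [Real.norm_eq_abs, abs_of_nonneg (div_nonneg hz1 hz2)]
    by_cases hin : z ∈ Ioo (-1 : ℝ) 1
    · exact h.kappa_bound hin
    · have hz3 : z ^ 2 = 1 := by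
        rcases eq_or_lt_of_le hz.1 with h1 | h1
        · rw [← h1]; norm_num
        rcases eq_or_lt_of_le hz.2 with h2 | h2
        · rw [h2]; norm_num
        · exact absurd ⟨h1, h2⟩ hin
      rw [hz3, sub_self, zero_div]
      exact mul_nonneg h.C_pos.le hz2
  · exact ContinuousWithinAt.div (by fun_prop) (h.cl.leg_cont x hx) h0

/-- first side of `D₁` -/
theorem N1_eq (h : VLC v ℓ C) :
    Integrable (fun a => (v a - a * rd v a) * (v a ^ 2 - a ^ 2) / v a ^ 3) ∧
    ∫ a, (v a - a * rd v a) * (v a ^ 2 - a ^ 2) / v a ^ 3 =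
      ∫ x in (-1 : ℝ)..1, (1 - x ^ 2) / leg ℓ x := by
  have hmr := h.cv.meas_rd
  have hmv := h.meas_v
  have hC := h.C_pos
  have i1 : Integrable (fun a => (v a - a * rd v a) * (v a ^ 2 - a ^ 2) / v a ^ 3) := by
    refine h.cv.integrable_of_le (by fun_prop) C fun a => ?_
    have hv := h.cv.pos a
    have hY := h.cv.Y_nonneg a
    have h1 := h.sq_sub_nonneg a
    rw [abs_of_nonneg (by positivity), div_le_iff₀ (by positivity)]
    have e : C * (v a ^ 2)⁻¹ * v a ^ 3 = C * v a := by field_simp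
    rw [e]
    have h2 := h.hv a
    calc (v a - a * rd v a) * (v a ^ 2 - a ^ 2) ≤ (v a - a * rd v a) * v a ^ 2 :=
          mul_le_mul_of_nonneg_left (by nlinarith [sq_nonneg a]) hY
      _ = v a * (v a - a * rd v a) * v a := by ring
      _ ≤ C * v a := mul_le_mul_of_nonneg_right h2 hv.le
  refine ⟨i1, ?_⟩
  set κ : ℝ → ℝ := fun x => (1 - x ^ 2) / leg ℓ x with hκ
  have hFd := VL.prim_hd h.kappa_cont
  set F := VL.prim κ with hF
  have hFc : Continuous F := by
    rw [continuous_iff_continuousAt]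
    exact fun x => (hFd x).continuousAt
  have hxc : Continuous (fun a => a / v a) :=
    continuous_id.div h.cv.cont fun a => (h.cv.pos a).ne'
  have hGd : ∀ a, HasDerivWithinAt (fun a => F (a / v a))
      ((v a - a * rd v a) * (v a ^ 2 - a ^ 2) / v a ^ 3) (Ioi a) a := by
    intro a
    have hv := h.cv.pos a
    have e1 := HasDerivAt.comp_hasDerivWithinAt a (hFd (a / v a)) (h.cv.hd_div a)
    have e4 : VL.ext κ (a / v a) * ((v a - a * rd v a) / v a ^ 2) =
        (v a - a * rd v a) * (v a ^ 2 - a ^ 2) / v a ^ 3 := by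
      rw [VL.ext_eq _ (h.cv.abs_div_le a)]
      rcases eq_or_lt_of_le (h.cv.Y_nonneg a) with h0 | h0
      · rw [← h0]; simp
      · simp only [hκ]
        rw [h.leg_div h0]
        field_simp
    rw [← e4]
    exact e1
  have hl : Tendsto (fun a => F (a / v a)) atBot (𝓝 0) := by
    have := (hFc.tendsto (-1)).comp h.cv.tendsto_div_atBot
    rw [hF, VL.prim_neg_one] at this
    exact this
  have hr : Tendsto (fun a => F (a / v a)) atTop (𝓝 (∫ x in (-1 : ℝ)..1, (1 - x ^ 2) / leg ℓ x)) := by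
    have := (hFc.tendsto 1).comp h.cv.tendsto_div_atTop
    rw [hF, VL.prim_one] at this
    exact this
  rw [ftc_eq (hFc.comp hxc) hGd i1 hl hr, sub_zero]

/-- `N₁ ≤ 16 / A` -/
theorem N1_le (h : VLC v ℓ C) :
    (∫ x in (-1 : ℝ)..1, (1 - x ^ 2) / leg ℓ x) ≤ 16 / ∫ a, (v a ^ 2)⁻¹ := by
  have hy0 : 0 < leg ℓ 0 := h.cl.leg_pos (by norm_num)
  have hp1 : (1 : ℝ) ∈ Icc (-1 : ℝ) 1 := by norm_num
  have hm1 : (-1 : ℝ) ∈ Icc (-1 : ℝ) 1 := by norm_num
  have hyi : IntervalIntegrable (leg ℓ) volume (-1) 1 :=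
    (h.cl.leg_cont.mono (by rw [uIcc_of_le (by norm_num)])).intervalIntegrable
  have hyp : 0 < ∫ x in (-1 : ℝ)..1, leg ℓ x :=
    intervalIntegral.intervalIntegral_pos_of_pos_on hyi (fun x hx => h.cl.leg_pos hx) (by norm_num)
  have h1 : (∫ x in (-1 : ℝ)..1, (1 - x ^ 2) / leg ℓ x) ≤ ∫ _x in (-1 : ℝ)..1, 2 / leg ℓ 0 := by
    apply intervalIntegral.integral_mono_on (by norm_num)
    · exact (h.kappa_cont.mono (by rw [uIcc_of_le (by norm_num)])).intervalIntegrable
    · simp
    · intro x hx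
      have h2 := concave_lower h.cl.leg_concave (h.cl.leg_nonneg hm1) (h.cl.leg_nonneg hp1) hx
      have hx0 := h.cl.leg_nonneg hx
      have h3 : 1 - x ^ 2 ≤ 2 * (1 - |x|) := by
        have : |x| ≤ 1 := abs_le.2 hx
        rw [← sq_abs]
        nlinarith [abs_nonneg x]
      rcases eq_or_lt_of_le hx0 with h4 | h4
      · rw [← h4, div_zero]; positivity
      · rw [div_le_div_iff₀ h4 hy0]
        nlinarith
  have h2 : (∫ x in (-1 : ℝ)..1, leg ℓ x) ≤ 2 * leg ℓ 0 := by
    have e1 : (∫ x in (-1 : ℝ)..1, leg ℓ (-x)) = ∫ x in (-1 : ℝ)..1, leg ℓ x := by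
      rw [intervalIntegral.integral_comp_neg]; simp
    have hyi2 : IntervalIntegrable (fun x => leg ℓ (-x)) volume (-1) 1 := by
      have : ContinuousOn (fun x => leg ℓ (-x)) (uIcc (-1) 1) := by
        rw [uIcc_of_le (by norm_num)]
        exact h.cl.leg_cont.comp (by fun_prop) fun x hx => ⟨by linarith [hx.2], by linarith [hx.1]⟩
      exact this.intervalIntegrable
    have e2 : (∫ x in (-1 : ℝ)..1, (leg ℓ x + leg ℓ (-x))) ≤ ∫ _x in (-1 : ℝ)..1, 2 * leg ℓ 0 := by
      apply intervalIntegral.integral_mono_on (by norm_num) (hyi.add hyi2) (by simp)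
      intro x hx
      have := h.cl.leg_concave.2 hx (show -x ∈ Icc (-1 : ℝ) 1 from ⟨by linarith [hx.2],
        by linarith [hx.1]⟩) (show (0 : ℝ) ≤ 1 / 2 by norm_num) (show (0 : ℝ) ≤ 1 / 2 by norm_num)
        (by norm_num)
      simp only [smul_eq_mul] at this
      have e : 1 / 2 * x + 1 / 2 * -x = 0 := by ring
      rw [e] at this
      linarith
    rw [intervalIntegral.integral_add hyi hyi2, e1] at e2
    simp only [intervalIntegral.integral_const, smul_eq_mul] at e2
    linarith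
  rw [h.area]
  refine h1.trans ?_
  simp only [intervalIntegral.integral_const, smul_eq_mul]
  have e : (1 - -1 : ℝ) * (2 / leg ℓ 0) = 4 / leg ℓ 0 := by ring
  rw [e, div_le_div_iff₀ hy0 (by positivity)]
  linarith

end VLC

end Pool.Agent.Helper76.BL
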