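import Pool.Agent.Helper76.BL.D1

/-!
# Planar inequalities for the Barker-Larman theorem (MP_70efd9_gt): chart functions

`v a` is the gauge of a symmetric planar convex body `S` at `(a, 1)`, `ℓ p` is its support
function at `(p, 1)`; `(1, 0)` is a boundary point of `S` and `S ⊆ {|x| ≤ 1}`.
-/

set_option autoImplicit false

open Set MeasureTheory Filter Topology

namespace Pool.Agent.Helper76.BL

/-- right derivative -/
noncomputable def rd (f : ℝ → ℝ) (a : ℝ) : ℝ := derivWithin f (Ioi a) a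

/-- a chart function: convex, 1-Lipschitz, `≥ |a|`, positive -/
structure Chart (v : ℝ → ℝ) : Prop where
  conv : ConvexOn ℝ univ v
  lip : ∀ a a', v a ≤ v a' + |a - a'|
  ge_abs : ∀ a, |a| ≤ v a
  pos0 : 0 < v 0

namespace Chart

variable {v : ℝ → ℝ}

lemma pos (h : Chart v) (a : ℝ) : 0 < v a := by
  rcases eq_or_ne a 0 with rfl | ha
  · exact h.pos0
  · exact lt_of_lt_of_le (abs_pos.2 ha) (h.ge_abs a)

lemma hd (h : Chart v) (a : ℝ) : HasDerivWithinAt v (rd v a) (Ioi a) a :=
  h.conv.hasDerivWithinAt_rightDeriv_of_mem_interior (by simp)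

lemma cont (h : Chart v) : Continuous v := by
  have : LipschitzWith 1 v := by
    apply LipschitzWith.of_le_add
    intro a a'
    rw [Real.dist_eq]
    exact h.lip a a'
  exact this.continuous

lemma lipWith (h : Chart v) : LipschitzWith 1 v := by
  apply LipschitzWith.of_le_add
  intro a a'
  rw [Real.dist_eq]
  exact h.lip a a'

lemma upper (h : Chart v) (a : ℝ) : v a ≤ |a| + v 0 := by
  have := h.lip a 0
  rw [sub_zero] at this
  linarith

lemma subgrad (h : Chart v) (a a' : ℝ) : v a + rd v a * (a' - a) ≤ v a' := by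
  rcases lt_trichotomy a a' with hlt | heq | hgt
  · have := h.conv.rightDeriv_le_slope (mem_univ a) (mem_univ a') hlt
      (h.hd a).differentiableWithinAt
    rw [slope_def_field, le_div_iff₀ (sub_pos.2 hlt)] at this
    change rd v a * (a' - a) ≤ _ at this
    linarith
  · subst heq; simp
  · have h1 := h.conv.slope_le_leftDeriv_of_mem_interior (x := a') (y := a) (mem_univ a')
      (by simp) hgt
    have h2 := h.conv.leftDeriv_le_rightDeriv_of_mem_interior (x := a) (by simp)
    have h3 := h1.trans h2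
    rw [slope_def_field, div_le_iff₀ (sub_pos.2 hgt)] at h3
    change v a - v a' ≤ rd v a * (a - a') at h3
    linarith

lemma abs_rd (h : Chart v) (a : ℝ) : |rd v a| ≤ 1 := by
  rw [abs_le]
  constructor
  · have h1 := h.subgrad a (a - 1)
    have h2 := h.lip (a - 1) a
    simp at h1 h2
    linarith
  · have h1 := h.subgrad a (a + 1)
    have h2 := h.lip (a + 1) a
    simp at h1 h2
    linarith

lemma Y_nonneg (h : Chart v) (a : ℝ) : 0 ≤ v a - a * rd v a := by
  have h1 := h.ge_abs a
  have h2 : a * rd v a ≤ |a| := by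
    calc a * rd v a ≤ |a * rd v a| := le_abs_self _
      _ = |a| * |rd v a| := abs_mul _ _
      _ ≤ |a| * 1 := mul_le_mul_of_nonneg_left (h.abs_rd a) (abs_nonneg _)
      _ = |a| := mul_one _
  linarith

lemma Y_pos_iff (h : Chart v) (a : ℝ) : v a - a * rd v a = 0 → v a = |a| := by
  intro h0
  have h1 := h.ge_abs a
  have h2 : a * rd v a ≤ |a| := by
    calc a * rd v a ≤ |a * rd v a| := le_abs_self _
      _ = |a| * |rd v a| := abs_mul _ _
      _ ≤ |a| * 1 := mul_le_mul_of_nonneg_left (h.abs_rd a) (abs_nonneg _)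
      _ = |a| := mul_one _
  linarith

lemma mono_rd (h : Chart v) : Monotone (rd v) := by
  intro a a' haa
  have := h.conv.monotoneOn_rightDeriv (show a ∈ interior univ by simp)
    (show a' ∈ interior univ by simp) haa
  exact this

lemma meas_rd (h : Chart v) : Measurable (rd v) := h.mono_rd.measurable

lemma half_le (h : Chart v) (a : ℝ) : v 0 / 2 ≤ v a := by
  rcases le_total (v 0 / 2) |a| with h1 | h1
  · exact h1.trans (h.ge_abs a)
  · have := h.lip 0 a
    rw [zero_sub, abs_neg] at this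
    linarith

/-- lower bound by a multiple of `√(1 + a²)` -/
lemma sq_lower (h : Chart v) : ∃ c : ℝ, 0 < c ∧ ∀ a, c * (1 + a ^ 2) ≤ v a ^ 2 := by
  refine ⟨min (1 / 2) ((v 0 / 2) ^ 2 / 2), lt_min (by norm_num) (by have := h.pos0; positivity),
    fun a => ?_⟩
  have h1 : a ^ 2 ≤ v a ^ 2 := by
    rw [← sq_abs a]
    exact pow_le_pow_left₀ (abs_nonneg a) (h.ge_abs a) 2
  have h2 : (v 0 / 2) ^ 2 ≤ v a ^ 2 := pow_le_pow_left₀ (by have := h.pos0; positivity) (h.half_le a) 2
  have h3 : min (1 / 2) ((v 0 / 2) ^ 2 / 2) * 1 ≤ (v 0 / 2) ^ 2 / 2 := by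
    rw [mul_one]; exact min_le_right _ _
  have h4 : min (1 / 2) ((v 0 / 2) ^ 2 / 2) * a ^ 2 ≤ 1 / 2 * a ^ 2 :=
    mul_le_mul_of_nonneg_right (min_le_left _ _) (sq_nonneg a)
  nlinarith

lemma integrable_inv_sq (h : Chart v) : Integrable (fun a => (v a ^ 2)⁻¹) := by
  obtain ⟨c, hc, hcv⟩ := h.sq_lower
  refine Integrable.mono' (g := fun a => c⁻¹ * (1 + a ^ 2)⁻¹)
    (integrable_inv_one_add_sq.const_mul _) ?_ ?_
  · exact ((h.cont.pow 2).inv₀ (fun a => (pow_pos (h.pos a) 2).ne')).aestronglyMeasurable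
  · filter_upwards with a
    have h1 : 0 < v a ^ 2 := pow_pos (h.pos a) 2
    rw [Real.norm_eq_abs, abs_of_pos (inv_pos.2 h1), ← mul_inv]
    exact inv_anti₀ (by positivity) (hcv a)

end Chart

end Pool.Agent.Helper76.BL
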